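import Pool.Agent.MP_d7dd47_co.Basic

-- part MP_d7dd47_co.H40.KVa
section

namespace Pool.Agent.MP_d7dd47_co.H40

open Finset Module MeasureTheory

/-! ### Perturbation into general position -/

lemma span_ne_top {n : ℕ} (T : Finset (EuclideanSpace ℝ (Fin n))) (hT : T.card ≤ n) :
    affineSpan ℝ (T : Set (EuclideanSpace ℝ (Fin n))) ≠ ⊤ := by
  intro h
  rcases T.eq_empty_or_nonempty with rfl | hne
  · simp at h
  · obtain ⟨m, hm⟩ : ∃ m, T.card = m + 1 := ⟨T.card - 1, by have := hne.card_pos; omega⟩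
    have h1 := finrank_vectorSpan_image_finset_le ℝ (id : EuclideanSpace ℝ (Fin n) → _) T hm
    rw [Finset.image_id, ← direction_affineSpan, h, AffineSubspace.direction_top, finrank_top,
      finrank_euclideanSpace_fin] at h1
    omega

lemma exists_avoid {n : ℕ} (X : Finset (EuclideanSpace ℝ (Fin n))) (c : EuclideanSpace ℝ (Fin n))
    {η : ℝ} (hη : 0 < η) : ∃ x, dist x c < η ∧ ∀ T ⊆ X, T.card ≤ n →
      x ∉ affineSpan ℝ (T : Set (EuclideanSpace ℝ (Fin n))) := by
  classical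
  by_contra hcon
  push Not at hcon
  have hsub : Metric.ball c η ⊆ ⋃ T ∈ X.powerset.filter (fun T => T.card ≤ n),
      (affineSpan ℝ (T : Set (EuclideanSpace ℝ (Fin n))) : Set (EuclideanSpace ℝ (Fin n))) := by
    intro x hx
    obtain ⟨T, h1, h2, h3⟩ := hcon x hx
    exact Set.mem_biUnion (mem_coe.2 (mem_filter.2 ⟨mem_powerset.2 h1, h2⟩)) h3
  have h0 : volume (⋃ T ∈ X.powerset.filter (fun T => T.card ≤ n),
      (affineSpan ℝ (T : Set (EuclideanSpace ℝ (Fin n))) : Set (EuclideanSpace ℝ (Fin n)))) = 0 := by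
    rw [← Finset.set_biUnion_coe, measure_biUnion_null_iff (Finset.countable_toSet _)]
    intro T hT
    exact Measure.addHaar_affineSubspace volume _ (span_ne_top T (mem_filter.1 hT).2)
  exact (Metric.measure_ball_pos volume c hη).ne' (measure_mono_null hsub h0)

lemma gp_insert {n : ℕ} {X : Finset (EuclideanSpace ℝ (Fin n))} (hX : GP X)
    {x : EuclideanSpace ℝ (Fin n)} (hx : ∀ T ⊆ X, T.card ≤ n →
      x ∉ affineSpan ℝ (T : Set (EuclideanSpace ℝ (Fin n)))) : GP (insert x X) := by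
  classical
  intro T hT hc
  by_cases hxT : x ∈ T
  · have h1 : T.erase x ⊆ X := fun y hy => by
      rcases mem_insert.1 (hT (mem_of_mem_erase hy)) with h | h
      · exact absurd h (ne_of_mem_erase hy)
      · exact h
    have h2 : (T.erase x).card ≤ n := by rw [card_erase_of_mem hxT]; omega
    have h3 := hX _ h1 (by omega)
    refine AffineIndependent.affineIndependent_of_notMem_span (i := ⟨x, hxT⟩) ?_ ?_
    · let e : {y : T // y ≠ ⟨x, hxT⟩} ↪ (T.erase x : Finset _) :=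
        ⟨fun y => ⟨y.1.1, mem_erase.2 ⟨fun h => y.2 (Subtype.ext h), y.1.2⟩⟩,
          fun a b h => Subtype.ext (Subtype.ext (Subtype.mk.inj h))⟩
      exact h3.comp_embedding e
    · intro h
      refine hx _ h1 h2 (affineSpan_mono ℝ ?_ h)
      rintro _ ⟨y, hy, rfl⟩
      exact mem_coe.2 (mem_erase.2 ⟨fun h => hy (Subtype.ext h), y.2⟩)
  · exact hX T (fun y hy => by
      rcases mem_insert.1 (hT hy) with h | h
      · exact absurd (h ▸ hy) hxT
      · exact h) hc

lemma gp_perturb {n : ℕ} (hn : 1 ≤ n) {ι : Type*} [DecidableEq ι] (s : Finset ι)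
    (p : ι → EuclideanSpace ℝ (Fin n)) {η : ℝ} (hη : 0 < η) :
    ∃ q : ι → EuclideanSpace ℝ (Fin n), (∀ i, dist (q i) (p i) < η) ∧ Set.InjOn q s ∧
      GP (s.image q) := by
  classical
  induction s using Finset.induction_on with
  | empty =>
    refine ⟨p, fun i => by simpa using hη, by simp, fun T hT _ => ?_⟩
    rw [image_empty, subset_empty] at hT
    subst hT
    exact affineIndependent_of_subsingleton _ _
  | insert a s ha ih =>
    obtain ⟨q, h1, h2, h3⟩ := ih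
    obtain ⟨x, hx1, hx2⟩ := exists_avoid (s.image q) (p a) hη
    have hxs : ∀ i ∈ s, x ≠ q i := fun i hi h => by
      refine hx2 {q i} (by simpa using ⟨i, hi, rfl⟩) (by simpa using hn) ?_
      rw [h]
      exact subset_affineSpan ℝ _ (by simp)
    have hq : ∀ i ∈ s, Function.update q a x i = q i := fun i hi =>
      Function.update_of_ne (fun h : i = a => ha (h ▸ hi)) _ _
    refine ⟨Function.update q a x, fun i => ?_, ?_, ?_⟩
    · by_cases hi : i = a
      · subst hi; simpa using hx1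
      · rw [Function.update_of_ne hi]; exact h1 i
    · intro i hi j hj hij
      rcases mem_insert.1 (mem_coe.1 hi) with hi' | hi' <;>
        rcases mem_insert.1 (mem_coe.1 hj) with hj' | hj'
      · rw [hi', hj']
      · rw [hq j hj', hi', Function.update_self] at hij
        exact absurd hij (hxs j hj')
      · rw [hq i hi', hj', Function.update_self] at hij
        exact absurd hij.symm (hxs i hi')
      · rw [hq i hi', hq j hj'] at hij
        exact h2 hi' hj' hij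
    · rw [image_insert, Function.update_self, image_congr (fun i hi => hq i hi)]
      exact gp_insert h3 hx2

/-! ### Counting leaves without long alternating branch patterns -/

/-- The leaf `y` branches from another leaf of `Y` at level `t`. -/
def Br (Y : Finset (Finset ℕ)) (y : Finset ℕ) (t : ℕ) : Prop :=
  ∃ y' ∈ Y, (∀ s < t, (s ∈ y ↔ s ∈ y')) ∧ ¬ (t ∈ y ↔ t ∈ y')

/-- `k` branch levels from level `ℓ` on at which membership alternates. -/
def Alt (Y : Finset (Finset ℕ)) (y : Finset ℕ) : ℕ → Prop → ℕ → Prop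
  | 0, _, _ => True
  | k + 1, b, ℓ => ∃ t, ℓ ≤ t ∧ Br Y y t ∧ (t ∈ y ↔ b) ∧ Alt Y y k (¬ b) (t + 1)

lemma Alt.mono {Y Y' : Finset (Finset ℕ)} (h : Y ⊆ Y') {y : Finset ℕ} :
    ∀ {k : ℕ} {b : Prop} {ℓ ℓ' : ℕ}, ℓ' ≤ ℓ → Alt Y y k b ℓ → Alt Y' y k b ℓ'
  | 0, _, _, _, _, _ => trivial
  | _ + 1, _, _, _, hl, ⟨t, h1, ⟨y', h2, h3⟩, h4, h5⟩ =>
    ⟨t, hl.trans h1, ⟨y', h h2, h3⟩, h4, Alt.mono h le_rfl h5⟩

open Classical in
/-- The leaves with a given turn at level `ℓ`. -/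
noncomputable def part (Y : Finset (Finset ℕ)) (ℓ : ℕ) (P : Prop) : Finset (Finset ℕ) :=
  Y.filter (fun y => ℓ ∈ y ↔ P)

lemma mem_part {Y : Finset (Finset ℕ)} {ℓ : ℕ} {P : Prop} {y : Finset ℕ} :
    y ∈ part Y ℓ P ↔ y ∈ Y ∧ (ℓ ∈ y ↔ P) := by
  classical
  unfold part
  rw [mem_filter]

lemma part_subset (Y : Finset (Finset ℕ)) (ℓ : ℕ) (P : Prop) : part Y ℓ P ⊆ Y :=
  fun _ h => (mem_part.1 h).1

lemma card_part (Y : Finset (Finset ℕ)) (ℓ : ℕ) (P : Prop) :
    Y.card = (part Y ℓ P).card + (part Y ℓ (¬ P)).card := by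
  classical
  rw [← card_union_of_disjoint]
  · congr 1
    ext y
    simp only [mem_union, mem_part]
    tauto
  · rw [disjoint_left]
    intro y h1 h2
    rw [mem_part] at h1 h2
    tauto

lemma count_one (m : ℕ) : ∀ (ℓ k : ℕ) (b : Prop) (Y : Finset (Finset ℕ)),
    (∀ y ∈ Y, y ⊆ range (ℓ + m)) → (∀ y ∈ Y, ∀ y' ∈ Y, ∀ s < ℓ, (s ∈ y ↔ s ∈ y')) →
    (∀ y ∈ Y, ¬ Alt Y y (k + 1) b ℓ) → Y.card ≤ (m + 1) ^ k := by
  classical
  induction m with
  | zero =>
    intro ℓ k b Y h1 h2 _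
    rw [zero_add, one_pow, card_le_one]
    intro y hy y' hy'
    ext s
    by_cases hs : s < ℓ
    · exact h2 y hy y' hy' s hs
    · exact ⟨fun h => absurd (mem_range.1 (h1 y hy h)) hs,
        fun h => absurd (mem_range.1 (h1 y' hy' h)) hs⟩
  | succ m ih =>
    intro ℓ k b Y h1 h2 h3
    have sub : ∀ (P : Prop) (k' : ℕ) (b' : Prop),
        (∀ y ∈ Y, (ℓ ∈ y ↔ P) → ¬ Alt Y y (k' + 1) b' (ℓ + 1)) →
        (part Y ℓ P).card ≤ (m + 1) ^ k' := by
      intro P k' b' h
      refine ih (ℓ + 1) k' b' _ (fun y hy => ?_) (fun y hy y' hy' s hs => ?_) (fun y hy hA => ?_)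
      · rw [show ℓ + 1 + m = ℓ + (m + 1) by omega]; exact h1 y (mem_part.1 hy).1
      · rcases Nat.lt_succ_iff_lt_or_eq.1 hs with hs | rfl
        · exact h2 y (mem_part.1 hy).1 y' (mem_part.1 hy').1 s hs
        · exact (mem_part.1 hy).2.trans (mem_part.1 hy').2.symm
      · exact h y (mem_part.1 hy).1 (mem_part.1 hy).2 (hA.mono (part_subset _ _ _) le_rfl)
    have hsplit := card_part Y ℓ b
    have hall : ∀ P : Prop, (part Y ℓ P).card ≤ (m + 1) ^ k := fun P =>
      sub P k b (fun y hy _ hA => h3 y hy (hA.mono Subset.rfl (by omega)))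
    have hle : (m + 1) ^ k ≤ (m + 1 + 1) ^ k := Nat.pow_le_pow_left (by omega) k
    rcases (part Y ℓ (¬ b)).eq_empty_or_nonempty with he | ⟨z, hz⟩
    · rw [hsplit, he, card_empty, add_zero]; exact (hall b).trans hle
    · have hbr : ∀ y ∈ Y, (ℓ ∈ y ↔ b) → Br Y y ℓ := fun y hy hb =>
        ⟨z, (mem_part.1 hz).1, h2 y hy z (mem_part.1 hz).1, by
          have := (mem_part.1 hz).2; tauto⟩
      cases k with
      | zero =>
        have : part Y ℓ b = ∅ := by
          rw [eq_empty_iff_forall_notMem]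
          intro y hy
          obtain ⟨hy, hb⟩ := mem_part.1 hy
          exact h3 y hy ⟨ℓ, le_rfl, hbr y hy hb, hb, trivial⟩
        rw [hsplit, this, card_empty, zero_add]; exact (hall _).trans hle
      | succ k =>
        have a1 := sub b k (¬ b) (fun y hy hb hA => h3 y hy ⟨ℓ, le_rfl, hbr y hy hb, hb, hA⟩)
        have a2 := hall (¬ b)
        have a3 : (m + 1) ^ k ≤ (m + 1 + 1) ^ k := Nat.pow_le_pow_left (by omega) k
        rw [hsplit]
        rw [pow_succ] at a2 ⊢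
        calc _ ≤ (m + 1) ^ k * (m + 1 + 1) := by rw [mul_add_one]; omega
          _ ≤ _ := Nat.mul_le_mul_right _ a3

lemma count_two (k m : ℕ) : ∀ (ℓ : ℕ) (Y : Finset (Finset ℕ)),
    (∀ y ∈ Y, y ⊆ range (ℓ + m)) → (∀ y ∈ Y, ∀ y' ∈ Y, ∀ s < ℓ, (s ∈ y ↔ s ∈ y')) →
    (∀ y ∈ Y, ∀ b, ¬ Alt Y y (k + 2) b ℓ) → Y.card ≤ 2 * (m + 1) ^ k := by
  classical
  induction m with
  | zero =>
    intro ℓ Y h1 h2 h3
    have := count_one 0 ℓ (k + 1) True Y h1 h2 (fun y hy => h3 y hy True)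
    simp only [zero_add, one_pow] at this ⊢
    omega
  | succ m ih =>
    intro ℓ Y h1 h2 h3
    have g1 : ∀ P : Prop, ∀ y ∈ part Y ℓ P, y ⊆ range (ℓ + 1 + m) :=
      fun P y hy => by
        rw [show ℓ + 1 + m = ℓ + (m + 1) by omega]; exact h1 y (mem_part.1 hy).1
    have g2 : ∀ P : Prop, ∀ y ∈ part Y ℓ P,
        ∀ y' ∈ part Y ℓ P, ∀ s < ℓ + 1, (s ∈ y ↔ s ∈ y') := by
      intro P y hy y' hy' s hs
      rcases Nat.lt_succ_iff_lt_or_eq.1 hs with hs | rfl
      · exact h2 y (mem_part.1 hy).1 y' (mem_part.1 hy').1 s hs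
      · exact (mem_part.1 hy).2.trans (mem_part.1 hy').2.symm
    have hle : (m + 1) ^ k ≤ (m + 1 + 1) ^ k := Nat.pow_le_pow_left (by omega) k
    by_cases hall : ∃ P : Prop, ∀ y ∈ Y, (ℓ ∈ y ↔ P)
    · obtain ⟨P, hP⟩ := hall
      have e : part Y ℓ P = Y :=
        (part_subset _ _ _).antisymm fun y hy => mem_part.2 ⟨hy, hP y hy⟩
      have := ih (ℓ + 1) Y (e ▸ g1 P) (e ▸ g2 P)
        (fun y hy b hA => h3 y hy b (hA.mono Subset.rfl (by omega)))
      omega
    · have one : ∀ P : Prop, (part Y ℓ P).card ≤ (m + 1) ^ k := by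
        intro P
        refine count_one m (ℓ + 1) k (¬ P) _ (g1 P) (g2 P) (fun y hy hA => ?_)
        obtain ⟨hy1, hy2⟩ := mem_part.1 hy
        have : ∃ z ∈ Y, ¬ (ℓ ∈ z ↔ P) := by
          by_contra hc
          push Not at hc
          exact hall ⟨P, hc⟩
        obtain ⟨z, hz, hz'⟩ := this
        exact h3 y hy1 P ⟨ℓ, le_rfl, ⟨z, hz, h2 y hy1 z hz, by tauto⟩, hy2,
          hA.mono (part_subset _ _ _) le_rfl⟩
      have hsplit := card_part Y ℓ True
      have := one True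
      have := one (¬ True)
      omega

/-- Unfolding an alternating pattern into a sequence of levels. -/
lemma Alt.seq {Y : Finset (Finset ℕ)} {y : Finset ℕ} : ∀ {k : ℕ} {b : Prop} {ℓ : ℕ},
    Alt Y y k b ℓ → ∃ t : Fin k → ℕ, StrictMono t ∧ (∀ i, ℓ ≤ t i) ∧ (∀ i, Br Y y (t i)) ∧
      ∀ i, (t i ∈ y ↔ (b ↔ Even (i : ℕ)))
  | 0, _, _, _ => ⟨fun i => i.elim0, fun i => i.elim0, fun i => i.elim0, fun i => i.elim0,
      fun i => i.elim0⟩
  | k + 1, b, ℓ, ⟨t0, h1, h2, h3, h4⟩ => by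
    obtain ⟨t, p1, p2, p3, p4⟩ := h4.seq
    refine ⟨Fin.cons t0 t, ?_, fun i => ?_, fun i => ?_, fun i => ?_⟩
    · rw [Fin.strictMono_cons]
      exact ⟨fun i => p2 i, p1⟩
    · refine Fin.cases ?_ (fun i => ?_) i
      · simpa using h1
      · have := p2 i
        simp only [Fin.cons_succ]; omega
    · refine Fin.cases ?_ (fun i => ?_) i
      · simpa using h2
      · simpa using p3 i
    · refine Fin.cases ?_ (fun i => ?_) i
      · simpa using h3
      · have := p4 i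
        simp only [Fin.cons_succ, Fin.val_succ, Nat.even_add_one]
        tauto

end Pool.Agent.MP_d7dd47_co.H40

end

-- part MP_d7dd47_co.H40.KVb
section

namespace Pool.Agent.MP_d7dd47_co.H40

open Finset Module

/-- The moment curve. -/
noncomputable def mom (n t : ℕ) : EuclideanSpace ℝ (Fin n) :=
  WithLp.toLp 2 (fun j => (t : ℝ) ^ (j : ℕ))

lemma det_pos (n D : ℕ) : ∃ η : ℝ, 0 < η ∧ ∀ t : Fin n → ℕ, StrictMono t → (∀ i, t i < D) →
    ∀ w : Fin n → EuclideanSpace ℝ (Fin n), (∀ i, dist (w i) (mom n (t i)) < η) →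
      0 < (Matrix.of fun i j => w i j).det := by
  have h1 : ∀ t : Fin n → Fin D, ∃ ε : Set.Ioi (0 : ℝ), StrictMono (fun i => (t i : ℕ)) →
      ∀ w : Fin n → EuclideanSpace ℝ (Fin n), (∀ i, dist (w i) (mom n (t i)) < ε) →
        0 < (Matrix.of fun i j => w i j).det := by
    intro t
    by_cases ht : StrictMono (fun i => (t i : ℕ))
    · have hc : Continuous (fun w : Fin n → EuclideanSpace ℝ (Fin n) =>
          (Matrix.of fun i j => w i j).det) :=
        Continuous.matrix_det (continuous_pi fun i => continuous_pi fun j => by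
          simp only [Matrix.of_apply]; fun_prop)
      have h0 : 0 < (Matrix.of fun i j => mom n (t i) j).det := by
        have e : (Matrix.of fun i j => mom n (t i) j) =
            Matrix.vandermonde (fun i => ((t i : ℕ) : ℝ)) := by
          ext i j; simp [mom]
        rw [e, Matrix.det_vandermonde]
        refine prod_pos fun i _ => prod_pos fun j hj => sub_pos.2 ?_
        exact_mod_cast ht (mem_Ioi.1 hj)
      have h2 := (hc.tendsto (fun i => mom n (t i))).eventually (lt_mem_nhds h0)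
      obtain ⟨ε, hε, h3⟩ := Metric.eventually_nhds_iff.1 h2
      exact ⟨⟨ε, hε⟩, fun _ w hw => h3 ((dist_pi_lt_iff hε).2 hw)⟩
    · exact ⟨⟨1, by simp⟩, fun h => absurd h ht⟩
  choose ε hε using h1
  have : Nonempty (Set.Ioi (0 : ℝ)) := ⟨⟨1, by simp⟩⟩
  obtain ⟨η, hη⟩ := Finite.exists_ge ε
  refine ⟨η, η.2, fun t ht hD w hw => hε (fun i => ⟨t i, hD i⟩) ht w fun i => ?_⟩
  exact (hw i).trans_le (hη _)

lemma alt_dep {n : ℕ} (w : Fin (n + 1) → EuclideanSpace ℝ (Fin n)) :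
    ∑ i : Fin (n + 1), ((-1 : ℝ) ^ (i : ℕ) *
      (Matrix.of fun k j => w (i.succAbove k) j).det) • w i = 0 := by
  ext j
  let A : Matrix (Fin (n + 1)) (Fin (n + 1)) ℝ :=
    Matrix.of fun i => Fin.cons (w i j) (fun k => w i k)
  have h0 : A.det = 0 :=
    Matrix.det_zero_of_column_eq (Fin.succ_ne_zero j).symm (fun k => by simp [A])
  rw [Matrix.det_succ_column_zero] at h0
  simp only [WithLp.ofLp_sum, WithLp.ofLp_smul, Finset.sum_apply, Pi.smul_apply, smul_eq_mul,
    PiLp.zero_apply]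
  rw [← h0]
  refine sum_congr rfl fun i _ => ?_
  have e : A.submatrix i.succAbove Fin.succ = Matrix.of fun k j => w (i.succAbove k) j := by
    ext a b; simp [A]
  rw [e]
  simp only [A, Matrix.of_apply, Fin.cons_zero]
  ring

lemma exists_tree {n : ℕ} (hn : 1 ≤ n) (D : ℕ) {η : ℝ} (hη : 0 < η) :
    ∃ q : Finset ℕ → EuclideanSpace ℝ (Fin n), Set.InjOn q ((range D).powerset : Finset _) ∧
      GP ((range D).powerset.image q) ∧
      ∀ y y' : Finset ℕ, ∀ t < D, (∀ s < t, (s ∈ y ↔ s ∈ y')) → t ∉ y → t ∈ y' →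
        ∃ (c : ℝ) (w : EuclideanSpace ℝ (Fin n)), 0 < c ∧ dist w (mom n t) < η ∧
          q y' - q y = c • w := by
  classical
  set M : ℝ := ∑ s ∈ range D, ‖mom n s‖ with hM
  have hM0 : 0 ≤ M := sum_nonneg fun _ _ => norm_nonneg _
  obtain ⟨δ, hδ0, hδ1, hδ⟩ : ∃ δ : ℝ, 0 < δ ∧ δ ≤ 1 ∧ δ * (M + 2) ≤ η :=
    ⟨min 1 (η / (M + 2)), lt_min one_pos (by positivity), min_le_left _ _,
      (le_div_iff₀ (by positivity)).1 (min_le_right _ _)⟩
  let co : Finset ℕ → ℕ → ℝ := fun y s => if s ∈ y then δ ^ s else 0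
  obtain ⟨q, h1, h2, h3⟩ := gp_perturb hn (range D).powerset
    (fun y => ∑ s ∈ range D, co y s • mom n s) (pow_pos hδ0 D)
  refine ⟨q, h2, h3, fun y y' t ht hag hy hy' => ?_⟩
  have hp : 0 < δ ^ t := pow_pos hδ0 t
  refine ⟨δ ^ t, (δ ^ t)⁻¹ • (q y' - q y), hp, ?_, by rw [smul_inv_smul₀ hp.ne']⟩
  have hb : ∀ s, |co y' s - co y s - (if s = t then δ ^ t else 0)| ≤ δ ^ (t + 1) := by
    intro s
    have hp1 : 0 < δ ^ (t + 1) := pow_pos hδ0 _
    rcases lt_trichotomy s t with h | rfl | h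
    · have : co y' s = co y s := by simp only [co, hag s h]
      rw [this, if_neg h.ne]; simpa using hp1.le
    · simp only [co, if_pos hy', if_neg hy, if_true]; simpa using hp1.le
    · have a1 : δ ^ s ≤ δ ^ (t + 1) := pow_le_pow_of_le_one hδ0.le hδ1 h
      have a2 : 0 < δ ^ s := pow_pos hδ0 s
      rw [if_neg h.ne', abs_le]
      simp only [co]
      split_ifs <;> constructor <;> linarith
  have e1 : ∑ s ∈ range D, co y' s • mom n s - ∑ s ∈ range D, co y s • mom n s - δ ^ t • mom n t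
      = ∑ s ∈ range D, (co y' s - co y s - (if s = t then δ ^ t else 0)) • mom n s := by
    simp only [sub_smul, sum_sub_distrib, ite_smul, zero_smul, sum_ite_eq', mem_range, ht, if_true]
  have e2 : ‖∑ s ∈ range D, co y' s • mom n s - ∑ s ∈ range D, co y s • mom n s -
      δ ^ t • mom n t‖ ≤ δ ^ (t + 1) * M := by
    rw [e1, hM, mul_sum]
    refine (norm_sum_le _ _).trans (sum_le_sum fun s _ => ?_)
    rw [norm_smul, Real.norm_eq_abs]
    exact mul_le_mul_of_nonneg_right (hb s) (norm_nonneg _)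
  have a1 : δ ^ D ≤ δ ^ (t + 1) := pow_le_pow_of_le_one hδ0.le hδ1 ht
  have b1 := h1 y
  have b2 := h1 y'
  rw [dist_eq_norm] at b1 b2
  have e3 : ‖q y' - q y - δ ^ t • mom n t‖ < δ ^ t * η := by
    have : q y' - q y - δ ^ t • mom n t = (q y' - ∑ s ∈ range D, co y' s • mom n s) -
        (q y - ∑ s ∈ range D, co y s • mom n s) + (∑ s ∈ range D, co y' s • mom n s -
          ∑ s ∈ range D, co y s • mom n s - δ ^ t • mom n t) := by abel
    rw [this]
    have c1 := norm_add_le ((q y' - ∑ s ∈ range D, co y' s • mom n s) -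
        (q y - ∑ s ∈ range D, co y s • mom n s)) (∑ s ∈ range D, co y' s • mom n s -
          ∑ s ∈ range D, co y s • mom n s - δ ^ t • mom n t)
    have c2 := norm_sub_le (q y' - ∑ s ∈ range D, co y' s • mom n s)
      (q y - ∑ s ∈ range D, co y s • mom n s)
    have c3 := mul_le_mul_of_nonneg_left hδ hp.le
    rw [pow_succ] at a1 e2
    nlinarith
  have e4 : (δ ^ t)⁻¹ • (q y' - q y) - mom n t = (δ ^ t)⁻¹ • (q y' - q y - δ ^ t • mom n t) := by
    rw [smul_sub (δ ^ t)⁻¹ (q y' - q y), inv_smul_smul₀ hp.ne']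
  rw [dist_eq_norm, e4, norm_smul, norm_inv, Real.norm_eq_abs, abs_of_pos hp,
    inv_mul_lt_iff₀ hp]
  exact e3

lemma mem_hull_of_dep {n : ℕ} {s : Set (EuclideanSpace ℝ (Fin n))} {x : EuclideanSpace ℝ (Fin n)}
    {k : ℕ} (μ : Fin (k + 1) → ℝ) (z : Fin (k + 1) → EuclideanSpace ℝ (Fin n))
    (hμ : ∀ i, 0 < μ i) (hz : ∀ i, z i ∈ s) (h : ∑ i, μ i • (z i - x) = 0) :
    x ∈ convexHull ℝ s := by
  have hS : 0 < ∑ i, μ i := sum_pos (fun i _ => hμ i) univ_nonempty
  have h1 := Finset.centerMass_mem_convexHull (R := ℝ) univ (w := μ) (fun i _ => (hμ i).le) hS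
    (z := z) (s := s) (fun i _ => hz i)
  have h2 : ∑ i, μ i • z i = (∑ i, μ i) • x := by
    simp only [smul_sub, sum_sub_distrib, ← sum_smul] at h
    exact sub_eq_zero.1 h
  rwa [Finset.centerMass, h2, inv_smul_smul₀ hS.ne'] at h1

/-- The Karolyi-Valtr sets: `2 ^ D` points, no more than `2 (D+1)^(n-1)` in convex position. -/
theorem kv (m D : ℕ) : ∃ X : Finset (EuclideanSpace ℝ (Fin (m + 1))), GP X ∧ X.card = 2 ^ D ∧
    ∀ Y ⊆ X, ConvIndep (Y : Set (EuclideanSpace ℝ (Fin (m + 1)))) →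
      Y.card ≤ 2 * (D + 1) ^ m := by
  classical
  obtain ⟨η, hη, hdet⟩ := det_pos (m + 1) D
  obtain ⟨q, h1, h2, h3⟩ := exists_tree (n := m + 1) (by omega) D hη
  refine ⟨_, h2, by rw [card_image_of_injOn h1, card_powerset, card_range], fun Y hY hC => ?_⟩
  obtain ⟨Z, hZ, rfl⟩ := subset_image_iff.1 hY
  refine card_image_le.trans (count_two m D 0 Z (fun y hy => ?_) (fun _ _ _ _ s hs => by omega)
    (fun y hy b hA => ?_))
  · rw [zero_add]; exact mem_powerset.1 (hZ hy)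
  obtain ⟨t, p1, _, p3, p4⟩ := hA.seq
  choose z z1 z2 z3 using p3
  have hD : ∀ i, t i < D := fun i => by
    by_cases h : t i ∈ y
    · exact mem_range.1 (mem_powerset.1 (hZ hy) h)
    · exact mem_range.1 (mem_powerset.1 (hZ (z1 i)) (by have := z3 i; tauto))
  obtain ⟨σ, hσ, hσ'⟩ : ∃ σ : ℝ, σ ≠ 0 ∧ (b → σ = -1) ∧ (¬ b → σ = 1) := by
    by_cases hb : b
    · exact ⟨-1, by norm_num, fun _ => rfl, fun h => absurd hb h⟩
    · exact ⟨1, by norm_num, fun h => absurd h hb, fun _ => rfl⟩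
  have hw : ∀ i : Fin (m + 2), ∃ (c : ℝ) (w : EuclideanSpace ℝ (Fin (m + 1))), 0 < c ∧
      dist w (mom (m + 1) (t i)) < η ∧ q (z i) - q y = (c * σ * (-1) ^ (i : ℕ)) • w := by
    intro i
    by_cases h : t i ∈ y
    · obtain ⟨c, w, a1, a2, a3⟩ := h3 (z i) y (t i) (hD i) (fun s hs => (z2 i s hs).symm)
        (by have := z3 i; tauto) h
      refine ⟨c, w, a1, a2, ?_⟩
      have e : σ * (-1) ^ (i : ℕ) = -1 := by
        have := (p4 i).1 h
        rcases Nat.even_or_odd (i : ℕ) with hi | hi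
        · rw [hi.neg_one_pow, hσ'.1 (this.2 hi)]; ring
        · rw [hi.neg_one_pow, hσ'.2 (fun hb => Nat.not_even_iff_odd.2 hi (this.1 hb))]; ring
      rw [mul_assoc, e, ← neg_sub, a3, mul_neg_one, neg_smul]
    · obtain ⟨c, w, a1, a2, a3⟩ := h3 y (z i) (t i) (hD i) (z2 i) h (by have := z3 i; tauto)
      refine ⟨c, w, a1, a2, ?_⟩
      have e : σ * (-1) ^ (i : ℕ) = 1 := by
        have := p4 i
        rcases Nat.even_or_odd (i : ℕ) with hi | hi
        · rw [hi.neg_one_pow, hσ'.2 (by tauto)]; ring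
        · have hi' := Nat.not_even_iff_odd.2 hi
          rw [hi.neg_one_pow, hσ'.1 (by tauto)]; ring
      rw [mul_assoc, e, a3, mul_one]
  choose c w c1 w1 w2 using hw
  have hpos : ∀ i : Fin (m + 2), 0 < (Matrix.of fun k j => w (i.succAbove k) j).det := fun i =>
    hdet (fun k => t (i.succAbove k)) (p1.comp (Fin.strictMono_succAbove i)) (fun k => hD _)
      (fun k => w (i.succAbove k)) (fun k => w1 _)
  refine hC (q y) (mem_coe.2 (mem_image_of_mem q hy)) (mem_hull_of_dep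
    (fun i => (Matrix.of fun k j => w (i.succAbove k) j).det / c i) (fun i => q (z i))
    (fun i => div_pos (hpos i) (c1 i)) (fun i => ⟨mem_coe.2 (mem_image_of_mem q (z1 i)), ?_⟩) ?_)
  · intro h
    have := h1 (mem_coe.2 (hZ (z1 i))) (mem_coe.2 (hZ hy)) h
    exact z3 i (by rw [this])
  · have := congrArg (fun v => σ • v) (alt_dep w)
    simp only [smul_zero, smul_sum, smul_smul] at this
    rw [← this]
    refine sum_congr rfl fun i _ => ?_
    rw [w2, smul_smul]
    congr 1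
    have := (c1 i).ne'
    field_simp

/-- The lower bound `C(r,n) > 2 ^ (r ^ (1/(n-1)) / 6)`. -/
theorem kv_real (n r : ℕ) (hn : 2 ≤ n) (hr : 3 ≤ r) :
    ∃ X : Finset (EuclideanSpace ℝ (Fin n)), GenPos (X : Set (EuclideanSpace ℝ (Fin n))) ∧
      (2 : ℝ) ^ ((r : ℝ) ^ (1 / ((n : ℝ) - 1)) / 6) ≤ X.card ∧
      ¬ ∃ Y ⊆ (X : Set (EuclideanSpace ℝ (Fin n))), Y.encard = r ∧ ConvIndep Y := by
  obtain ⟨m, rfl⟩ : ∃ m, n = m + 1 := ⟨n - 1, by omega⟩
  have hm : (0 : ℝ) < m := by exact_mod_cast (by omega : 0 < m)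
  have hr0 : (0 : ℝ) < r := by exact_mod_cast (by omega : 0 < r)
  set ρ : ℝ := (r : ℝ) ^ (1 / (((m + 1 : ℕ) : ℝ) - 1)) with hρ
  have hρ0 : 0 < ρ := Real.rpow_pos_of_pos hr0 _
  have hρm : ρ ^ m = r := by
    rw [hρ, ← Real.rpow_natCast, ← Real.rpow_mul hr0.le]
    push_cast
    rw [add_sub_cancel_right, one_div_mul_cancel hm.ne', Real.rpow_one]
  set D := ⌈ρ / 6⌉₊ with hD
  obtain ⟨X, h1, h2, h3⟩ := kv m D
  refine ⟨X, genPos_of_gp h1, ?_, ?_⟩
  · rw [h2]
    push_cast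
    rw [← Real.rpow_natCast]
    exact Real.rpow_le_rpow_of_exponent_le one_le_two (Nat.le_ceil _)
  · rintro ⟨Y, hY, hc, hC⟩
    lift Y to Finset (EuclideanSpace ℝ (Fin (m + 1))) using X.finite_toSet.subset hY
    rw [Set.encard_coe_eq_coe_finsetCard, Nat.cast_inj] at hc
    have a1 := h3 Y (coe_subset.1 hY) hC
    have a2 := card_le_card (coe_subset.1 hY)
    rcases Nat.lt_or_ge D 2 with h | h
    · have : 2 ^ D ≤ 2 ^ 1 := Nat.pow_le_pow_right (by omega) (by omega)
      omega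
    · have b1 : (D : ℝ) < ρ / 6 + 1 := Nat.ceil_lt_add_one (by positivity)
      have b2 : (2 : ℝ) ≤ D := by exact_mod_cast h
      have b3 : (2 * ((D : ℝ) + 1)) ^ m < ρ ^ m :=
        pow_lt_pow_left₀ (by linarith) (by positivity) (by omega)
      have b4 : (2 : ℝ) ^ 1 ≤ 2 ^ m := pow_le_pow_right₀ one_le_two (by omega)
      have b5 : (r : ℝ) ≤ 2 * ((D : ℝ) + 1) ^ m := by exact_mod_cast hc ▸ a1
      have b6 : 0 < ((D : ℝ) + 1) ^ m := by positivity
      rw [mul_pow, hρm] at b3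
      nlinarith

end Pool.Agent.MP_d7dd47_co.H40

end
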