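import Pool.Agent.MP_d7dd47_co.Mg.H62_Marks
import Pool.Agent.MP_d7dd47_co.Defs
import Mathlib
import Pool.Agent.MP_026d7f_an.H77.Gauss
import Pool.Agent.MP_d7dd47_co.Basic

-- part MP_d7dd47_co.H62.Balance
section

namespace Pool.Agent.MP_d7dd47_co.H62

open Finset Module

def Hom (I : Finset ℕ) (l : Finset ℕ → ℕ → Bool) (b : Bool) (Y : Finset (Finset ℕ)) : Prop :=
  ∀ y ∈ Y, ∀ y' ∈ Y, ∀ t, IsLca y y' t → t ∈ I ∧ l y t = b

open Classical in
/-- Largest subfamily all of whose branching levels are active and carry the label `b`. -/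
noncomputable def PN (I : Finset ℕ) (l : Finset ℕ → ℕ → Bool) (b : Bool)
    (A : Finset (Finset ℕ)) : ℕ :=
  (A.powerset.filter (Hom I l b)).sup Finset.card

lemma le_PN {I : Finset ℕ} {l : Finset ℕ → ℕ → Bool} {b : Bool} {A Y : Finset (Finset ℕ)}
    (h1 : Y ⊆ A) (h2 : ∀ y ∈ Y, ∀ y' ∈ Y, ∀ t, IsLca y y' t → t ∈ I ∧ l y t = b) :
    Y.card ≤ PN I l b A := by
  classical
  unfold PN
  apply le_sup (f := Finset.card)
  rw [mem_filter, mem_powerset]
  exact ⟨h1, h2⟩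

lemma exists_PN (I : Finset ℕ) (l : Finset ℕ → ℕ → Bool) (b : Bool) (A : Finset (Finset ℕ)) :
    ∃ Y, Y ⊆ A ∧ (∀ y ∈ Y, ∀ y' ∈ Y, ∀ t, IsLca y y' t → t ∈ I ∧ l y t = b) ∧
      Y.card = PN I l b A := by
  classical
  unfold PN
  obtain ⟨Y, hY, he⟩ := exists_mem_eq_sup (A.powerset.filter (Hom I l b))
    ⟨∅, mem_filter.2 ⟨mem_powerset.2 (empty_subset _), fun y hy => absurd hy (notMem_empty y)⟩⟩
    Finset.card
  rw [mem_filter, mem_powerset] at hY
  exact ⟨Y, hY.1, hY.2, he.symm⟩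

lemma PN_mono (I : Finset ℕ) (l : Finset ℕ → ℕ → Bool) (b : Bool) {A A' : Finset (Finset ℕ)}
    (h : A ⊆ A') : PN I l b A ≤ PN I l b A' := by
  obtain ⟨Y, h1, h2, h3⟩ := exists_PN I l b A
  rw [← h3]
  exact le_PN (h1.trans h) h2

lemma PN_pos (I : Finset ℕ) (l : Finset ℕ → ℕ → Bool) (b : Bool) {A : Finset (Finset ℕ)}
    (h : A.Nonempty) : 1 ≤ PN I l b A := by
  obtain ⟨y, hy⟩ := h
  have := le_PN (I := I) (l := l) (b := b) (A := A) (Y := {y}) (by simpa using hy) (by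
    intro x hx x' hx' t ht
    rw [mem_singleton] at hx hx'
    subst hx hx'
    exact absurd Iff.rfl ht.2)
  simpa using this

lemma PN_add {I : Finset ℕ} {l : Finset ℕ → ℕ → Bool} {b : Bool} {A A1 A2 : Finset (Finset ℕ)}
    {ℓ : ℕ} (hℓ : ℓ ∈ I) (h1 : A1 ⊆ A) (h2 : A2 ⊆ A) (h : ∀ x ∈ A1, ∀ y ∈ A2, IsLca x y ℓ)
    (b1 : ∀ x ∈ A1, l x ℓ = b) (b2 : ∀ x ∈ A2, l x ℓ = b) :
    PN I l b A1 + PN I l b A2 ≤ PN I l b A := by
  classical
  obtain ⟨Y, p1, p2, p3⟩ := exists_PN I l b A1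
  obtain ⟨Y', q1, q2, q3⟩ := exists_PN I l b A2
  have hd : Disjoint Y Y' := by
    rw [disjoint_left]
    intro x hx hx'
    exact (h x (p1 hx) x (q1 hx')).2 Iff.rfl
  rw [← p3, ← q3, ← card_union_of_disjoint hd]
  apply le_PN (union_subset (p1.trans h1) (q1.trans h2))
  intro y hy y' hy' t ht
  rcases mem_union.1 hy with hy | hy <;> rcases mem_union.1 hy' with hy' | hy'
  · exact p2 y hy y' hy' t ht
  · rw [ht.unique (h y (p1 hy) y' (q1 hy'))]
    exact ⟨hℓ, b1 y (p1 hy)⟩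
  · rw [ht.unique (h y' (p1 hy') y (q1 hy)).symm]
    exact ⟨hℓ, b2 y (q1 hy)⟩
  · exact q2 y hy y' hy' t ht

lemma size_drop {p q r : ℕ} (hp : 1 ≤ p) (hq : 1 ≤ q) (h : p + q ≤ r) :
    p.size < r.size ∨ q.size < r.size := by
  have key : ∀ p : ℕ, 1 ≤ p → 2 * p ≤ r → p.size < r.size := by
    intro p hp h2
    rw [Nat.lt_size]
    have h3 : 0 < p.size := Nat.size_pos.2 hp
    obtain ⟨j, hj⟩ : ∃ j, p.size = j + 1 := ⟨p.size - 1, by omega⟩
    have h4 : 2 ^ j ≤ p := Nat.lt_size.1 (by omega)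
    rw [hj, pow_succ]
    omega
  rcases le_total p q with h' | h'
  · exact Or.inl (key p hp (by omega))
  · exact Or.inr (key q hq (by omega))

lemma eight (w X : Bool → Bool → Bool → ℝ) (F E : ℝ) (hw0 : ∀ s p q, 0 ≤ w s p q)
    (hw : ∀ p q, w true p q + w false (!p) (!q) ≤ 2) (hX0 : ∀ s p q, 0 ≤ X s p q) (hE : 0 ≤ E)
    (full : Bool → Bool → Bool → Prop) (h1 : ∀ s p q, ¬ full s p q → X s p q ≤ E)
    (h2 : ∀ s, ∑ p, ∑ q, X s p q ≤ F)
    (h3 : ∀ p q p' q', full true p q → full false p' q' → p' = (!p) ∧ q' = (!q)) :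
    ∑ s, ∑ p, ∑ q, w s p q * X s p q ≤ 2 * F + 16 * E := by
  have hw2 : ∀ s p q, w s p q ≤ 2 := by
    intro s p q
    cases s
    · have := hw (!p) (!q)
      have h0 := hw0 true (!p) (!q)
      simp only [Bool.not_not] at this
      linarith
    · have := hw p q
      have h0 := hw0 false (!p) (!q)
      linarith
  have hb : ∀ s p q, w s p q * X s p q ≤ 2 * X s p q := fun s p q =>
    mul_le_mul_of_nonneg_right (hw2 s p q) (hX0 s p q)
  have hc : ∀ s p q, ¬ full s p q → w s p q * X s p q ≤ 2 * E := fun s p q h =>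
    (hb s p q).trans (by linarith [h1 s p q h])
  have hF : ∀ s p q, X s p q ≤ F := by
    intro s p q
    have := h2 s
    simp only [Fintype.sum_bool] at this
    have a1 := hX0 s true true
    have a2 := hX0 s true false
    have a3 := hX0 s false true
    have a4 := hX0 s false false
    cases p <;> cases q <;> linarith
  have side : ∀ s, (∀ p q, ¬ full s p q) → ∑ p, ∑ q, w s p q * X s p q ≤ 8 * E := by
    intro s hs
    simp only [Fintype.sum_bool]
    linarith [hc s true true (hs _ _), hc s true false (hs _ _), hc s false true (hs _ _),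
      hc s false false (hs _ _)]
  have side2 : ∀ s, ∑ p, ∑ q, w s p q * X s p q ≤ 2 * F := by
    intro s
    have := h2 s
    simp only [Fintype.sum_bool] at this ⊢
    linarith [hb s true true, hb s true false, hb s false true, hb s false false]
  rw [Fintype.sum_bool]
  by_cases c1 : ∀ p q, ¬ full true p q
  · linarith [side true c1, side2 false]
  by_cases c2 : ∀ p q, ¬ full false p q
  · linarith [side false c2, side2 true]
  push Not at c1 c2
  obtain ⟨p0, q0, f0⟩ := c1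
  obtain ⟨p1, q1, f1⟩ := c2
  obtain ⟨rfl, rfl⟩ := h3 p0 q0 p1 q1 f0 f1
  have t1 : ∀ p q, ¬ (p = p0 ∧ q = q0) → w true p q * X true p q ≤ 2 * E := by
    intro p q hne
    apply hc
    intro hf
    have := h3 p q _ _ hf f1
    apply hne
    constructor
    · have := this.1; revert this; cases p <;> cases p0 <;> simp
    · have := this.2; revert this; cases q <;> cases q0 <;> simp
  have t2 : ∀ p q, ¬ (p = (!p0) ∧ q = (!q0)) → w false p q * X false p q ≤ 2 * E :=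
    fun p q hne => hc _ _ _ fun hf => hne (h3 p0 q0 p q f0 hf)
  have t3 : w true p0 q0 * X true p0 q0 + w false (!p0) (!q0) * X false (!p0) (!q0) ≤ 2 * F := by
    have a1 := mul_le_mul_of_nonneg_left (hF true p0 q0) (hw0 true p0 q0)
    have a2 := mul_le_mul_of_nonneg_left (hF false (!p0) (!q0)) (hw0 false (!p0) (!q0))
    have a3 : 0 ≤ F := (hX0 true true true).trans (hF _ _ _)
    have a4 := mul_le_mul_of_nonneg_right (hw p0 q0) a3
    nlinarith
  simp only [Fintype.sum_bool]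
  cases p0 <;> cases q0 <;> simp only [Bool.not_true, Bool.not_false] at t3 t2
  · linarith [t1 true true (by simp), t1 true false (by simp), t1 false true (by simp),
      t2 true false (by simp), t2 false true (by simp), t2 false false (by simp)]
  · linarith [t1 true true (by simp), t1 true false (by simp), t1 false false (by simp),
      t2 true true (by simp), t2 false true (by simp), t2 false false (by simp)]
  · linarith [t1 true true (by simp), t1 false true (by simp), t1 false false (by simp),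
      t2 true true (by simp), t2 true false (by simp), t2 false false (by simp)]
  · linarith [t1 true false (by simp), t1 false true (by simp), t1 false false (by simp),
      t2 true true (by simp), t2 true false (by simp), t2 false true (by simp)]

/-- The potential of a family of leaves. -/
noncomputable def mu (I : Finset ℕ) (l1 l2 : Finset ℕ → ℕ → Bool) (A : Finset (Finset ℕ)) : ℕ :=
  (PN I l1 true A).size + (PN I l1 false A).size + (PN I l2 true A).size + (PN I l2 false A).size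

lemma mu_mono (I : Finset ℕ) (l1 l2 : Finset ℕ → ℕ → Bool) {A A' : Finset (Finset ℕ)}
    (h : A ⊆ A') : mu I l1 l2 A ≤ mu I l1 l2 A' := by
  unfold mu
  have := Nat.size_le_size (PN_mono I l1 true h)
  have := Nat.size_le_size (PN_mono I l1 false h)
  have := Nat.size_le_size (PN_mono I l2 true h)
  have := Nat.size_le_size (PN_mono I l2 false h)
  omega

lemma mu_lt (I : Finset ℕ) (l1 l2 : Finset ℕ → ℕ → Bool) {A A' : Finset (Finset ℕ)}
    (h : A ⊆ A') (b : Bool) (hb : (PN I l1 b A).size < (PN I l1 b A').size ∨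
      (PN I l2 b A).size < (PN I l2 b A').size) : mu I l1 l2 A < mu I l1 l2 A' := by
  unfold mu
  have := Nat.size_le_size (PN_mono I l1 true h)
  have := Nat.size_le_size (PN_mono I l1 false h)
  have := Nat.size_le_size (PN_mono I l2 true h)
  have := Nat.size_le_size (PN_mono I l2 false h)
  cases b <;> omega

lemma sum_classes (A : Finset (Finset ℕ)) (g1 g2 : Finset ℕ → Bool) (f : Finset ℕ → ℝ) :
    ∑ x ∈ A, f x = ∑ p, ∑ q, ∑ x ∈ A.filter (fun x => g1 x = p ∧ g2 x = q), f x := by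
  simp only [sum_filter]
  rw [sum_comm]
  simp_rw [sum_comm (s := (univ : Finset Bool)) (t := A)]
  apply sum_congr rfl
  intro x _
  simp only [Fintype.sum_bool]
  cases g1 x <;> cases g2 x <;> simp

lemma sum_sides (A : Finset (Finset ℕ)) (g : Finset ℕ → Bool) (f : Finset ℕ → ℝ) :
    ∑ x ∈ A, f x = ∑ s, ∑ x ∈ A.filter (fun x => g x = s), f x := by
  simp only [sum_filter]
  rw [sum_comm]
  apply sum_congr rfl
  intro x _
  simp only [Fintype.sum_bool]
  cases g x <;> simp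

theorem balance_aux (D : ℕ) (mj : ℕ → Finset ℕ → Bool) (hmj : Side mj) (I : Finset ℕ)
    (l1 l2 : Finset ℕ → ℕ → Bool) (w : Bool → Bool → Bool → ℝ) (hw0 : ∀ s p q, 0 ≤ w s p q)
    (hw : ∀ p q, w true p q + w false (!p) (!q) ≤ 2) (n : ℕ) :
    ∀ ℓ, ℓ + n = D → ∀ A : Finset (Finset ℕ), (∀ x ∈ A, x ⊆ range D) →
      (∀ x ∈ A, ∀ y ∈ A, ∀ s < ℓ, (s ∈ x ↔ s ∈ y)) →
      ∑ x ∈ A, ∏ t ∈ Ico ℓ D, (if t ∈ I then w (mj t x) (l1 x t) (l2 x t) else 1) ≤
        2 ^ n * (8 * (n : ℝ) + 1) ^ mu I l1 l2 A := by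
  induction n with
  | zero =>
    intro ℓ hℓ A hA hag
    have hD : ℓ = D := by omega
    subst hD
    have : A.card ≤ 1 := by
      rw [card_le_one]
      intro x hx y hy
      ext t
      by_cases ht : t < ℓ
      · exact hag x hx y hy t ht
      · constructor
        · intro h; exact absurd (mem_range.1 (hA x hx h)) ht
        · intro h; exact absurd (mem_range.1 (hA y hy h)) ht
    simp only [Ico_self, prod_empty, sum_const, nsmul_eq_mul, mul_one, pow_zero, Nat.cast_zero,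
      mul_zero, zero_add, one_pow]
    exact_mod_cast this
  | succ n ih =>
    intro ℓ hℓ A hA hag
    rcases A.eq_empty_or_nonempty with rfl | hne
    · simp only [sum_empty]; positivity
    set W : Finset ℕ → ℝ := fun x =>
      ∏ t ∈ Ico (ℓ + 1) D, (if t ∈ I then w (mj t x) (l1 x t) (l2 x t) else 1) with hW
    have hW0 : ∀ x, 0 ≤ W x := fun x => prod_nonneg fun t _ => by
      split_ifs
      · exact hw0 _ _ _
      · norm_num
    have hsplit : ∀ x, ∏ t ∈ Ico ℓ D, (if t ∈ I then w (mj t x) (l1 x t) (l2 x t) else 1) =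
        (if ℓ ∈ I then w (mj ℓ x) (l1 x ℓ) (l2 x ℓ) else 1) * W x := fun x =>
      prod_eq_prod_Ico_succ_bot (by omega) _
    simp only [hsplit]
    set u : ℝ := 8 * (n : ℝ) + 1 with hu
    have hu1 : 1 ≤ u := by rw [hu]; have : (0 : ℝ) ≤ n := Nat.cast_nonneg n; linarith
    have IH : ∀ S ⊆ A, ∀ s, (∀ x ∈ S, mj ℓ x = s) →
        ∑ x ∈ S, W x ≤ 2 ^ n * u ^ mu I l1 l2 S := by
      intro S hS s hs
      apply ih (ℓ + 1) (by omega) S (fun x hx => hA x (hS hx))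
      intro x hx y hy t ht
      rcases Nat.lt_succ_iff_lt_or_eq.1 ht with h | rfl
      · exact hag x (hS hx) y (hS hy) t h
      · exact (hmj t x y (hag x (hS hx) y (hS hy))).1 ((hs x hx).trans (hs y hy).symm)
    have IH2 : ∀ S ⊆ A, ∀ s, (∀ x ∈ S, mj ℓ x = s) →
        ∑ x ∈ S, W x ≤ 2 ^ n * u ^ mu I l1 l2 A := fun S hS s hs =>
      (IH S hS s hs).trans (mul_le_mul_of_nonneg_left
        (pow_le_pow_right₀ hu1 (mu_mono I l1 l2 hS)) (by positivity))
    have hcast : 8 * ((n + 1 : ℕ) : ℝ) + 1 = u + 8 := by rw [hu]; push_cast; ring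
    rw [hcast]
    by_cases hI : ℓ ∈ I
    · simp only [hI, if_true]
      obtain ⟨m, hm⟩ : ∃ m, mu I l1 l2 A = m + 1 := by
        have h1 : 0 < (PN I l1 true A).size := Nat.size_pos.2 (PN_pos I l1 true hne)
        exact ⟨mu I l1 l2 A - 1, by unfold mu; omega⟩
      set C : Bool → Bool → Bool → Finset (Finset ℕ) := fun s p q =>
        (A.filter (fun x => mj ℓ x = s)).filter (fun x => l1 x ℓ = p ∧ l2 x ℓ = q) with hC
      have hCA : ∀ s p q, C s p q ⊆ A := fun s p q =>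
        (filter_subset _ _).trans (filter_subset _ _)
      have hCm : ∀ s p q, ∀ x ∈ C s p q, mj ℓ x = s ∧ l1 x ℓ = p ∧ l2 x ℓ = q := by
        intro s p q x hx
        simp only [hC, mem_filter] at hx
        exact ⟨hx.1.2, hx.2⟩
      have e1 : ∑ x ∈ A, w (mj ℓ x) (l1 x ℓ) (l2 x ℓ) * W x =
          ∑ s, ∑ p, ∑ q, w s p q * ∑ x ∈ C s p q, W x := by
        rw [sum_sides A (mj ℓ)]
        apply sum_congr rfl
        intro s _
        rw [sum_classes _ (fun x => l1 x ℓ) (fun x => l2 x ℓ)]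
        apply sum_congr rfl
        intro p _
        apply sum_congr rfl
        intro q _
        rw [mul_sum]
        apply sum_congr rfl
        intro x hx
        obtain ⟨a1, a2, a3⟩ := hCm s p q x hx
        rw [a1, a2, a3]
      rw [e1]
      have key := eight w (fun s p q => ∑ x ∈ C s p q, W x) (2 ^ n * u ^ (m + 1))
        (2 ^ n * u ^ m) hw0 hw (fun s p q => sum_nonneg fun x _ => hW0 x) (by positivity)
        (fun s p q => (C s p q).Nonempty ∧ ¬ mu I l1 l2 (C s p q) < mu I l1 l2 A)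
        (by
          intro s p q h
          rcases (C s p q).eq_empty_or_nonempty with he | hn
          · rw [he, sum_empty]; positivity
          · have h2 : mu I l1 l2 (C s p q) < mu I l1 l2 A := by
              by_contra h3
              exact h ⟨hn, h3⟩
            exact (IH _ (hCA s p q) s (fun x hx => (hCm s p q x hx).1)).trans
              (mul_le_mul_of_nonneg_left (pow_le_pow_right₀ hu1 (by omega)) (by positivity)))
        (by
          intro s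
          rw [← sum_classes _ (fun x => l1 x ℓ) (fun x => l2 x ℓ), ← hm]
          exact IH2 _ (filter_subset _ _) s (fun x hx => (mem_filter.1 hx).2))
        (by
          rintro p q p' q' ⟨n1, f1⟩ ⟨n2, f2⟩
          have hl : ∀ x ∈ C true p q, ∀ y ∈ C false p' q', IsLca x y ℓ := by
            intro x hx y hy
            have ag := hag x (hCA _ _ _ hx) y (hCA _ _ _ hy)
            refine ⟨ag, fun h => ?_⟩
            have := (hmj ℓ x y ag).2 h
            rw [(hCm _ _ _ x hx).1, (hCm _ _ _ y hy).1] at this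
            exact absurd this (by simp)
          constructor
          · by_contra hp
            have hp' : p' = p := by revert hp; cases p <;> cases p' <;> simp
            have := PN_add (l := l1) (b := p) hI (hCA true p q) (hCA false p' q') hl
              (fun x hx => (hCm _ _ _ x hx).2.1) (fun x hx => (hCm _ _ _ x hx).2.1.trans hp')
            rcases size_drop (PN_pos I l1 p n1) (PN_pos I l1 p n2) this with h | h
            · exact f1 (mu_lt I l1 l2 (hCA _ _ _) p (Or.inl h))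
            · exact f2 (mu_lt I l1 l2 (hCA _ _ _) p (Or.inl h))
          · by_contra hq
            have hq' : q' = q := by revert hq; cases q <;> cases q' <;> simp
            have := PN_add (l := l2) (b := q) hI (hCA true p q) (hCA false p' q') hl
              (fun x hx => (hCm _ _ _ x hx).2.2) (fun x hx => (hCm _ _ _ x hx).2.2.trans hq')
            rcases size_drop (PN_pos I l2 q n1) (PN_pos I l2 q n2) this with h | h
            · exact f1 (mu_lt I l1 l2 (hCA _ _ _) q (Or.inr h))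
            · exact f2 (mu_lt I l1 l2 (hCA _ _ _) q (Or.inr h)))
      refine key.trans ?_
      rw [hm]
      have h1 : u ^ m ≤ (u + 8) ^ m := pow_le_pow_left₀ (by linarith) (by linarith) m
      have h2 : 2 * (2 ^ n * u ^ (m + 1)) + 16 * (2 ^ n * u ^ m) =
          2 ^ (n + 1) * (u ^ m * (u + 8)) := by ring
      rw [h2, pow_succ (u + 8)]
      gcongr
    · simp only [hI, if_false, one_mul]
      rw [sum_sides A (mj ℓ), Fintype.sum_bool]
      have a1 := IH2 _ (filter_subset (fun x => mj ℓ x = true) A) true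
        (fun x hx => (mem_filter.1 hx).2)
      have a2 := IH2 _ (filter_subset (fun x => mj ℓ x = false) A) false
        (fun x hx => (mem_filter.1 hx).2)
      have h1 : u ^ mu I l1 l2 A ≤ (u + 8) ^ mu I l1 l2 A :=
        pow_le_pow_left₀ (by linarith) (by linarith) _
      have h2 : (2 : ℝ) ^ n * u ^ mu I l1 l2 A ≤ 2 ^ n * (u + 8) ^ mu I l1 l2 A := by gcongr
      rw [pow_succ]
      linarith

theorem balance (D ν : ℕ) (mj : ℕ → Finset ℕ → Bool) (hmj : Side mj) (I : Finset ℕ)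
    (l1 l2 : Finset ℕ → ℕ → Bool) (w : Bool → Bool → Bool → ℝ) (hw0 : ∀ s p q, 0 ≤ w s p q)
    (hw : ∀ p q, w true p q + w false (!p) (!q) ≤ 2) {ℓ : ℕ} (hℓ : ℓ ≤ D) {z : Finset ℕ}
    (A : Finset (Finset ℕ)) (hA : A ⊆ node D ℓ z)
    (h1 : ∀ b, PN I l1 b A < 2 ^ ν) (h2 : ∀ b, PN I l2 b A < 2 ^ ν) :
    ∑ x ∈ A, ∏ t ∈ Ico ℓ D, (if t ∈ I then w (mj t x) (l1 x t) (l2 x t) else 1) ≤
      2 ^ (D - ℓ) * (8 * (D : ℝ) + 1) ^ (4 * ν) := by
  refine (balance_aux D mj hmj I l1 l2 w hw0 hw (D - ℓ) ℓ (by omega) A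
    (fun x hx => (mem_node.1 (hA hx)).1) (fun x hx y hy s hs =>
      ((mem_node.1 (hA hx)).2 s hs).trans ((mem_node.1 (hA hy)).2 s hs).symm)).trans ?_
  have a1 := Nat.size_le.2 (h1 true)
  have a2 := Nat.size_le.2 (h1 false)
  have a3 := Nat.size_le.2 (h2 true)
  have a4 := Nat.size_le.2 (h2 false)
  have hm : mu I l1 l2 A ≤ 4 * ν := by unfold mu; omega
  have hD : ((D - ℓ : ℕ) : ℝ) ≤ D := by exact_mod_cast Nat.sub_le D ℓ
  have h0 : (0 : ℝ) ≤ ((D - ℓ : ℕ) : ℝ) := Nat.cast_nonneg _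
  apply mul_le_mul_of_nonneg_left _ (by positivity)
  calc (8 * ((D - ℓ : ℕ) : ℝ) + 1) ^ mu I l1 l2 A ≤ (8 * (D : ℝ) + 1) ^ mu I l1 l2 A :=
        pow_le_pow_left₀ (by linarith) (by linarith) _
    _ ≤ _ := pow_le_pow_right₀ (by linarith) hm

variable {M : Type*} [AddCommGroup M] [Module ℝ M]

lemma PN_sg_lt {a : Finset ℕ → ℕ → M} {G : Finset (Finset ℕ)} {ν : ℕ}
    (hF : ∀ Y ⊆ G, Free a ∅ Y → Y.card < 2 ^ ν) (I : Finset ℕ) {A : Finset (Finset ℕ)}
    (hA : A ⊆ G) (φ : Finset ℕ → M →ₗ[ℝ] ℝ) (hφ : ∀ x ∈ A, ∀ t ∈ I, φ x (a x t) ≠ 0) (b : Bool) :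
    PN I (fun x t => sg (φ x) (a x t)) b A < 2 ^ ν := by
  obtain ⟨Y, h1, h2, h3⟩ := exists_PN I (fun x t => sg (φ x) (a x t)) b A
  rw [← h3]
  apply hF Y (h1.trans hA)
  intro y hy
  cases b with
  | true =>
    refine ⟨-φ y, by simp, fun y' hy' t ht => ?_⟩
    have := (h2 y hy y' hy' t ht).2
    simpa [sg] using this
  | false =>
    refine ⟨φ y, by simp, fun y' hy' t ht => ?_⟩
    have h := h2 y hy y' hy' t ht
    have h4 : φ y (a y t) ≤ 0 := by simpa [sg] using h.2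
    exact lt_of_le_of_ne h4 (hφ y (h1 hy) t h.1)

lemma beq_iff (p q b : Bool) : (p == b) = (q == b) ↔ p = q := by
  cases p <;> cases q <;> cases b <;> simp

lemma sc_weight {ε : ℝ} (f : Bool → Bool → Bool) (p q : Bool) :
    Real.exp (ε * sc ε f true p q) + Real.exp (ε * sc ε f false (!p) (!q)) ≤ 2 := by
  simp only [sc, if_true, Bool.not_not, Bool.false_eq_true, if_false]
  cases f p q
  · simp only [Bool.false_eq_true, if_false, mul_zero, Real.exp_zero]; norm_num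
  · simp only [if_true]
    have h1 := Real.cosh_le_exp_half_sq ε
    rw [Real.cosh_eq] at h1
    have h2 : Real.exp (ε ^ 2 / 2) ≤ Real.exp (ε ^ 2) :=
      Real.exp_le_exp.2 (by nlinarith [sq_nonneg ε])
    have e1 : Real.exp (ε * (1 - ε)) = Real.exp ε * Real.exp (-ε ^ 2) := by
      rw [← Real.exp_add]; congr 1; ring
    have e2 : Real.exp (ε * -(1 + ε)) = Real.exp (-ε) * Real.exp (-ε ^ 2) := by
      rw [← Real.exp_add]; congr 1; ring
    have e3 : Real.exp (ε ^ 2) * Real.exp (-ε ^ 2) = 1 := by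
      rw [← Real.exp_add]; simp
    have h4 := Real.exp_pos (-ε ^ 2)
    rw [e1, e2]
    nlinarith

open Classical in
/-- Few good leaves are atypical. -/
theorem atyp {D ν : ℕ} {a : Finset ℕ → ℕ → M} {G : Finset (Finset ℕ)}
    (hF : ∀ Y ⊆ G, Free a ∅ Y → Y.card < 2 ^ ν) (mj : ℕ → Finset ℕ → Bool) (hmj : Side mj)
    {ε : ℝ} (hε : 0 ≤ ε) (Λ : ℝ) {ℓ : ℕ} (hℓ : ℓ ≤ D) (z : Finset ℕ) :
    avg D ℓ z (fun x => ind (x ∈ G ∧ ¬ Typ (a x) (fun t => mj t x) ε Λ ℓ D)) ≤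
      32 * ((D : ℝ) + 1) ^ 2 * (8 * (D : ℝ) + 1) ^ (4 * ν) / Real.exp (ε * Λ) := by
  set K : ℝ := 2 ^ (D - ℓ) * (8 * (D : ℝ) + 1) ^ (4 * ν) / Real.exp (ε * Λ) with hK
  let Bad : ℕ × ℕ × Bool × (Bool → Bool → Bool) → Finset ℕ → Prop := fun i x =>
    ℓ ≤ i.1 ∧ ∃ φ ψ : M →ₗ[ℝ] ℝ, (∀ t ∈ Ico i.1 i.2.1, φ (a x t) ≠ 0 ∧ ψ (a x t) ≠ 0) ∧
      Λ < ∑ t ∈ Ico i.1 i.2.1, sc ε i.2.2.2 (mj t x == i.2.2.1) (sg φ (a x t)) (sg ψ (a x t))
  let T : Finset (ℕ × ℕ × Bool × (Bool → Bool → Bool)) :=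
    range (D + 1) ×ˢ range (D + 1) ×ˢ univ ×ˢ univ
  have hT : (T.card : ℝ) = 32 * ((D : ℝ) + 1) ^ 2 := by
    simp only [T, card_product, card_range, card_univ, Fintype.card_bool, Fintype.card_fun]
    push_cast; ring
  have one : ∀ i ∈ T, ∑ x ∈ node D ℓ z, ind (x ∈ G ∧ Bad i x) ≤ K := by
    rintro ⟨s, e, b, f⟩ hi
    have he : e ≤ D := by
      simp only [T, mem_product, mem_range] at hi
      omega
    set A := (node D ℓ z).filter (fun x => x ∈ G ∧ Bad (s, e, b, f) x) with hA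
    have e1 : ∑ x ∈ node D ℓ z, ind (x ∈ G ∧ Bad (s, e, b, f) x) = A.card := by
      rw [hA, sum_ind]
    rw [e1]
    rcases A.eq_empty_or_nonempty with h0 | ⟨x0, hx0⟩
    · rw [h0, hK]; simp only [card_empty, Nat.cast_zero]; positivity
    have hs : ℓ ≤ s := (mem_filter.1 hx0).2.2.1
    have ex : ∀ x, ∃ φ ψ : M →ₗ[ℝ] ℝ, x ∈ A → (∀ t ∈ Ico s e, φ (a x t) ≠ 0 ∧ ψ (a x t) ≠ 0) ∧
        Λ < ∑ t ∈ Ico s e, sc ε f (mj t x == b) (sg φ (a x t)) (sg ψ (a x t)) := by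
      intro x
      by_cases hx : x ∈ A
      · obtain ⟨φ, ψ, h⟩ := (mem_filter.1 hx).2.2.2
        exact ⟨φ, ψ, fun _ => h⟩
      · exact ⟨0, 0, fun h => absurd h hx⟩
    choose φ ψ hφ using ex
    have hAG : A ⊆ G := fun x hx => (mem_filter.1 hx).2.1
    have hb := balance D ν (fun t x => mj t x == b) (by
        intro t x y h
        rw [← hmj t x y h]
        exact beq_iff _ _ _)
      (Ico s e) (fun x t => sg (φ x) (a x t)) (fun x t => sg (ψ x) (a x t))
      (fun s p q => Real.exp (ε * sc ε f s p q)) (fun _ _ _ => (Real.exp_pos _).le)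
      (sc_weight f) hℓ A (filter_subset _ _)
      (PN_sg_lt hF _ hAG φ fun x hx t ht => ((hφ x hx).1 t ht).1)
      (PN_sg_lt hF _ hAG ψ fun x hx t ht => ((hφ x hx).1 t ht).2)
    rw [hK, le_div_iff₀ (Real.exp_pos _)]
    refine le_trans ?_ hb
    rw [← nsmul_eq_mul, ← sum_const]
    apply sum_le_sum
    intro x hx
    rw [← prod_filter, filter_mem_eq_inter, inter_eq_right.2 (Ico_subset_Ico hs he),
      ← Real.exp_sum, ← mul_sum]
    exact Real.exp_le_exp.2 (mul_le_mul_of_nonneg_left (hφ x hx).2.le hε)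
  have two : ∀ x, ind (x ∈ G ∧ ¬ Typ (a x) (fun t => mj t x) ε Λ ℓ D) ≤
      ∑ i ∈ T, ind (x ∈ G ∧ Bad i x) := by
    intro x
    by_cases hx : x ∈ G ∧ ¬ Typ (a x) (fun t => mj t x) ε Λ ℓ D
    · rw [ind_pos hx]
      obtain ⟨hG, hx⟩ := hx
      unfold Typ at hx
      push Not at hx
      obtain ⟨s, e, h1, h2, h3, φ, ψ, h4, b, f, h5⟩ := hx
      have hi : (s, e, b, f) ∈ T := by
        simp only [T, mem_product, mem_range, mem_univ, and_true]
        omega
      refine le_trans ?_ (single_le_sum (f := fun i => ind (x ∈ G ∧ Bad i x))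
        (fun i _ => ind_nonneg _) hi)
      rw [ind_pos ⟨hG, h1, φ, ψ, h4, h5⟩]
    · rw [ind_neg hx]
      exact sum_nonneg fun i _ => ind_nonneg _
  unfold avg
  rw [div_le_iff₀ (by positivity)]
  calc ∑ x ∈ node D ℓ z, ind (x ∈ G ∧ ¬ Typ (a x) (fun t => mj t x) ε Λ ℓ D)
      ≤ ∑ x ∈ node D ℓ z, ∑ i ∈ T, ind (x ∈ G ∧ Bad i x) := sum_le_sum fun x _ => two x
    _ = ∑ i ∈ T, ∑ x ∈ node D ℓ z, ind (x ∈ G ∧ Bad i x) := sum_comm
    _ ≤ ∑ _i ∈ T, K := sum_le_sum one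
    _ = _ := by
      rw [sum_const, nsmul_eq_mul, hT, hK]
      ring

end Pool.Agent.MP_d7dd47_co.H62

end

-- part MP_d7dd47_co.H62.Step
section

namespace Pool.Agent.MP_d7dd47_co.H62

open Finset Module

lemma step_arith {θ Λ p c' lam' lam0 err c lam x n Y A1 A0 B1 B0 Gm Gn Gp v : ℝ}
    (hθ0 : 0 < θ) (hθ : θ ≤ 1 / 20) (hp0 : 0 < p) (hp1 : p ≤ 1) (hΛ : 0 ≤ Λ) (hpΛ : p * Λ ≤ θ)
    (hl0 : lam0 ≤ lam) (hl : 0 ≤ lam) (hlp : lam * p ≤ 1) (hl' : Λ + lam' ≤ θ * lam0 / 20)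
    (hl'0 : 0 ≤ lam') (herr : err ≤ θ / 20) (herr0 : 0 ≤ err) (hc' : 0 < c') (hc0 : 0 ≤ c)
    (hc : c ≤ p * c' * θ / 10) (hx : 1 ≤ x) (hxn : lam * n ≤ x) (hn : 0 ≤ n)
    (e1 : x = p * A1 + Y) (e2 : p * A0 ≤ n) (e3 : (1 - 2 * θ) * A1 - Λ * x ≤ B1 + err)
    (e4 : B0 ≤ (1 + 3 * θ) * A0 + 3 * Y + 2 * Λ * (n + p * Gm) + err)
    (e5 : 1 / 4 * Y - Λ * (n + p * Gm) ≤ Gn + err) (e6 : Gm ≤ Y) (e6' : 0 ≤ Gm) (e7 : Gp ≤ n)
    (v1 : p * (c * (B1 - lam * B0)) ≤ v) (v2 : p * (c' * (Gn - lam' * Gp)) ≤ v) :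
    c * (1 - 10 * θ) * (x - lam * (1 + 30 * θ) * n) ≤ v := by
  have hY0 : 0 ≤ Y := e6'.trans e6
  have hθx : θ ≤ θ * x := le_mul_of_one_le_right hθ0.le hx
  have hG : p * Λ * Gm ≤ θ * Y := mul_le_mul hpΛ e6 e6' hθ0.le
  have hln : 0 ≤ lam * n := mul_nonneg hl hn
  rcases le_total Y (θ * x) with hY | hY
  · have a1 : (1 - 4 * θ) * x - θ * x / 20 ≤ p * B1 := by
      have b1 := mul_le_mul_of_nonneg_left e3 hp0.le
      have b2 : p * Λ * x ≤ θ * x := mul_le_mul_of_nonneg_right hpΛ (by linarith)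
      have b3 : p * err ≤ err := mul_le_of_le_one_left herr0 hp1
      have b4 : p * A1 = x - Y := by linarith
      have b5 : p * ((1 - 2 * θ) * A1 - Λ * x) = (1 - 2 * θ) * (x - Y) - p * Λ * x := by
        rw [← b4]; ring
      have b6 : 0 ≤ θ * Y := mul_nonneg hθ0.le hY0
      linarith
    have a2 : lam * (p * B0) ≤ (1 + 5 * θ) * (lam * n) + 5 * θ * x + θ * x / 20 := by
      have b1 := mul_le_mul_of_nonneg_left e4 hp0.le
      have b2 : p * Λ * n ≤ θ * n := mul_le_mul_of_nonneg_right hpΛ hn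
      have b3 : (1 + 3 * θ) * (p * A0) ≤ (1 + 3 * θ) * n :=
        mul_le_mul_of_nonneg_left e2 (by linarith)
      have b4 : p * B0 ≤ (1 + 5 * θ) * n + p * (3 * Y + 2 * (Λ * p * Gm) + err) := by linarith
      have b5 := mul_le_mul_of_nonneg_left b4 hl
      have b6 : 0 ≤ 3 * Y + 2 * (Λ * p * Gm) + err := by positivity
      have b7 := mul_le_of_le_one_left b6 hlp
      have b8 : θ * Y ≤ Y := mul_le_of_le_one_left hY0 (by linarith)
      linarith
    have a3 : (1 - 10 * θ) * (x - lam * (1 + 30 * θ) * n) ≤ p * B1 - lam * (p * B0) := by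
      have b0 : θ * θ ≤ 1 / 20 * θ := mul_le_mul_of_nonneg_right hθ hθ0.le
      have b1 : (1 + 5 * θ) * (lam * n) ≤ (1 - 10 * θ) * (1 + 30 * θ) * (lam * n) :=
        mul_le_mul_of_nonneg_right (by linarith) hln
      have b2 : 0 ≤ θ * x := by positivity
      linarith
    have a4 := mul_le_mul_of_nonneg_left a3 hc0
    linarith
  · have a1 : θ * x / 10 ≤ Gn - lam' * Gp := by
      have b1 : lam' * Gp ≤ lam' * n := mul_le_mul_of_nonneg_left e7 hl'0
      have b2 : (Λ + lam') * n ≤ θ * lam0 / 20 * n := mul_le_mul_of_nonneg_right hl' hn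
      have b3 : lam0 * n ≤ x := (mul_le_mul_of_nonneg_right hl0 hn).trans hxn
      have b4 : θ * (lam0 * n) ≤ θ * x := mul_le_mul_of_nonneg_left b3 hθ0.le
      have b5 : θ * Y ≤ 1 / 20 * Y := mul_le_mul_of_nonneg_right hθ hY0
      linarith
    have a2 : p * (c' * (θ * x / 10)) ≤ v :=
      (mul_le_mul_of_nonneg_left (mul_le_mul_of_nonneg_left a1 hc'.le) hp0.le).trans v2
    have a3 : c * x ≤ p * c' * θ / 10 * x := mul_le_mul_of_nonneg_right hc (by linarith)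
    have a4 : (1 - 10 * θ) * (x - lam * (1 + 30 * θ) * n) ≤ x := by
      have b1 : 0 ≤ (1 - 10 * θ) * ((1 + 30 * θ) * (lam * n)) := by
        apply mul_nonneg (by linarith); positivity
      have b2 : 0 ≤ θ * x := by positivity
      linarith
    have a5 := mul_le_mul_of_nonneg_left a4 hc0
    linarith

variable {M : Type*} [AddCommGroup M] [Module ℝ M] {D : ℕ} {a : Finset ℕ → ℕ → M}
  {G : Finset (Finset ℕ)}

lemma one_le_V_of_pos (hG : ∀ y ∈ G, GI D (a y)) {ℓ j : ℕ} {z B Z : Finset ℕ} (hZ : Z ⊆ range D)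
    (hc : Z.card ≤ finrank ℝ M)
    (h : 0 < avg D ℓ z (fun y => ind (y ∈ G) * cnt (a y) B Z ℓ D j)) :
    1 ≤ V D a G ℓ z (B ∪ Z) := by
  by_contra hn
  apply not_le.2 h
  rw [← avg_zero D ℓ z]
  apply avg_mono
  intro y hy
  by_cases hyG : y ∈ G
  · rw [cnt_eq_sum, sum_eq_zero, mul_zero]
    intro J _
    apply ind_neg
    intro hm
    obtain ⟨φ, hφ⟩ := (hG y hyG).perturb hZ hc (hm.mono le_rfl subset_union_left)
    exact hn (one_le_V hy hyG φ hφ)
  · rw [ind_neg hyG, zero_mul]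

lemma sum_le_pow {ℓ D j d : ℕ} (hj : j + 1 ≤ d) (f : ℕ → ℝ) (hf : ∀ t, f t ≤ ((D : ℝ) + 1) ^ j) :
    ∑ t ∈ Ico ℓ D, f t ≤ ((D : ℝ) + 1) ^ d := by
  have h0 : (0 : ℝ) ≤ D := Nat.cast_nonneg D
  calc ∑ t ∈ Ico ℓ D, f t ≤ ∑ _t ∈ Ico ℓ D, ((D : ℝ) + 1) ^ j := sum_le_sum fun t _ => hf t
    _ = ((D - ℓ : ℕ) : ℝ) * ((D : ℝ) + 1) ^ j := by rw [sum_const, Nat.card_Ico, nsmul_eq_mul]
    _ ≤ ((D : ℝ) + 1) * ((D : ℝ) + 1) ^ j := by
      apply mul_le_mul_of_nonneg_right _ (by positivity)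
      have : ((D - ℓ : ℕ) : ℝ) ≤ D := by exact_mod_cast Nat.sub_le D ℓ
      linarith
    _ = ((D : ℝ) + 1) ^ (j + 1) := by ring
    _ ≤ _ := pow_le_pow_right₀ (by linarith) hj

lemma ind_mul_le (P : Prop) {x c : ℝ} (h0 : 0 ≤ x) (h : x ≤ c) : ind P * x ≤ c := by
  have := ind_le_one P
  nlinarith

/-- The statement `TT` restricted to nodes of value below `N`. -/
def TR (D : ℕ) (a : Finset ℕ → ℕ → M) (G : Finset (Finset ℕ)) (k N : ℕ) (c lam : ℝ) : Prop :=
  ∀ ℓ ≤ D, ∀ z B Z : Finset ℕ, B.Nonempty → B ⊆ range ℓ → Z ⊆ range ℓ →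
    Z.card + k + 1 = finrank ℝ M → V D a G ℓ z (B ∪ Z) < N →
    c * (avg D ℓ z (fun y => ind (y ∈ G) * cnt (a y) B Z ℓ D k) -
      lam * avg D ℓ z (fun y => ind (y ∈ G) * cntp (a y) B Z ℓ D k)) ≤ V D a G ℓ z (B ∪ Z)

theorem step_succ [FiniteDimensional ℝ M] (hG : ∀ y ∈ G, GI D (a y)) {ν : ℕ}
    (hF : ∀ Y ⊆ G, Free a ∅ Y → Y.card < 2 ^ ν) {θ Λ p c' lam' lam0 c lam : ℝ}
    (hθ0 : 0 < θ) (hθ : θ ≤ 1 / 20) (hp0 : 0 < p) (hp1 : p ≤ 1) (hΛ : 0 ≤ Λ) (hpΛ : p * Λ ≤ θ)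
    (hl0 : lam0 ≤ lam) (hl : 0 ≤ lam) (hlp : lam * p ≤ 1) (hl' : Λ + lam' ≤ θ * lam0 / 20)
    (hl'0 : 0 ≤ lam') (herr : 32 * ((D : ℝ) + 1) ^ 2 * (8 * (D : ℝ) + 1) ^ (4 * ν) /
      Real.exp (θ * Λ) * ((D : ℝ) + 1) ^ finrank ℝ M ≤ θ / 20)
    (hc' : 0 < c') (hc'1 : c' ≤ 1) (hc0 : 0 ≤ c) (hc : c ≤ p * c' * θ / 10) {k N : ℕ}
    (hT : TT D a G k c' lam') (hR : TR D a G (k + 1) N c lam) :
    TR D a G (k + 1) (2 * N) (c * (1 - 10 * θ)) (lam * (1 + 30 * θ)) := by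
  intro ℓ hℓ z B0 Z hne hB0 hZ hcard hV
  set x := avg D ℓ z (fun y => ind (y ∈ G) * cnt (a y) B0 Z ℓ D (k + 1)) with hx
  set n := avg D ℓ z (fun y => ind (y ∈ G) * cntp (a y) B0 Z ℓ D (k + 1)) with hn
  have hn' : n = avg D ℓ z (fun y => ind (y ∈ G) * cnt (a y) B0 Z ℓ D k) := rfl
  have hn0 : 0 ≤ n := avg_nonneg fun y _ => mul_nonneg (ind_nonneg _) (cntp_nonneg _ _ _ _ _ _)
  have hV0 : (0 : ℝ) ≤ V D a G ℓ z (B0 ∪ Z) := Nat.cast_nonneg _
  have hc1 : c * (1 - 10 * θ) ≤ 1 := by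
    have : p * c' ≤ 1 := by nlinarith
    nlinarith
  have hc2 : 0 ≤ c * (1 - 10 * θ) := mul_nonneg hc0 (by linarith)
  have hln : lam * n ≤ lam * (1 + 30 * θ) * n :=
    mul_le_mul_of_nonneg_right (by nlinarith) hn0
  have hln0 : 0 ≤ lam * n := mul_nonneg hl hn0
  by_cases hx1 : x < 1
  · rcases le_or_gt x 0 with h | h
    · nlinarith
    · have : (1 : ℝ) ≤ V D a G ℓ z (B0 ∪ Z) := by
        exact_mod_cast one_le_V_of_pos hG (hZ.trans (range_subset_range.2 hℓ)) (by omega) h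
      nlinarith
  by_cases hxn : x < lam * n
  · nlinarith
  obtain ⟨B, mj, p0, p1, p2, p3, p4, p5, p6⟩ := exists_process D a G Z ℓ B0
  have capE : ∀ Ψ : ℕ → Finset ℕ → Finset ℕ → ℝ, (∀ t y B', ℓ ≤ t → t < D → B0 ⊆ B' →
      B' ⊆ range t → V D a G (t + 1) y (insert t (B' ∪ Z)) < N →
      avg D (t + 1) y (fun x => ind (x ∈ G) * Ψ t B' x) ≤ V D a G (t + 1) y (insert t (B' ∪ Z))) →
      p * EE D ℓ z G p (fun m y => ∑ t ∈ Ico ℓ D, ind (mj m t y = false) * Ψ t (B m y t) y) ≤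
        V D a G ℓ z (B0 ∪ Z) := by
    intro Ψ hΨ
    rw [← EE_mark (fun t m y => ind (mj m t y = false) * Ψ t (B m y t) y)
      (fun t m y => by simp only [p4, p5])]
    apply EE_le hp0.le hp1
    intro m
    have := capture (D := D) (a := a) (G := G) (ℓ0 := ℓ) (z0 := z) m (mj m) (p1 m)
      (fun y t => B m y t ∪ Z) (fun t x y h => by simp only [p2 m t x y h])
      (fun y t ht => ⟨fun h => by simp only [(p3 m y t ht).1 h, insert_union],
        fun h => by simp only [(p3 m y t ht).2 h]⟩)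
      (fun t y => ind (y ∈ G) * Ψ t (B m y t) y) (by
        intro t y hy h1 h2 h3
        have q1 : B0 ⊆ B m y t := by rw [← p0 m y]; exact (p3 m y).subset h1
        have q2 : V D a G t y (B m y t ∪ Z) ≤ V D a G ℓ z (B0 ∪ Z) := by
          apply V_mono _ (union_subset_union q1 le_rfl)
          intro w hw
          rw [mem_node] at hw ⊢
          exact ⟨hw.1, fun s hs => (hw.2 s (by omega)).trans (hy s hs)⟩
        have q3 := p6 m y t h3
        refine le_trans (le_of_eq (avg_congr fun w hw => ?_)) (hΨ t y (B m y t) h1 h2 q1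
          ((p3 m y).subset_range (by rw [p0]; exact hB0) h1) (by omega))
        rw [p2 m t w y (fun s hs => (mem_node.1 hw).2 s (by omega))])
      (D - ℓ) ℓ le_rfl (by omega) z (fun _ _ => Iff.rfl)
    simp only [p0] at this
    refine le_trans (le_of_eq (avg_congr fun y _ => ?_)) this
    rw [mul_sum]
    exact sum_congr rfl fun t _ => by ring
  have hne' : ∀ m y, (B m y ℓ).Nonempty := fun m y => by rw [p0]; exact hne
  have hBr : ∀ m y, B m y ℓ ⊆ range ℓ := fun m y => by rw [p0]; exact hB0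
  have hη := fun m => atyp hF (mj m) (p1 m) hθ0.le Λ hℓ z
  have hK : (0 : ℝ) ≤ ((D : ℝ) + 1) ^ finrank ℝ M := by positivity
  have mark : ∀ F : ℕ → Finset ℕ → Finset ℕ → ℝ,
      EE D ℓ z G p (fun m y => ∑ t ∈ Ico ℓ D, ind (t ∈ m ∧ mj m t y = true) * F t (B m y t) y) =
      p * EE D ℓ z G p (fun m y => ∑ t ∈ Ico ℓ D, ind (mj m t y = true) * F t (B m y t) y) := by
    intro F
    rw [← EE_mark (fun t m y => ind (mj m t y = true) * F t (B m y t) y)
      (fun t m y => by simp only [p4, p5])]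
    simp only [ind_and, mul_assoc]
  have ga0 : ∀ y j t B', 0 ≤ ga (a y) Z D j t B' := fun _ _ _ _ => cnt_nonneg _ _ _ _ _ _
  have be0 : ∀ y j t B', 0 ≤ be (a y) Z D j t B' := fun _ _ _ _ => cnt_nonneg _ _ _ _ _ _
  have s0 : ∀ (P : ℕ → Prop) (f : ℕ → ℝ), (∀ t, 0 ≤ f t) → 0 ≤ ∑ t ∈ Ico ℓ D, ind (P t) * f t :=
    fun P f hf => sum_nonneg fun t _ => mul_nonneg (ind_nonneg _) (hf t)
  refine step_arith (A1 := EE D ℓ z G p (fun m y => ∑ t ∈ Ico ℓ D,
      ind (mj m t y = true) * al (a y) Z D (k + 1) t (B m y t)))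
    (A0 := EE D ℓ z G p (fun m y => ∑ t ∈ Ico ℓ D,
      ind (mj m t y = true) * al (a y) Z D k t (B m y t)))
    (B1 := EE D ℓ z G p (fun m y => ∑ t ∈ Ico ℓ D,
      ind (mj m t y = false) * be (a y) Z D (k + 1) t (B m y t)))
    (B0 := EE D ℓ z G p (fun m y => ∑ t ∈ Ico ℓ D,
      ind (mj m t y = false) * be (a y) Z D k t (B m y t)))
    (Y := EE D ℓ z G p (fun m y => ∑ t ∈ Ico ℓ D, ga (a y) Z D k t (B m y t)))
    (Gm := EE D ℓ z G p (fun m y => ∑ t ∈ Ico ℓ D,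
      ind (mj m t y = true) * ga (a y) Z D k t (B m y t)))
    (Gn := EE D ℓ z G p (fun m y => ∑ t ∈ Ico ℓ D,
      ind (mj m t y = false) * ga (a y) Z D k t (B m y t)))
    (Gp := EE D ℓ z G p (fun m y => ∑ t ∈ Ico ℓ D,
      ind (mj m t y = false) * gp (a y) Z D k t (B m y t)))
    hθ0 hθ hp0 hp1 hΛ hpΛ hl0 hl hlp hl' hl'0 herr (by positivity) hc' hc0 hc (not_lt.1 hx1)
    (not_lt.1 hxn) hn0 ?_ ?_ ?_ ?_ ?_ ?_ ?_ ?_ ?_ ?_
  · rw [← mark (fun t B' y => al (a y) Z D (k + 1) t B'), ← EE_add, hx, ← EE_const (p := p)]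
    congr 1
    ext m y
    rw [← S0a (p3 m y) hℓ, p0]
  · rw [← mark (fun t B' y => al (a y) Z D k t B'), hn', ← EE_const (p := p)]
    apply EE_mono hp0.le hp1
    intro m y _
    have := S0b (p3 m y) hℓ (a y) Z k
    rwa [p0] at this
  · rw [hx, ← EE_const (p := p), ← EE_mul, ← EE_mul, ← EE_sub]
    apply EE_typ hp0.le hp1 hK _ hη
    · intro m y hy hT
      have := S1 (k := k + 1) (hG y hy) (p3 m y) (hne' m y) hT hθ0.le hΛ hℓ hZ hcard
      rwa [p0] at this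
    · intro m y _
      have b1 := sum_le_pow (ℓ := ℓ) (show k + 1 + 1 ≤ finrank ℝ M by omega)
        (fun t => ind (mj m t y = true) * al (a y) Z D (k + 1) t (B m y t))
        (fun t => ind_mul_le _ (al_nonneg _ _ _ _ _ _) (al_le _ _ _ _ _ _))
      have b2 := s0 (fun t => mj m t y = true) _ (fun t => al_nonneg (a y) Z D (k + 1) t (B m y t))
      have b3 := s0 (fun t => mj m t y = false) _ (fun t => be0 y (k + 1) t (B m y t))
      have b4 := mul_nonneg hΛ (cnt_nonneg (a y) B0 Z ℓ D (k + 1))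
      nlinarith
  · rw [← mark (fun t B' y => ga (a y) Z D k t B'), hn', ← EE_const (p := p), ← EE_add,
      ← EE_mul, ← EE_mul, ← EE_mul, ← EE_add, ← EE_add]
    apply EE_typ hp0.le hp1 hK _ hη
    · intro m y hy hT
      have := S2 (k := k) (hG y hy) (p3 m y) (hne' m y) (hBr m y) hT hθ0.le (by linarith) hΛ hℓ hZ
        (by omega)
      rwa [p0] at this
    · intro m y _
      have b1 := sum_le_pow (ℓ := ℓ) (show k + 1 ≤ finrank ℝ M by omega)
        (fun t => ind (mj m t y = false) * be (a y) Z D k t (B m y t))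
        (fun t => ind_mul_le _ (be0 _ _ _ _) (cnt_le _ _ _ _ _ _))
      have b2 := s0 (fun t => mj m t y = true) _ (fun t => al_nonneg (a y) Z D k t (B m y t))
      have b3 := s0 (fun t => t ∈ m ∧ mj m t y = true) _ (fun t => ga0 y k t (B m y t))
      have b4 := cnt_nonneg (a y) B0 Z ℓ D k
      have b5 : 0 ≤ ∑ t ∈ Ico ℓ D, ga (a y) Z D k t (B m y t) := sum_nonneg fun t _ => ga0 _ _ _ _
      have b6 := mul_nonneg hΛ (add_nonneg b4 b3)
      have b7 := mul_nonneg hθ0.le b2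
      nlinarith
  · rw [← mark (fun t B' y => ga (a y) Z D k t B'), hn', ← EE_const (p := p), ← EE_add,
      ← EE_mul, ← EE_mul, ← EE_sub]
    apply EE_typ hp0.le hp1 hK _ hη
    · intro m y hy hT
      have := S3 (k := k) (hG y hy) (p3 m y) (hne' m y) (hBr m y) hT (by linarith) hΛ hℓ hZ
        (by omega)
      rwa [p0] at this
    · intro m y _
      have b1 := sum_le_pow (ℓ := ℓ) (show k + 1 ≤ finrank ℝ M by omega)
        (fun t => ga (a y) Z D k t (B m y t)) (fun t => cnt_le _ _ _ _ _ _)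
      have b2 := s0 (fun t => mj m t y = false) _ (fun t => ga0 y k t (B m y t))
      have b3 := s0 (fun t => t ∈ m ∧ mj m t y = true) _ (fun t => ga0 y k t (B m y t))
      have b4 := cnt_nonneg (a y) B0 Z ℓ D k
      have b6 := mul_nonneg hΛ (add_nonneg b4 b3)
      linarith
  · apply EE_mono hp0.le hp1
    intro m y _
    exact sum_le_sum fun t _ => ind_mul_le _ (ga0 _ _ _ _) le_rfl
  · have := EE_mono (D := D) (ℓ := ℓ) (z := z) hp0.le hp1 (f := fun _ _ => 0)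
      (g := fun m y => ∑ t ∈ Ico ℓ D, ind (mj m t y = true) * ga (a y) Z D k t (B m y t))
      (G := G) (fun m y _ => s0 _ _ fun t => ga0 _ _ _ _)
    simpa [EE, avg] using this
  · rw [hn', ← EE_const (p := p)]
    apply EE_mono hp0.le hp1
    intro m y _
    have := S0c (p3 m y) hℓ (a y) Z k
    rw [p0] at this
    exact (sum_le_sum fun t _ => ind_mul_le _ (cntp_nonneg _ _ _ _ _ _) le_rfl).trans this
  · rw [← EE_mul, ← EE_sub, ← EE_mul]
    have := capE (fun t B' y => c * (be (a y) Z D (k + 1) t B' - lam * be (a y) Z D k t B')) (by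
      intro t y B' h1 h2 h3 h4 h5
      have := hR (t + 1) h2 y (insert t B') Z (insert_nonempty _ _)
        (insert_subset (by simp) (h4.trans (range_subset_range.2 (by omega))))
        (hZ.trans (range_subset_range.2 (by omega))) hcard (by rwa [insert_union])
      rw [insert_union, ← avg_mul, sub_eq_add_neg, ← neg_one_mul, ← avg_mul, ← avg_add,
        ← avg_mul] at this
      refine le_trans (le_of_eq (avg_congr fun w _ => ?_)) this
      simp only [be, cntp]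
      ring)
    refine le_trans (le_of_eq ?_) this
    congr 2
    ext m y
    rw [mul_sum, ← sum_sub_distrib, mul_sum]
    exact sum_congr rfl fun t _ => by ring
  · rw [← EE_mul, ← EE_sub, ← EE_mul]
    have := capE (fun t B' y => c' * (ga (a y) Z D k t B' - lam' * gp (a y) Z D k t B')) (by
      intro t y B' h1 h2 h3 h4 _
      have htZ : t ∉ Z := fun h => by have := mem_range.1 (hZ h); omega
      have := hT (t + 1) h2 y B' (insert t Z) (hne.mono h3)
        (h4.trans (range_subset_range.2 (by omega)))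
        (insert_subset (by simp) (hZ.trans (range_subset_range.2 (by omega))))
        (by rw [card_insert_of_notMem htZ]; omega)
      rw [union_insert, ← avg_mul, sub_eq_add_neg, ← neg_one_mul, ← avg_mul, ← avg_add,
        ← avg_mul] at this
      refine le_trans (le_of_eq (avg_congr fun w _ => ?_)) this
      simp only [ga, gp]
      ring)
    refine le_trans (le_of_eq ?_) this
    congr 2
    ext m y
    rw [mul_sum, ← sum_sub_distrib, mul_sum]
    exact sum_congr rfl fun t _ => by ring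

theorem step [FiniteDimensional ℝ M] (hG : ∀ y ∈ G, GI D (a y)) {ν : ℕ}
    (hF : ∀ Y ⊆ G, Free a ∅ Y → Y.card < 2 ^ ν) {θ Λ p c' lam' lam0 : ℝ}
    (hθ0 : 0 < θ) (hθ : θ ≤ 1 / 20) (hp0 : 0 < p) (hp1 : p ≤ 1) (hΛ : 0 ≤ Λ) (hpΛ : p * Λ ≤ θ)
    (hl : 0 ≤ lam0) (hlp : lam0 * (1 + 30 * θ) ^ ν * p ≤ 1) (hl' : Λ + lam' ≤ θ * lam0 / 20)
    (hl'0 : 0 ≤ lam') (herr : 32 * ((D : ℝ) + 1) ^ 2 * (8 * (D : ℝ) + 1) ^ (4 * ν) /
      Real.exp (θ * Λ) * ((D : ℝ) + 1) ^ finrank ℝ M ≤ θ / 20)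
    (hc' : 0 < c') (hc'1 : c' ≤ 1) {k : ℕ} (hT : TT D a G k c' lam') :
    TT D a G (k + 1) (p * c' * θ / 10 * (1 - 10 * θ) ^ ν) (lam0 * (1 + 30 * θ) ^ ν) := by
  have h1 : 1 ≤ 1 + 30 * θ := by linarith
  have key : ∀ r ≤ ν, TR D a G (k + 1) (2 ^ r) (p * c' * θ / 10 * (1 - 10 * θ) ^ r)
      (lam0 * (1 + 30 * θ) ^ r) := by
    intro r
    induction r with
    | zero =>
      intro _ ℓ hℓ z B Z hne hB hZ hcard hV
      have a1 : avg D ℓ z (fun y => ind (y ∈ G) * cnt (a y) B Z ℓ D (k + 1)) ≤ 0 := by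
        by_contra h
        have := one_le_V_of_pos hG (hZ.trans (range_subset_range.2 hℓ)) (by omega) (not_le.1 h)
        omega
      have a2 : 0 ≤ avg D ℓ z (fun y => ind (y ∈ G) * cntp (a y) B Z ℓ D (k + 1)) :=
        avg_nonneg fun y _ => mul_nonneg (ind_nonneg _) (cntp_nonneg _ _ _ _ _ _)
      refine le_trans (mul_nonpos_of_nonneg_of_nonpos (by positivity) ?_) (Nat.cast_nonneg _)
      have := mul_nonneg (mul_nonneg hl (pow_nonneg (zero_le_one.trans h1) 0)) a2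
      linarith
    | succ r ih =>
      intro hr
      have a1 : (1 - 10 * θ) ^ r ≤ 1 := pow_le_one₀ (by linarith) (by linarith)
      have a2 : 0 ≤ (1 - 10 * θ) ^ r := pow_nonneg (by linarith) _
      have a3 : 0 ≤ p * c' * θ / 10 := by positivity
      have := step_succ hG hF hθ0 hθ hp0 hp1 hΛ hpΛ
        (le_mul_of_one_le_right hl (one_le_pow₀ h1)) (by positivity)
        (le_trans (mul_le_mul_of_nonneg_right (mul_le_mul_of_nonneg_left
          (pow_le_pow_right₀ h1 (show r ≤ ν by omega)) hl) hp0.le) hlp) hl' hl'0 herr hc' hc'1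
        (mul_nonneg a3 a2) (mul_le_of_le_one_right a3 a1) hT (ih (by omega))
      rw [pow_succ, pow_succ, pow_succ, mul_comm (2 ^ r), ← mul_assoc, ← mul_assoc]
      exact this
  intro ℓ hℓ z B Z hne hB hZ hcard
  exact key ν le_rfl ℓ hℓ z B Z hne hB hZ hcard (V_lt hF _ _ _)

lemma TT.mono {k : ℕ} {c lam c' lam' : ℝ} (h : TT D a G k c lam) (h0 : 0 ≤ c') (h1 : c' ≤ c)
    (h2 : lam ≤ lam') : TT D a G k c' lam' := by
  intro ℓ hℓ z B Z hne hB hZ hcard
  have a1 := h ℓ hℓ z B Z hne hB hZ hcard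
  have a2 : 0 ≤ avg D ℓ z (fun y => ind (y ∈ G) * cntp (a y) B Z ℓ D k) :=
    avg_nonneg fun y _ => mul_nonneg (ind_nonneg _) (cntp_nonneg _ _ _ _ _ _)
  have a3 : (0 : ℝ) ≤ V D a G ℓ z (B ∪ Z) := Nat.cast_nonneg _
  have a4 := mul_le_mul_of_nonneg_right h2 a2
  generalize avg D ℓ z (fun y => ind (y ∈ G) * cnt (a y) B Z ℓ D k) = x at *
  generalize avg D ℓ z (fun y => ind (y ∈ G) * cntp (a y) B Z ℓ D k) = n at *
  rcases le_total (x - lam * n) 0 with h3 | h3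
  · nlinarith
  · nlinarith

lemma TT_zero (hG : ∀ y ∈ G, GI D (a y)) (lam : ℝ) : TT D a G 0 1 lam := by
  intro ℓ hℓ z B Z hne hB hZ hcard
  simp only [cntp, mul_zero, avg_zero, sub_zero, one_mul]
  rcases le_or_gt (avg D ℓ z (fun y => ind (y ∈ G) * cnt (a y) B Z ℓ D 0)) 0 with h | h
  · exact h.trans (Nat.cast_nonneg _)
  · have : (1 : ℝ) ≤ V D a G ℓ z (B ∪ Z) := by
      exact_mod_cast one_le_V_of_pos hG (hZ.trans (range_subset_range.2 hℓ)) (by omega) h
    refine le_trans (le_trans (avg_mono fun y _ => ?_) (avg_one_le D ℓ z)) this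
    exact ind_mul_le _ (cnt_nonneg _ _ _ _ _ _) (by simpa using cnt_le (a y) B Z ℓ D 0)

end Pool.Agent.MP_d7dd47_co.H62

end

-- part MP_d7dd47_co.H62.Core
section

namespace Pool.Agent.MP_d7dd47_co.H62

open Finset Module

lemma err_nat {D L d : ℕ} (hL : d + 30 ≤ L) (hD : D ≤ 2 ^ L) :
    32 * (D + 1) ^ 2 * (8 * D + 1) ^ (4 * L) * (D + 1) ^ d * (20 * L ^ 2) ≤ 2 ^ (L ^ 3) := by
  have h0 : 1 ≤ 2 ^ L := Nat.one_le_two_pow
  have h1 : D + 1 ≤ 2 ^ (L + 1) := by rw [pow_succ]; omega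
  have h2 : 8 * D + 1 ≤ 2 ^ (L + 4) := by rw [pow_add]; omega
  have h3 : L ≤ 2 ^ L := Nat.lt_two_pow_self.le
  calc 32 * (D + 1) ^ 2 * (8 * D + 1) ^ (4 * L) * (D + 1) ^ d * (20 * L ^ 2)
      ≤ 2 ^ 5 * (2 ^ (L + 1)) ^ 2 * (2 ^ (L + 4)) ^ (4 * L) * (2 ^ (L + 1)) ^ d *
        (2 ^ 5 * (2 ^ L) ^ 2) := by gcongr <;> norm_num
    _ = 2 ^ (5 + (L + 1) * 2 + (L + 4) * (4 * L) + (L + 1) * d + (5 + L * 2)) := by
      simp only [← pow_mul, ← pow_add]
    _ ≤ _ := by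
      apply Nat.pow_le_pow_right (by norm_num)
      have a1 : (L + 1) * d ≤ (L + 1) * L := Nat.mul_le_mul_left _ (by omega)
      have a2 : 30 * (L * L) ≤ L * (L * L) := Nat.mul_le_mul_right _ (by omega)
      have a3 : 30 * L ≤ L * L := Nat.mul_le_mul_right _ (by omega)
      have a4 : L ^ 3 = L * (L * L) := by ring
      nlinarith

lemma err_real {D L d : ℕ} (hL : d + 30 ≤ L) (hD : D ≤ 2 ^ L) :
    32 * ((D : ℝ) + 1) ^ 2 * (8 * (D : ℝ) + 1) ^ (4 * L) /
      Real.exp (1 / (L : ℝ) ^ 2 * (L : ℝ) ^ 5) * ((D : ℝ) + 1) ^ d ≤ 1 / (L : ℝ) ^ 2 / 20 := by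
  have hl : (0 : ℝ) < L := by exact_mod_cast (by omega : 0 < L)
  have h1 : (32 * ((D : ℝ) + 1) ^ 2 * (8 * (D : ℝ) + 1) ^ (4 * L) * ((D : ℝ) + 1) ^ d *
      (20 * (L : ℝ) ^ 2)) ≤ 2 ^ (L ^ 3) := by exact_mod_cast err_nat hL hD
  have h2 : (2 : ℝ) ^ (L ^ 3) ≤ Real.exp (1 / (L : ℝ) ^ 2 * (L : ℝ) ^ 5) := by
    have e : 1 / (L : ℝ) ^ 2 * (L : ℝ) ^ 5 = ((L ^ 3 : ℕ) : ℝ) * 1 := by
      push_cast; field_simp
    rw [e, Real.exp_nat_mul]
    apply pow_le_pow_left₀ (by norm_num)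
    linarith [Real.add_one_le_exp (1 : ℝ)]
  rw [div_mul_eq_mul_div, div_div, div_le_div_iff₀ (Real.exp_pos _) (by positivity)]
  linarith

variable {M : Type*} [AddCommGroup M] [Module ℝ M]

theorem TT_all [FiniteDimensional ℝ M] (k : ℕ) : ∃ e : ℕ, 5 ≤ e ∧
    ∀ (D L : ℕ) (a : Finset ℕ → ℕ → M) (G : Finset (Finset ℕ)), finrank ℝ M + 30 ≤ L →
      D ≤ 2 ^ L → (∀ y ∈ G, GI D (a y)) → (∀ Y ⊆ G, Free a ∅ Y → Y.card < 2 ^ L) →
      TT D a G k (1 / (L : ℝ) ^ e) ((L : ℝ) ^ e) := by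
  induction k with
  | zero =>
    refine ⟨5, le_rfl, fun D L a G hL _ hG _ => ?_⟩
    have hl : (1 : ℝ) ≤ L := by exact_mod_cast (by omega : 1 ≤ L)
    exact (TT_zero hG _).mono (by positivity)
      ((div_le_one (by positivity)).2 (one_le_pow₀ hl)) le_rfl
  | succ k ih =>
    obtain ⟨e, he, ih⟩ := ih
    refine ⟨2 * e + 8, by omega, fun D L a G hL hD hG hF => ?_⟩
    have hl : (30 : ℝ) ≤ L := by exact_mod_cast (by omega : 30 ≤ L)
    set l : ℝ := (L : ℝ) with hldef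
    have hl0 : 0 < l := by linarith
    have hl1 : 1 ≤ l := by linarith
    have hl2 : 900 ≤ l ^ 2 := by nlinarith
    have a1 : (1 + 30 * (1 / l ^ 2)) ^ L ≤ l := by
      have b1 : (1 + 30 * (1 / l ^ 2)) ^ L ≤ Real.exp (30 * (1 / l ^ 2)) ^ L :=
        pow_le_pow_left₀ (by positivity) (by linarith [Real.add_one_le_exp (30 * (1 / l ^ 2))]) L
      rw [← Real.exp_nat_mul] at b1
      have b2 : (L : ℝ) * (30 * (1 / l ^ 2)) ≤ 1 := by
        rw [← hldef, show l * (30 * (1 / l ^ 2)) = 30 / l by field_simp, div_le_one hl0]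
        exact hl
      have b3 := Real.exp_le_exp.2 b2
      linarith [Real.exp_one_lt_three]
    have a2 : 1 / 2 ≤ (1 - 10 * (1 / l ^ 2)) ^ L := by
      have b0 : 10 * (1 / l ^ 2) ≤ 1 := by
        rw [mul_one_div, div_le_one (by positivity)]; linarith
      have b1 := one_add_mul_le_pow (a := -(10 * (1 / l ^ 2))) (by linarith) L
      have b2 : (L : ℝ) * (10 * (1 / l ^ 2)) ≤ 1 / 2 := by
        rw [← hldef, show l * (10 * (1 / l ^ 2)) = 10 / l by field_simp, div_le_iff₀ hl0]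
        linarith
      rw [← sub_eq_add_neg] at b1
      linarith
    have a3 : l ^ (e + 4) * (1 + 30 * (1 / l ^ 2)) ^ L ≤ l ^ (e + 5) := by
      rw [pow_succ l (e + 4)]
      exact mul_le_mul_of_nonneg_left a1 (by positivity)
    have key := step hG hF (θ := 1 / l ^ 2) (Λ := l ^ 5) (p := 1 / l ^ (e + 5))
      (c' := 1 / l ^ e) (lam' := l ^ e) (lam0 := l ^ (e + 4)) (by positivity)
      (one_div_le_one_div_of_le (by norm_num) (by linarith)) (by positivity)
      ((div_le_one (by positivity)).2 (one_le_pow₀ hl1)) (by positivity)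
      (by
        rw [one_div_mul_eq_div, div_le_div_iff₀ (by positivity) (by positivity), ← pow_add,
          one_mul]
        exact pow_le_pow_right₀ hl1 (by omega))
      (by positivity)
      (by rw [mul_one_div, div_le_one (by positivity)]; exact a3)
      (by
        have b1 : l ^ 5 ≤ l ^ e := pow_le_pow_right₀ hl1 he
        have b2 : 1 / l ^ 2 * l ^ (e + 4) / 20 = l ^ e * l ^ 2 / 20 := by field_simp; ring
        have b3 : l ^ e * 900 ≤ l ^ e * l ^ 2 := mul_le_mul_of_nonneg_left hl2 (by positivity)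
        have b4 : 0 ≤ l ^ e := by positivity
        rw [b2]; linarith)
      (by positivity) (err_real hL hD) (by positivity)
      ((div_le_one (by positivity)).2 (one_le_pow₀ hl1)) (ih D L a G hL hD hG hF)
    refine key.mono (by positivity) ?_ (a3.trans (pow_le_pow_right₀ hl1 (by omega)))
    have b1 : 1 / l ^ (2 * e + 8) ≤ 1 / l ^ (e + 5) * (1 / l ^ e) * (1 / l ^ 2) / 10 * (1 / 2) := by
      rw [show 1 / l ^ (e + 5) * (1 / l ^ e) * (1 / l ^ 2) / 10 * (1 / 2) =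
        1 / (l ^ (2 * e + 7) * 20) by field_simp; ring]
      apply one_div_le_one_div_of_le (by positivity)
      rw [pow_succ l (2 * e + 7)]
      exact mul_le_mul_of_nonneg_left (by linarith) (by positivity)
    exact b1.trans (mul_le_mul_of_nonneg_left a2 (by positivity))

/-- The combinatorial core. -/
theorem core [FiniteDimensional ℝ M] {j : ℕ} (hd : finrank ℝ M = j + 2) : ∃ e : ℕ,
    ∀ (D L n : ℕ) (a : Finset ℕ → ℕ → M) (G : Finset (Finset ℕ)), j + 32 ≤ L →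
      D ≤ 2 ^ L → n ≤ 2 ^ L → (∀ y ∈ G, GI D (a y)) → G ⊆ (range D).powerset →
      2 ^ D ≤ 2 * G.card → (∀ Y ⊆ G, Free a ∅ Y → Y.card < n) →
      2 * (j + 1) * L ^ e + j + 1 ≤ D → (D - 1).choose (j + 1) ≤ 4 * L ^ e * n := by
  obtain ⟨e, -, he⟩ := TT_all (M := M) (j + 1)
  refine ⟨e, fun D L n a G hL hD hn hG hGD hc hF hDe => ?_⟩
  have hT := he D L a G (by omega) hD hG (fun Y h1 h2 => (hF Y h1 h2).trans_le hn)
  have hD0 : 0 < D := by omega
  have hl : (0 : ℝ) < (L : ℝ) ^ e := pow_pos (by exact_mod_cast (by omega : 0 < L)) e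
  have h1 : 1 / 2 ≤ avg D 0 ∅ (fun y => ind (y ∈ G)) := by
    unfold avg
    rw [sum_ind, le_div_iff₀ (by positivity), Nat.sub_zero]
    have e1 : (node D 0 ∅).filter (fun y => y ∈ G) = G := by
      ext y
      simp only [mem_filter, mem_node, Nat.not_lt_zero, IsEmpty.forall_iff, implies_true, and_true,
        and_iff_right_iff_imp]
      exact fun h => mem_powerset.1 (hGD h)
    rw [e1]
    have : (2 : ℝ) ^ D ≤ 2 * G.card := by exact_mod_cast hc
    linarith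
  obtain ⟨z, hz⟩ : ∃ z, 1 / 2 ≤ avg D 1 z (fun y => ind (y ∈ G)) := by
    rw [avg_split hD0] at h1
    by_contra h
    push Not at h
    linarith [h (insert 0 ∅), h (erase ∅ 0)]
  have h2 : ∀ i, i ≤ j + 1 → avg D 1 z (fun y => ind (y ∈ G) * cnt (a y) {0} ∅ 1 D i) =
      ((D - 1).choose i : ℝ) * avg D 1 z (fun y => ind (y ∈ G)) := by
    intro i hi
    rw [← avg_mul]
    apply avg_congr
    intro y _
    by_cases hy : y ∈ G
    · rw [mul_comm, cnt_eq_sum, sum_congr rfl (g := fun _ => 1), sum_const, card_powersetCard,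
        Nat.card_Ico, nsmul_eq_mul, mul_one]
      intro J hJ
      obtain ⟨q1, q2⟩ := mem_powersetCard.1 hJ
      rw [empty_union]
      exact ind_pos ((hG y hy).meets_zero q1 hD0 (by omega))
    · rw [ind_neg hy, zero_mul, mul_zero]
  have h3 := hT 1 hD0 z {0} ∅ (singleton_nonempty 0) (by simp) (empty_subset _) (by simp [hd])
  simp only [cntp] at h3
  rw [h2 (j + 1) le_rfl, h2 j (by omega)] at h3
  have h4 : (V D a G 1 z ({0} ∪ ∅) : ℝ) ≤ n := by exact_mod_cast (V_lt hF _ _ _).le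
  have h5 : 2 * L ^ e * (D - 1).choose j ≤ (D - 1).choose (j + 1) := by
    have b1 := Nat.choose_succ_right_eq (D - 1) j
    have b2 : (D - 1).choose j * (2 * (j + 1) * L ^ e) ≤ (D - 1).choose j * (D - 1 - j) :=
      Nat.mul_le_mul_left _ (by omega)
    apply Nat.le_of_mul_le_mul_right _ (Nat.succ_pos j)
    rw [Nat.succ_eq_add_one, b1]
    exact le_trans (le_of_eq (by ring)) b2
  have h6 : (2 : ℝ) * (L : ℝ) ^ e * ((D - 1).choose j : ℝ) ≤ ((D - 1).choose (j + 1) : ℝ) := by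
    exact_mod_cast h5
  have h7 := h3.trans h4
  rw [one_div_mul_eq_div, div_le_iff₀ hl] at h7
  have h8 : (0 : ℝ) ≤ ((D - 1).choose (j + 1) : ℝ) := Nat.cast_nonneg _
  have h9 : ((D - 1).choose (j + 1) : ℝ) ≤ 4 * (L : ℝ) ^ e * n := by
    have b1 := mul_le_mul_of_nonneg_right h6 (le_trans (by norm_num) hz)
    have b2 := mul_le_mul_of_nonneg_left hz h8
    linarith
  exact_mod_cast h9

end Pool.Agent.MP_d7dd47_co.H62

end

-- part MP_d7dd47_co.H17.Defs
section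

namespace Pool.Agent.MP_d7dd47_co.H17

/-- `C(r,n) ≤ N`: every set of at least `N` points of `ℝ^n` in general position contains `r`
convexly independent points. -/
def Forces (n N r : ℕ) : Prop :=
  ∀ X : Set (EuclideanSpace ℝ (Fin n)), GenPos X → (N : ℕ∞) ≤ X.encard →
    ∃ Y ⊆ X, Y.encard = r ∧ ConvIndep Y

end Pool.Agent.MP_d7dd47_co.H17

end

-- part MP_d7dd47_co.H17.Forster
section

namespace Pool.Agent.MP_d7dd47_co.H17

open Module
open scoped RealInnerProductSpace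

variable {E : Type*} [NormedAddCommGroup E] [InnerProductSpace ℝ E] [FiniteDimensional ℝ E]
variable {ι : Type*}

/-- any at most `D` of the vectors `v i`, `i ∈ X`, are linearly independent -/
def LI {V : Type*} [AddCommGroup V] [Module ℝ V] (v : ι → V) (X : Finset ι) (D : ℕ) : Prop :=
  ∀ T ⊆ X, T.card ≤ D → ∀ c : ι → ℝ, ∑ i ∈ T, c i • v i = 0 → ∀ i ∈ T, c i = 0

lemma LI.mono {V : Type*} [AddCommGroup V] [Module ℝ V] {v : ι → V} {X X' : Finset ι} {D D' : ℕ}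
    (h : LI v X D) (hX : X' ⊆ X) (hD : D' ≤ D) : LI v X' D' :=
  fun T hT hc => h T (hT.trans hX) (hc.trans hD)

lemma LI.ne_zero {V : Type*} [AddCommGroup V] [Module ℝ V] {v : ι → V} {X : Finset ι} {D : ℕ}
    (h : LI v X D) (hD : 1 ≤ D) {i : ι} (hi : i ∈ X) : v i ≠ 0 := by
  intro h0
  have := h {i} (by simpa using hi) (by simpa using hD) (fun _ => 1) (by simp [h0]) i (by simp)
  simp at this

lemma LI.scale {V W : Type*} [AddCommGroup V] [Module ℝ V] [AddCommGroup W] [Module ℝ W]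
    {v : ι → V} {X : Finset ι} {D : ℕ} (h : LI v X D) (A : V →ₗ[ℝ] W)
    (hA : Function.Injective A) (c : ι → ℝ) (hc : ∀ i ∈ X, c i ≠ 0) :
    LI (fun i => c i • A (v i)) X D := by
  intro T hT hcard d hd i hi
  have h1 : A (∑ i ∈ T, (d i * c i) • v i) = 0 := by
    rw [map_sum, ← hd]
    exact Finset.sum_congr rfl fun i _ => by rw [map_smul, mul_smul]
  have h2 := h T hT hcard (fun i => d i * c i) (hA (by rw [h1, map_zero])) i hi
  exact (mul_eq_zero.1 h2).resolve_right (hc i (hT hi))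

lemma block_bound (v : ι → E) (T : Finset ι) (hT : T.card = finrank ℝ E)
    (h : LI v T (finrank ℝ E)) :
    ∃ c : ℝ, ∀ A : E →ₗ[ℝ] E, A.det ≠ 0 →
      c ≤ ∑ i ∈ T, Real.log ‖A (v i)‖ - Real.log |A.det| := by
  classical
  set D := finrank ℝ E with hD
  have : Fact (finrank ℝ E = D) := ⟨rfl⟩
  let b : OrthonormalBasis (Fin D) ℝ E := stdOrthonormalBasis ℝ E
  let o : Orientation ℝ E (Fin D) := b.toBasis.orientation
  let e : Fin D ≃ T := (T.equivFinOfCardEq hT).symm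
  let w : Fin D → E := fun k => v (e k)
  have hli : LinearIndependent ℝ w := by
    rw [Fintype.linearIndependent_iff]
    intro g hg k
    have := h T subset_rfl hT.le (fun i => if hi : i ∈ T then g (e.symm ⟨i, hi⟩) else 0) (by
      rw [← hg, ← Finset.sum_coe_sort T, ← e.sum_comp]
      refine Finset.sum_congr rfl fun k _ => ?_
      simp [w]) (e k) (e k).2
    simpa using this
  have hdet : b.toBasis.det w ≠ 0 := by
    have hsp : ⊤ ≤ Submodule.span ℝ (Set.range w) := by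
      rw [hli.span_eq_top_of_card_eq_finrank' (by simp [hD])]
    have := (b.toBasis.is_basis_iff_det (v := w)).1 ⟨hli, top_le_iff.1 hsp⟩
    exact this.ne_zero
  refine ⟨Real.log |b.toBasis.det w|, fun A hA => ?_⟩
  have h1 : |b.toBasis.det (A ∘ w)| ≤ ∏ k, ‖(A ∘ w) k‖ := by
    rw [← o.volumeForm_robust' b]
    exact o.abs_volumeForm_apply_le _
  rw [Basis.det_comp, abs_mul] at h1
  have hp : 0 < |A.det| * |b.toBasis.det w| := mul_pos (abs_pos.2 hA) (abs_pos.2 hdet)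
  have h2 := Real.log_le_log hp h1
  have hne : ∀ k ∈ (Finset.univ : Finset (Fin D)), ‖(A ∘ w) k‖ ≠ 0 := by
    intro k _ h0
    have : ∏ k, ‖(A ∘ w) k‖ = 0 := Finset.prod_eq_zero (Finset.mem_univ k) h0
    linarith
  rw [Real.log_mul (abs_pos.2 hA).ne' (abs_pos.2 hdet).ne', Real.log_prod hne] at h2
  have h3 : ∑ k, Real.log ‖(A ∘ w) k‖ = ∑ i ∈ T, Real.log ‖A (v i)‖ := by
    rw [← Finset.sum_coe_sort T, ← e.sum_comp]
    rfl
  linarith

lemma phi_bound (v : ι → E) (M : ℕ) : ∀ X : Finset ι, X.card = M * finrank ℝ E →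
    LI v X (finrank ℝ E) →
    ∃ c : ℝ, ∀ A : E →ₗ[ℝ] E, A.det ≠ 0 →
      c ≤ ∑ i ∈ X, Real.log ‖A (v i)‖ - M * Real.log |A.det| := by
  classical
  induction M with
  | zero =>
    intro X hX _
    have : X = ∅ := Finset.card_eq_zero.1 (by simpa using hX)
    exact ⟨0, fun A _ => by simp [this]⟩
  | succ M ih =>
    intro X hX h
    obtain ⟨T, hT, hTc⟩ := Finset.exists_subset_card_eq (s := X) (n := finrank ℝ E)
      (by rw [hX]; nlinarith)
    obtain ⟨c1, h1⟩ := block_bound v T hTc (h.mono hT le_rfl)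
    obtain ⟨c2, h2⟩ := ih (X \ T) (by
      rw [Finset.card_sdiff_of_subset hT, hX, hTc, Nat.succ_mul]; omega)
      (h.mono Finset.sdiff_subset le_rfl)
    refine ⟨c1 + c2, fun A hA => ?_⟩
    have := h1 A hA
    have := h2 A hA
    rw [← Finset.sum_sdiff hT]
    push_cast
    linarith

/-- approximate radially isotropic position -/
theorem forster (v : ι → E) (M : ℕ) (hM : 1 ≤ M) (hD : 1 ≤ finrank ℝ E) (X : Finset ι)
    (hX : X.card = M * finrank ℝ E) (h : LI v X (finrank ℝ E)) :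
    ∃ A : E →ₗ[ℝ] E, Function.Injective A ∧ ∀ e : E, ‖e‖ = 1 → ∀ ε : ℝ, 0 ≤ ε → ∀ Z ⊆ X,
      (∀ i ∈ Z, ε * ‖A (v i)‖ ≤ ⟪e, A (v i)⟫) → Z.card * ε ^ 2 ≤ 4 * M := by
  classical
  obtain ⟨c, hc⟩ := phi_bound v M X hX h
  let Φ : (E →ₗ[ℝ] E) → ℝ := fun A => ∑ i ∈ X, Real.log ‖A (v i)‖ - M * Real.log |A.det|
  let S : Set ℝ := Φ '' {A | A.det ≠ 0}
  have hne : S.Nonempty := ⟨_, LinearMap.id, by simp, rfl⟩
  have hbd : BddBelow S := ⟨c, by rintro _ ⟨A, hA, rfl⟩; exact hc A hA⟩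
  obtain ⟨_, ⟨A, hA, rfl⟩, hlt⟩ := Real.lt_sInf_add_pos hne (ε := 1 / 2) (by norm_num)
  have hinj : Function.Injective A := by
    have : IsUnit A := (LinearMap.isUnit_iff_isUnit_det A).2 (isUnit_iff_ne_zero.2 hA)
    exact ((Module.End.isUnit_iff A).1 this).1
  refine ⟨A, hinj, fun e he ε hε Z hZ hcap => ?_⟩
  by_contra hcon
  push Not at hcon
  let B : E →ₗ[ℝ] E := LinearMap.transvection (innerₗ E e) (-(1 / 2 : ℝ) • e)
  have hBdet : B.det = 1 / 2 := by
    simp only [B, LinearMap.transvection.det, map_smul, innerₗ_apply_apply,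
      real_inner_self_eq_norm_sq, he]
    norm_num
  have hB : ∀ w : E, ‖B w‖ ^ 2 = ‖w‖ ^ 2 - 3 / 4 * ⟪e, w⟫ ^ 2 := by
    intro w
    have : B w = w + (-(1 / 2) * ⟪e, w⟫) • e := by
      simp only [B, LinearMap.transvection.apply, innerₗ_apply_apply, smul_smul]
      rw [mul_comm]
    rw [this, norm_add_sq_real, norm_smul, he, real_inner_smul_right, real_inner_comm w e,
      mul_one, Real.norm_eq_abs, sq_abs]
    ring
  have hBA : (B ∘ₗ A).det ≠ 0 := by rw [LinearMap.det_comp, hBdet]; exact mul_ne_zero (by norm_num) hA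
  have hle : sInf S ≤ Φ (B ∘ₗ A) := csInf_le hbd ⟨_, hBA, rfl⟩
  have hpos : ∀ i ∈ X, 0 < ‖A (v i)‖ := fun i hi =>
    norm_pos_iff.2 fun h0 => h.ne_zero hD hi (hinj (by rw [h0, map_zero]))
  have hstep : ∀ i ∈ X, Real.log ‖B (A (v i))‖ ≤
      Real.log ‖A (v i)‖ - (if i ∈ Z then 3 / 8 * ε ^ 2 else 0) := by
    intro i hi
    have hp := hpos i hi
    have hcs : ⟪e, A (v i)⟫ ^ 2 ≤ ‖A (v i)‖ ^ 2 := by
      have := abs_real_inner_le_norm e (A (v i))
      rw [he, one_mul] at this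
      exact sq_le_sq' (abs_le.1 this).1 (abs_le.1 this).2
    have hb := hB (A (v i))
    have hb0 : 0 < ‖B (A (v i))‖ := by
      have : 0 < ‖B (A (v i))‖ ^ 2 := by nlinarith
      exact lt_of_le_of_ne (norm_nonneg _) fun h0 => by rw [← h0] at this; simp at this
    have hq : Real.log (‖B (A (v i))‖ ^ 2 / ‖A (v i)‖ ^ 2) ≤
        ‖B (A (v i))‖ ^ 2 / ‖A (v i)‖ ^ 2 - 1 := Real.log_le_sub_one_of_pos (by positivity)
    rw [Real.log_div (by positivity) (by positivity), Real.log_pow, Real.log_pow] at hq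
    have hr : ‖B (A (v i))‖ ^ 2 / ‖A (v i)‖ ^ 2 - 1 ≤
        -2 * (if i ∈ Z then 3 / 8 * ε ^ 2 else 0) := by
      rw [sub_le_iff_le_add, div_le_iff₀ (by positivity), hb]
      split_ifs with hiZ
      · have h1 := hcap i hiZ
        have h2 : (ε * ‖A (v i)‖) ^ 2 ≤ ⟪e, A (v i)⟫ ^ 2 :=
          pow_le_pow_left₀ (by positivity) h1 2
        nlinarith
      · nlinarith [sq_nonneg ⟪e, A (v i)⟫]
    push_cast at hq
    linarith
  have hsum : ∑ i ∈ X, Real.log ‖B (A (v i))‖ ≤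
      ∑ i ∈ X, Real.log ‖A (v i)‖ - Z.card * (3 / 8 * ε ^ 2) := by
    refine (Finset.sum_le_sum hstep).trans (le_of_eq ?_)
    rw [Finset.sum_sub_distrib, Finset.sum_ite_mem, Finset.inter_eq_right.2 hZ, Finset.sum_const,
      nsmul_eq_mul]
  have hlog : Real.log |(B ∘ₗ A).det| = Real.log |A.det| - Real.log 2 := by
    rw [LinearMap.det_comp, hBdet, abs_mul, Real.log_mul (by norm_num) (abs_pos.2 hA).ne',
      abs_of_pos (by norm_num), one_div, Real.log_inv]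
    ring
  have hΦ : Φ (B ∘ₗ A) = ∑ i ∈ X, Real.log ‖B (A (v i))‖ - M * (Real.log |A.det| - Real.log 2) := by
    simp only [Φ, hlog, LinearMap.comp_apply]
  have hl2 := Real.log_two_lt_d9
  have hM' : (1 : ℝ) ≤ M := by exact_mod_cast hM
  simp only [Φ] at hlt
  nlinarith

end Pool.Agent.MP_d7dd47_co.H17

end

-- part MP_d7dd47_co.H17.Gauss
section

namespace Pool.Agent.MP_d7dd47_co.H17

open Module MeasureTheory ProbabilityTheory
open Pool.Agent.MP_026d7f_an.H77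
open scoped RealInnerProductSpace

variable {ι : Type*}

/-- every `v a`, `a ∈ S`, is cut off from the other vectors of `S` by a linear form -/
def Cvx {V : Type*} [AddCommGroup V] [Module ℝ V] (v : ι → V) (S : Finset ι) : Prop :=
  ∀ a ∈ S, ∃ f : V →ₗ[ℝ] ℝ, f (v a) ≤ 0 ∧ ∀ b ∈ S, b ≠ a → 0 < f (v b)

lemma Cvx.mono {V : Type*} [AddCommGroup V] [Module ℝ V] {v : ι → V} {S S' : Finset ι}
    (h : Cvx v S) (hS : S' ⊆ S) : Cvx v S' := fun a ha => by
  obtain ⟨f, h1, h2⟩ := h a (hS ha)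
  exact ⟨f, h1, fun b hb => h2 b (hS hb)⟩

lemma Cvx.of_scale {V W : Type*} [AddCommGroup V] [Module ℝ V] [AddCommGroup W] [Module ℝ W]
    {v : ι → V} {S : Finset ι} (A : V →ₗ[ℝ] W) (c : ι → ℝ) (hc : ∀ i ∈ S, 0 < c i)
    (h : Cvx (fun i => c i • A (v i)) S) : Cvx v S := fun a ha => by
  obtain ⟨f, h1, h2⟩ := h a ha
  refine ⟨f ∘ₗ A, ?_, fun b hb hba => ?_⟩
  · simp only [map_smul, smul_eq_mul] at h1
    exact nonpos_of_mul_nonpos_right h1 (hc a ha) |> fun h => by simpa using h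
  · have := h2 b hb hba
    simp only [map_smul, smul_eq_mul] at this
    exact (pos_iff_pos_of_mul_pos this).1 (hc b hb)

lemma sum_real_eq {Ω : Type*} [MeasurableSpace Ω] (μ : Measure Ω) [IsProbabilityMeasure μ]
    (T : Finset ι) (A : ι → Set Ω) (hA : ∀ t ∈ T, MeasurableSet (A t)) :
    Integrable (fun ω => ∑ t ∈ T, (A t).indicator (fun _ => (1 : ℝ)) ω) μ ∧
    ∫ ω, ∑ t ∈ T, (A t).indicator (fun _ => (1 : ℝ)) ω ∂μ = ∑ t ∈ T, μ.real (A t) := by
  have hi : ∀ t ∈ T, Integrable ((A t).indicator (fun _ => (1 : ℝ))) μ := fun t ht =>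
    (integrable_const 1).indicator (hA t ht)
  refine ⟨integrable_finsetSum _ hi, ?_⟩
  rw [integral_finsetSum _ hi]
  refine Finset.sum_congr rfl fun t ht => ?_
  rw [integral_indicator (hA t ht)]
  simp

open Classical in
lemma sum_indicator_eq {Ω : Type*} (T : Finset ι) (A : ι → Set Ω) (ω : Ω) :
    ∑ t ∈ T, (A t).indicator (fun _ => (1 : ℝ)) ω = (T.filter fun t => ω ∈ A t).card := by
  simp [Set.indicator_apply]

lemma exists_many {Ω : Type*} [MeasurableSpace Ω] (μ : Measure Ω) [IsProbabilityMeasure μ]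
    (T : Finset ι) (A : ι → Set Ω) (hA : ∀ t ∈ T, MeasurableSet (A t)) (p : ℝ)
    (hp : ∀ t ∈ T, p ≤ μ.real (A t)) :
    ∃ ω, ∃ S ⊆ T, p * T.card ≤ S.card ∧ ∀ t ∈ S, ω ∈ A t := by
  classical
  obtain ⟨hi, he⟩ := sum_real_eq μ T A hA
  obtain ⟨ω, hω⟩ := exists_integral_le hi
  rw [he, sum_indicator_eq] at hω
  refine ⟨ω, _, Finset.filter_subset _ _, le_trans ?_ hω, fun t ht => ?_⟩
  · have := Finset.card_nsmul_le_sum T _ p hp
    rwa [nsmul_eq_mul, mul_comm] at this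
  · simpa using (@Finset.mem_filter _ _ (fun _ => Classical.propDecidable _) _ _).1 ht |>.2

/-- Markov: half of the events happen only with probability at most `2 p` -/
lemma half_bad {Ω : Type*} [MeasurableSpace Ω] (μ : Measure Ω) [IsProbabilityMeasure μ]
    (T : Finset ι) (hT : T.Nonempty) (A : ι → Set Ω) (hA : ∀ t ∈ T, MeasurableSet (A t)) (p : ℝ)
    (hp : ∀ t ∈ T, μ.real (A t) ≤ p) :
    μ.real {ω | ¬ ∃ S ⊆ T, T.card ≤ 2 * S.card ∧ ∀ t ∈ S, ω ∉ A t} ≤ 2 * p := by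
  classical
  obtain ⟨hi, he⟩ := sum_real_eq μ T A hA
  have h := mul_meas_ge_le_integral_of_nonneg (μ := μ)
    (f := fun ω => ∑ t ∈ T, (A t).indicator (fun _ => (1 : ℝ)) ω)
    (Filter.Eventually.of_forall fun ω => Finset.sum_nonneg fun t _ =>
      Set.indicator_nonneg (fun _ _ => zero_le_one) ω) hi ((T.card : ℝ) / 2)
  rw [he] at h
  have h2 := Finset.sum_le_card_nsmul T _ p hp
  rw [nsmul_eq_mul] at h2
  have hc : (0 : ℝ) < T.card := by exact_mod_cast hT.card_pos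
  have h3 := h.trans h2
  have h4 : μ.real {ω | ¬ ∃ S ⊆ T, T.card ≤ 2 * S.card ∧ ∀ t ∈ S, ω ∉ A t} ≤
      μ.real {ω | (T.card : ℝ) / 2 ≤ ∑ t ∈ T, (A t).indicator (fun _ => (1 : ℝ)) ω} := by
    refine measureReal_mono fun ω hω => ?_
    by_contra hcon
    apply hω
    simp only [Set.mem_ofPred_eq, not_le, sum_indicator_eq] at hcon
    refine ⟨T.filter fun t => ¬ ω ∈ A t, Finset.filter_subset _ _, ?_,
      fun t ht => (Finset.mem_filter.1 ht).2⟩
    have h5 := Finset.card_filter_add_card_filter_not (s := T) (fun t => ω ∈ A t)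
    have h6 : 2 * ((T.filter fun t => ω ∈ A t).card : ℝ) < T.card := by
      have : ((T.filter fun t => ω ∈ A t).card : ℝ) < T.card / 2 := by convert hcon
      linarith
    have h7 : 2 * (T.filter fun t => ω ∈ A t).card < T.card := by exact_mod_cast h6
    omega
  nlinarith

variable {E : Type*} [NormedAddCommGroup E] [InnerProductSpace ℝ E] [FiniteDimensional ℝ E]
  [MeasurableSpace E] [BorelSpace E]

lemma real_inner_mem {e : E} (he : ‖e‖ = 1) {S : Set ℝ} (hS : MeasurableSet S) :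
    (stdGaussian E).real {z | ⟪e, z⟫ ∈ S} = g1.real S := by
  rw [← map_inner_unit he, map_measureReal_apply (by fun_prop) hS]
  rfl

lemma g1_pos {a b : ℝ} (hab : a < b) : 0 < g1.real (Set.Icc a b) := by
  have h := box_lower ((a + b) / 2) (ρ := (b - a) / 2) (by linarith)
  have e1 : (a + b) / 2 - (b - a) / 2 = a := by ring
  have e2 : (a + b) / 2 + (b - a) / 2 = b := by ring
  rw [e1, e2] at h
  refine lt_of_lt_of_le ?_ h
  have : 0 < (b - a) / 2 / 2 := by linarith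
  positivity

/-- well spread unit vectors: a thin slab -/
lemma spread (u : ι → E) (T : Finset ι) (κ : ℝ) (hκ : 0 < κ) (hκ1 : κ ≤ 1)
    (hu : ∀ i ∈ T, ‖u i‖ = 1) (hs : ∀ a ∈ T, ∀ b ∈ T, a ≠ b → ⟪u a, u b⟫ ≤ 1 - κ) :
    ∃ S ⊆ T, g1.real (Set.Icc 1 (1 + κ)) * T.card ≤ S.card ∧ Cvx u S := by
  classical
  obtain ⟨z, S, hS, hz, hz'⟩ := exists_many (stdGaussian E) T (fun t => {z | ⟪u t, z⟫ ∈ Set.Icc 1 (1 + κ)})
    (fun t _ => measurableSet_Icc.preimage (by fun_prop)) (g1.real (Set.Icc 1 (1 + κ)))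
    (fun t ht => (real_inner_mem (hu t ht) measurableSet_Icc).ge)
  refine ⟨S, hS, hz, fun a ha => ?_⟩
  have haT := hS ha
  obtain ⟨ha1, ha2⟩ := hz' a ha
  refine ⟨innerₗ E (z - ⟪u a, z⟫ • u a), ?_, fun b hb hba => ?_⟩
  · simp only [innerₗ_apply_apply, inner_sub_left, real_inner_smul_left,
      real_inner_self_eq_norm_sq, hu a haT]
    rw [real_inner_comm]
    simp
  · have hbT := hS hb
    obtain ⟨hb1, hb2⟩ := hz' b hb
    have := hs a haT b hbT hba.symm
    simp only [innerₗ_apply_apply, inner_sub_left, real_inner_smul_left]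
    rw [real_inner_comm]
    have h3 : ⟪u a, z⟫ * ⟪u a, u b⟫ ≤ ⟪u a, z⟫ * (1 - κ) :=
      mul_le_mul_of_nonneg_left this (by linarith)
    have h4 : ⟪u a, z⟫ * (1 - κ) ≤ (1 + κ) * (1 - κ) :=
      mul_le_mul_of_nonneg_right ha2 (by linarith)
    nlinarith

lemma ae_inner_ne {d : E} (hd : d ≠ 0) : ∀ᵐ z ∂(stdGaussian E), ⟪d, z⟫ ≠ 0 := by
  have hn : 0 < ‖d‖ := norm_pos_iff.2 hd
  have he : ‖(‖d‖⁻¹ : ℝ) • d‖ = 1 := by rw [norm_smul, norm_inv, norm_norm, inv_mul_cancel₀ hn.ne']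
  have h := real_inner_mem he (S := {0}) (measurableSet_singleton 0)
  have h0 : g1.real {0} = 0 := by
    have : NullSingletonClass g1 := nullSingletonClass_gaussianReal one_ne_zero
    rw [measureReal_def, measure_singleton]; simp
  rw [h0, measureReal_eq_zero_iff] at h
  rw [ae_iff]
  refine measure_mono_null (fun z hz => ?_) h
  simp only [ne_eq, not_not, Set.mem_ofPred_eq] at hz
  simp [real_inner_smul_left, hz]

omit [MeasurableSpace E] [BorelSpace E] in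
lemma isOpen_gen (j : ℕ) (W : Submodule ℝ E) :
    IsOpen {z : Fin j → E | ∀ d ∈ W, (∀ l, ⟪d, z l⟫ = 0) → d = 0} := by
  let L : (Fin j → E) → (W →L[ℝ] (Fin j → ℝ)) := fun z =>
    ContinuousLinearMap.pi fun l => (innerSL ℝ (z l)).comp W.subtypeL
  have hL : Continuous L := by
    refine continuous_clm_apply.2 fun w => ?_
    refine continuous_pi fun l => ?_
    simp only [L, ContinuousLinearMap.pi_apply, ContinuousLinearMap.comp_apply, innerSL_apply_apply]
    fun_prop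
  have h := (ContinuousLinearMap.isOpen_injective (𝕜 := ℝ) (E := W) (F := Fin j → ℝ)).preimage hL
  convert h using 1
  ext z
  simp only [Set.mem_ofPred_eq, Set.mem_preimage]
  rw [injective_iff_map_eq_zero]
  constructor
  · intro hz w hw
    ext
    refine hz w w.2 fun l => ?_
    have := congrFun hw l
    simpa [L, real_inner_comm] using this
  · intro hz d hd hl
    have := hz ⟨d, hd⟩ (by
      ext l
      simpa [L, real_inner_comm] using hl l)
    simpa using this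

lemma ae_gen (j : ℕ) : ∀ W : Submodule ℝ E, finrank ℝ W ≤ j →
    ∀ᵐ z ∂(Measure.pi fun _ : Fin j => stdGaussian E),
      ∀ d ∈ W, (∀ l, ⟪d, z l⟫ = 0) → d = 0 := by
  induction j with
  | zero =>
    intro W hW
    have : W = ⊥ := Submodule.finrank_eq_zero.1 (by omega)
    exact Filter.Eventually.of_forall fun z d hd _ => by simpa [this] using hd
  | succ j ih =>
    intro W hW
    by_cases hbot : W = ⊥
    · exact Filter.Eventually.of_forall fun z d hd _ => by simpa [hbot] using hd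
    obtain ⟨d₀, hd₀, hd₀'⟩ := Submodule.exists_mem_ne_zero_of_ne_bot hbot
    have hmp := (measurePreserving_piFinSuccAbove (fun _ : Fin (j + 1) => stdGaussian E) 0).symm
    have hms := (isOpen_gen (j + 1) W).measurableSet
    rw [← hmp.map_eq, ae_map_iff hmp.measurable.aemeasurable hms]
    refine (Measure.ae_prod_iff_ae_ae (hmp.measurable hms)).2 ?_
    filter_upwards [ae_inner_ne hd₀'] with z₀ hz₀
    have hlt : W ⊓ LinearMap.ker (innerₗ E z₀) < W := by
      refine lt_of_le_of_ne inf_le_left fun h => hz₀ ?_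
      have : d₀ ∈ W ⊓ LinearMap.ker (innerₗ E z₀) := by rw [h]; exact hd₀
      simpa [real_inner_comm] using this.2
    have hr := Submodule.finrank_lt_finrank_of_lt hlt
    filter_upwards [ih _ (by omega : finrank ℝ ↥(W ⊓ LinearMap.ker (innerₗ E z₀)) ≤ j)] with z hz
    intro d hd hl
    refine hz d ⟨hd, ?_⟩ fun l => ?_
    · have := hl 0
      simpa [real_inner_comm] using this
    · have := hl l.succ
      simpa using this

omit [MeasurableSpace E] [BorelSpace E] in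
lemma exists_flip {u : E} (hu : ‖u‖ = 1) (α β : Bool) :
    ∃ R : E ≃ₗᵢ[ℝ] E, (∀ z, ⟪u, R z⟫ = (if α then 1 else -1) * ⟪u, z⟫) ∧
      ∀ h z, ⟪u, h⟫ = 0 → ⟪h, R z⟫ = (if β then 1 else -1) * ⟪h, z⟫ := by
  have hR : ∀ z, (ℝ ∙ u).reflection z = (2 * ⟪u, z⟫) • u - z := by
    intro z
    rw [Submodule.reflection_singleton_apply, hu]
    simp [two_smul, two_mul, add_smul]
  have h1 : ∀ z, ⟪u, (ℝ ∙ u).reflection z⟫ = ⟪u, z⟫ := by
    intro z
    rw [hR, inner_sub_right, real_inner_smul_right, real_inner_self_eq_norm_sq, hu]; ring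
  have h2 : ∀ h z, ⟪u, h⟫ = 0 → ⟪h, (ℝ ∙ u).reflection z⟫ = -⟪h, z⟫ := by
    intro h z hh
    rw [hR, inner_sub_right, real_inner_smul_right, real_inner_comm u h, hh]; ring
  cases α <;> cases β
  · exact ⟨LinearIsometryEquiv.neg ℝ, by simp, by simp⟩
  · refine ⟨((ℝ ∙ u).reflection).trans (LinearIsometryEquiv.neg ℝ), fun z => ?_, fun h z hh => ?_⟩
    · simp [h1]
    · simp [h2 h z hh]
  · exact ⟨(ℝ ∙ u).reflection, fun z => by simp [h1], fun h z hh => by simp [h2 h z hh]⟩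
  · exact ⟨LinearIsometryEquiv.refl ℝ E, by simp, by simp⟩

lemma mp_iso (j : ℕ) (R : Fin j → E ≃ₗᵢ[ℝ] E) :
    MeasurePreserving (fun (z : Fin j → E) l => R l (z l))
      (Measure.pi fun _ : Fin j => stdGaussian E) (Measure.pi fun _ : Fin j => stdGaussian E) :=
  measurePreserving_pi _ _ fun l => ⟨(R l).continuous.measurable, stdGaussian_map (R l)⟩

end Pool.Agent.MP_d7dd47_co.H17

end

-- part MP_d7dd47_co.H17.Local
section

namespace Pool.Agent.MP_d7dd47_co.H17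

open Module
open scoped RealInnerProductSpace

variable {ι : Type*}

lemma aff_of_weights {V : Type*} [AddCommGroup V] [Module ℝ V] {π : ι → V} {T : Finset ι}
    (h : ∀ c : ι → ℝ, ∑ i ∈ T, c i = 0 → ∑ i ∈ T, c i • π i = 0 → ∀ i ∈ T, c i = 0) :
    AffineIndependent ℝ (fun i : T => π i) := by
  classical
  rw [affineIndependent_iff_of_fintype]
  intro w hw hv i
  rw [Finset.weightedVSub_eq_linear_combination _ hw] at hv
  have := h (fun i => if hi : i ∈ T then w ⟨i, hi⟩ else 0)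
    (by rw [← hw, ← Finset.sum_coe_sort T]; simp)
    (by rw [← hv, ← Finset.sum_coe_sort T]; simp) i i.2
  simpa using this

lemma weights_of_aff {V : Type*} [AddCommGroup V] [Module ℝ V] {T : Finset V}
    (h : AffineIndependent ℝ ((↑) : T → V)) (c : V → ℝ) (h0 : ∑ i ∈ T, c i = 0)
    (h1 : ∑ i ∈ T, c i • i = 0) : ∀ i ∈ T, c i = 0 := by
  intro i hi
  rw [affineIndependent_iff] at h
  exact h Finset.univ (fun i => c i) (by rw [← h0, Finset.sum_coe_sort T])
    (by rw [← h1, Finset.sum_coe_sort T (fun i => c i • i)]) ⟨i, hi⟩ (Finset.mem_univ _)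

lemma ConvIndep.subset {n : ℕ} {Y Y' : Set (EuclideanSpace ℝ (Fin n))} (h : ConvIndep Y)
    (hY : Y' ⊆ Y) : ConvIndep Y' := fun y hy hc =>
  h y (hY hy) (convexHull_mono (Set.sdiff_subset_sdiff_left hY) hc)

lemma Forces.mono {n N N' r r' : ℕ} (h : Forces n N r) (hN : N ≤ N') (hr : r' ≤ r) :
    Forces n N' r' := by
  intro X hX hc
  obtain ⟨Y, hY, hYc, hconv⟩ := h X hX (le_trans (by exact_mod_cast hN) hc)
  obtain ⟨Y', hY', hc'⟩ := Set.exists_subset_encard_eq (s := Y) (k := r')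
    (by rw [hYc]; exact_mod_cast hr)
  exact ⟨Y', hY'.trans hY, hc', ConvIndep.subset hconv hY'⟩

lemma exists_sep {j : ℕ} {Y : Set (EuclideanSpace ℝ (Fin j))} (hf : Y.Finite) (h : ConvIndep Y)
    {y} (hy : y ∈ Y) :
    ∃ a : Fin j → ℝ, ∀ y' ∈ Y, y' ≠ y → ∑ l, a l * y l < ∑ l, a l * y' l := by
  have hfin : (Y \ {y}).Finite := hf.sdiff
  obtain ⟨f, u, h1, h2⟩ := geometric_hahn_banach_point_closed (convex_convexHull ℝ (Y \ {y}))
    (hfin.isCompact_convexHull ℝ).isClosed (h y hy)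
  have hf : ∀ x : EuclideanSpace ℝ (Fin j),
      f x = ∑ l, f (EuclideanSpace.single l 1) * x l := by
    intro x
    conv_lhs => rw [← (EuclideanSpace.basisFun (Fin j) ℝ).sum_repr x]
    rw [map_sum]
    refine Finset.sum_congr rfl fun l _ => ?_
    simp [mul_comm]
  refine ⟨fun l => f (EuclideanSpace.single l 1), fun y' hy' hne => ?_⟩
  rw [← hf, ← hf]
  exact h1.trans (h2 y' (subset_convexHull ℝ _ ⟨hy', hne⟩))

/-- sign attached to a Boolean -/
def sg (b : Bool) : ℝ := if b then 1 else -1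

lemma local_sel {j s k : ℕ} (hj : 1 ≤ j) (hES : Forces j s (2 ^ j * k))
    (π : ι → EuclideanSpace ℝ (Fin j)) (Q : Finset ι) (hs : s ≤ Q.card)
    (hπ : ∀ T ⊆ Q, T.card ≤ j + 1 → ∀ c : ι → ℝ, ∑ i ∈ T, c i = 0 → ∑ i ∈ T, c i • π i = 0 →
      ∀ i ∈ T, c i = 0) :
    ∃ β : Fin j → Bool, ∃ Y ⊆ Q, k ≤ Y.card ∧ ∀ v ∈ Y, ∃ a : Fin j → ℝ, (∀ l, 0 ≤ a l) ∧
      ∑ l, a l = 1 ∧ ∀ w ∈ Y, w ≠ v →
        ∑ l, a l * (sg (β l) * π v l) < ∑ l, a l * (sg (β l) * π w l) := by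
  classical
  have hinj : Set.InjOn π Q := by
    intro a ha b hb hab
    by_contra hne
    have := hπ {a, b} (by
      intro x hx
      rcases Finset.mem_insert.1 hx with rfl | hx
      · exact ha
      · rw [Finset.mem_singleton.1 hx]; exact hb)
      (Finset.card_le_two.trans (by omega)) (fun x => if x = a then 1 else -1)
      (by rw [Finset.sum_pair hne]; simp [Ne.symm hne])
      (by rw [Finset.sum_pair hne]; simp [Ne.symm hne, hab]) a (by simp)
    simp at this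
  have hGP : GP (Q.image π) := by
    intro T hT hc
    let T' := Q.filter fun i => π i ∈ T
    have hT' : T'.image π = T := by
      ext x
      simp only [T', Finset.mem_image, Finset.mem_filter]
      constructor
      · rintro ⟨i, ⟨_, h⟩, rfl⟩; exact h
      · intro hx
        obtain ⟨i, hi, rfl⟩ := Finset.mem_image.1 (hT hx)
        exact ⟨i, ⟨hi, hx⟩, rfl⟩
    have hsub : T' ⊆ Q := Finset.filter_subset _ _
    have hcard : T'.card = T.card := by
      rw [← hT', Finset.card_image_of_injOn (hinj.mono hsub)]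
    have h1 := (aff_of_weights (hπ T' hsub (hcard ▸ hc))).range
    have h2 : Set.range (fun i : T' => π i) = (T : Set _) := by
      rw [← hT']
      ext x
      simp
    rw [h2] at h1
    exact h1
  obtain ⟨Y, hY, hYc, hconv⟩ := hES _ (genPos_of_gp hGP) (by
    rw [Set.encard_coe_eq_coe_finsetCard, Finset.card_image_of_injOn hinj]
    exact_mod_cast hs)
  have hYf : Y.Finite := Set.finite_of_encard_eq_coe hYc
  let Y₀ := Q.filter fun i => π i ∈ Y
  have hsub : Y₀ ⊆ Q := Finset.filter_subset _ _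
  have hY₀ : Y₀.card = 2 ^ j * k := by
    have h1 : ((Y₀.image π : Finset _) : Set _) = Y := by
      ext x
      simp only [Y₀, Finset.coe_image, Finset.coe_filter, Set.mem_image, Set.mem_ofPred_eq]
      constructor
      · rintro ⟨i, ⟨_, h⟩, rfl⟩; exact h
      · intro hx
        obtain ⟨i, hi, rfl⟩ := Finset.mem_image.1 (Finset.mem_coe.1 (hY hx))
        exact ⟨i, ⟨hi, hx⟩, rfl⟩
    rw [← h1, Set.encard_coe_eq_coe_finsetCard, Finset.card_image_of_injOn (hinj.mono hsub)] at hYc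
    exact_mod_cast hYc
  have hsep : ∀ v ∈ Y₀, ∃ a : Fin j → ℝ, (∃ l, a l ≠ 0) ∧
      ∀ w ∈ Y₀, w ≠ v → ∑ l, a l * π v l < ∑ l, a l * π w l := by
    intro v hv
    obtain ⟨a, ha⟩ := exists_sep hYf hconv (Finset.mem_filter.1 hv).2
    have ha' : ∀ w ∈ Y₀, w ≠ v → ∑ l, a l * π v l < ∑ l, a l * π w l := fun w hw hne =>
      ha _ (Finset.mem_filter.1 hw).2 fun h => hne (hinj (hsub hw) (hsub hv) h)
    by_cases h0 : ∃ l, a l ≠ 0
    · exact ⟨a, h0, ha'⟩
    · push Not at h0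
      refine ⟨fun _ => 1, ⟨⟨0, hj⟩, one_ne_zero⟩, fun w hw hne => ?_⟩
      have := ha' w hw hne
      simp [h0] at this
  choose! a ha0 ha using hsep
  obtain ⟨β, -, hβ⟩ := Finset.exists_le_card_fiber_of_mul_le_card_of_maps_to
    (s := Y₀) (t := (Finset.univ : Finset (Fin j → Bool)))
    (f := fun v l => decide (0 ≤ a v l)) (n := k) (fun _ _ => Finset.mem_univ _)
    Finset.univ_nonempty (by simp [hY₀])
  refine ⟨β, _, (Finset.filter_subset _ _).trans hsub, hβ, fun v hv => ?_⟩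
  obtain ⟨hv0, hvβ⟩ := Finset.mem_filter.1 hv
  have habs : ∀ l, |a v l| * sg (β l) = a v l := by
    intro l
    rw [← hvβ]
    by_cases h : 0 ≤ a v l
    · simp [sg, h, abs_of_nonneg h]
    · simp [sg, h, abs_of_neg (not_le.1 h)]
  have hpos : 0 < ∑ l, |a v l| := by
    obtain ⟨l, hl⟩ := ha0 v hv0
    exact Finset.sum_pos' (fun _ _ => abs_nonneg _) ⟨l, Finset.mem_univ _, abs_pos.2 hl⟩
  refine ⟨fun l => |a v l| / ∑ l, |a v l|, fun l => by positivity, ?_, fun w hw hne => ?_⟩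
  · rw [← Finset.sum_div, div_self hpos.ne']
  · have h := ha v hv0 w (Finset.mem_filter.1 hw).1 hne
    have e : ∀ x : EuclideanSpace ℝ (Fin j),
        ∑ l, |a v l| / (∑ l, |a v l|) * (sg (β l) * x l) = (∑ l, a v l * x l) / ∑ l, |a v l| := by
      intro x
      rw [Finset.sum_div]
      refine Finset.sum_congr rfl fun l _ => ?_
      rw [div_mul_eq_mul_div, ← mul_assoc, habs]
    rw [e, e]
    exact div_lt_div_of_pos_right h hpos

end Pool.Agent.MP_d7dd47_co.H17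

end

-- part MP_d7dd47_co.H17.Cluster
section

namespace Pool.Agent.MP_d7dd47_co.H17

open Module MeasureTheory ProbabilityTheory
open Pool.Agent.MP_026d7f_an.H77
open scoped RealInnerProductSpace

variable {ι : Type*}
variable {E : Type*} [NormedAddCommGroup E] [InnerProductSpace ℝ E] [FiniteDimensional ℝ E]
  [MeasurableSpace E] [BorelSpace E]

/-- the good event of a cluster with centre `u` and offsets `h` -/
def Good (j k : ℕ) (u : E) (h : ι → E) (Q : Finset ι) : Set (Fin j → E) :=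
  {z | (∀ l, ⟪u, z l⟫ ∈ Set.Icc (1 : ℝ) 2) ∧ ∃ Y ⊆ Q, k ≤ Y.card ∧
    (∀ w ∈ Y, ∀ l, |⟪h w, z l⟫| ≤ 1 / 2) ∧ ∀ v ∈ Y, ∃ a : Fin j → ℝ, (∀ l, 0 ≤ a l) ∧
      ∑ l, a l = 1 ∧ ∀ w ∈ Y, w ≠ v → ∑ l, a l * ⟪h v, z l⟫ < ∑ l, a l * ⟪h w, z l⟫}

omit [FiniteDimensional ℝ E] [MeasurableSpace E] [BorelSpace E] in
lemma isOpen_sel (j : ℕ) (h : ι → E) (Y : Finset ι) :
    IsOpen {z : Fin j → E | ∀ v ∈ Y, ∃ a : Fin j → ℝ, (∀ l, 0 ≤ a l) ∧
      ∑ l, a l = 1 ∧ ∀ w ∈ Y, w ≠ v → ∑ l, a l * ⟪h v, z l⟫ < ∑ l, a l * ⟪h w, z l⟫} := by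
  have e : {z : Fin j → E | ∀ v ∈ Y, ∃ a : Fin j → ℝ, (∀ l, 0 ≤ a l) ∧
      ∑ l, a l = 1 ∧ ∀ w ∈ Y, w ≠ v → ∑ l, a l * ⟪h v, z l⟫ < ∑ l, a l * ⟪h w, z l⟫} =
      ⋂ v ∈ Y, ⋃ a : Fin j → ℝ, ⋃ _ : (∀ l, 0 ≤ a l) ∧ ∑ l, a l = 1, ⋂ w ∈ Y, ⋂ _ : w ≠ v,
        {z : Fin j → E | ∑ l, a l * ⟪h v, z l⟫ < ∑ l, a l * ⟪h w, z l⟫} := by
    ext z
    simp [and_assoc]
  rw [e]
  refine isOpen_biInter_finset fun v _ => isOpen_iUnion fun a => isOpen_iUnion fun _ =>
    isOpen_biInter_finset fun w _ => isOpen_iInter_of_finite fun _ => ?_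
  exact isOpen_lt (by fun_prop) (by fun_prop)

lemma measurableSet_good (j k : ℕ) (u : E) (h : ι → E) (Q : Finset ι) :
    MeasurableSet (Good j k u h Q) := by
  have e : Good j k u h Q = (⋂ l, {z : Fin j → E | ⟪u, z l⟫ ∈ Set.Icc (1 : ℝ) 2}) ∩
      ⋃ Y ∈ Q.powerset, ⋃ _ : k ≤ Y.card,
        (⋂ w ∈ Y, ⋂ l, {z : Fin j → E | |⟪h w, z l⟫| ≤ 1 / 2}) ∩
        {z : Fin j → E | ∀ v ∈ Y, ∃ a : Fin j → ℝ, (∀ l, 0 ≤ a l) ∧
      ∑ l, a l = 1 ∧ ∀ w ∈ Y, w ≠ v → ∑ l, a l * ⟪h v, z l⟫ < ∑ l, a l * ⟪h w, z l⟫} := by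
    ext z
    simp only [Good, Set.mem_ofPred_eq, Set.mem_inter_iff, Set.mem_iInter, Set.mem_iUnion,
      Finset.mem_powerset, exists_prop]
  rw [e]
  refine MeasurableSet.inter (MeasurableSet.iInter fun l =>
    measurableSet_Icc.preimage (by fun_prop)) ?_
  refine Finset.measurableSet_biUnion _ fun Y _ => MeasurableSet.iUnion fun _ =>
    MeasurableSet.inter ?_ (isOpen_sel j h Y).measurableSet
  refine Finset.measurableSet_biInter _ fun w _ => MeasurableSet.iInter fun l => ?_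
  exact measurableSet_le (by fun_prop) (by fun_prop)

lemma bad_prob (j : ℕ) (d : E) {δ : ℝ} (hδ : 0 < δ) (hd : ‖d‖ ≤ δ) :
    (Measure.pi fun _ : Fin j => stdGaussian E).real {z | ∃ l, 1 / 2 < |⟪d, z l⟫|} ≤
      j * (2 * δ) := by
  have e : {z : Fin j → E | ∃ l, 1 / 2 < |⟪d, z l⟫|} =
      ⋃ l, (fun z : Fin j → E => z l) ⁻¹' {g | 1 / 2 < |⟪d, g⟫|} := by
    ext z; simp
  rw [e]
  refine (measureReal_iUnion_fintype_le _).trans ?_
  have hb : ∀ l ∈ (Finset.univ : Finset (Fin j)),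
      (Measure.pi fun _ : Fin j => stdGaussian E).real
        ((fun z : Fin j → E => z l) ⁻¹' {g | 1 / 2 < |⟪d, g⟫|}) ≤ 2 * δ := by
    intro l _
    rw [(measurePreserving_eval (fun _ : Fin j => stdGaussian E) l).measureReal_preimage
      (measurableSet_lt (by fun_prop) (by fun_prop)).nullMeasurableSet]
    have h := tail_abs_inner d (s := 1 / (2 * δ)) (c := 1 / 2) (by positivity) (by
      rw [mul_one_div, div_le_iff₀ (by positivity)]; linarith)
    refine h.trans ?_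
    rw [div_le_iff₀ (by positivity), mul_one_div_cancel (by positivity), Real.exp_le_one_iff]
    have := sq_nonneg (1 / (2 * δ))
    linarith
  have := Finset.sum_le_card_nsmul _ _ _ hb
  simpa using this

lemma slab_prob (j : ℕ) {u : E} (hu : ‖u‖ = 1) :
    (Measure.pi fun _ : Fin j => stdGaussian E).real {z | ∀ l, ⟪u, z l⟫ ∈ Set.Icc (1 : ℝ) 2} =
      g1.real (Set.Icc 1 2) ^ j := by
  have e : {z : Fin j → E | ∀ l, ⟪u, z l⟫ ∈ Set.Icc (1 : ℝ) 2} =
      Set.pi Set.univ fun _ => {g | ⟪u, g⟫ ∈ Set.Icc (1 : ℝ) 2} := by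
    ext z; simp
  rw [e, measureReal_def, Measure.pi_pi, ← real_inner_mem hu measurableSet_Icc]
  simp [measureReal_def]

lemma ae_generic (j : ℕ) {u : E} (hu : ‖u‖ = 1) (h : ι → E) (Q : Finset ι)
    (hLI : LI (fun w => u + h w) Q (j + 1)) (hh : ∀ w ∈ Q, ⟪u, h w⟫ = 0) :
    ∀ᵐ z ∂(Measure.pi fun _ : Fin j => stdGaussian E), ∀ T ∈ Q.powerset, T.card ≤ j + 1 →
      ∀ c : ι → ℝ, ∑ i ∈ T, c i = 0 → (∀ l, ∑ i ∈ T, c i * ⟪h i, z l⟫ = 0) → ∀ i ∈ T, c i = 0 := by
  classical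
  rw [Filter.eventually_all_finset]
  intro T hT
  have hTQ := Finset.mem_powerset.1 hT
  by_cases hc : T.card ≤ j + 1
  swap
  · exact Filter.Eventually.of_forall fun z h => absurd h hc
  rcases T.eq_empty_or_nonempty with rfl | ⟨i₀, hi₀⟩
  · exact Filter.Eventually.of_forall fun z _ c _ _ i hi => absurd hi (by simp)
  let W : Submodule ℝ E := Submodule.span ℝ (((T.erase i₀).image fun i => h i - h i₀ : Finset E) : Set E)
  have hW : finrank ℝ W ≤ j := by
    refine (finrank_span_finset_le_card _).trans (Finset.card_image_le.trans ?_)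
    rw [Finset.card_erase_of_mem hi₀]; omega
  filter_upwards [ae_gen j W hW] with z hz _ c hc0 hl
  have e : ∑ i ∈ T, c i • h i = ∑ i ∈ T.erase i₀, c i • (h i - h i₀) := by
    rw [Finset.sum_erase _ (by simp)]
    simp only [smul_sub, Finset.sum_sub_distrib, ← Finset.sum_smul, hc0, zero_smul, sub_zero]
  have hmem : ∑ i ∈ T, c i • h i ∈ W := by
    rw [e]
    refine Submodule.sum_mem _ fun i hi => Submodule.smul_mem _ _ (Submodule.subset_span ?_)
    exact Finset.mem_coe.2 (Finset.mem_image_of_mem _ hi)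
  have h0 := hz _ hmem fun l => by
    rw [sum_inner, ← hl l]
    exact Finset.sum_congr rfl fun i _ => by rw [real_inner_smul_left]
  refine hLI T hTQ hc c ?_
  simp only [smul_add, Finset.sum_add_distrib, ← Finset.sum_smul, hc0, zero_smul, zero_add, h0]

theorem good_prob {j s k : ℕ} (hj : 1 ≤ j) (hES : Forces j s (2 ^ j * k)) {u : E} (hu : ‖u‖ = 1)
    (h : ι → E) (Q : Finset ι) (hQ : Q.Nonempty) (hs : 2 * s ≤ Q.card)
    (hLI : LI (fun w => u + h w) Q (j + 1)) (hh : ∀ w ∈ Q, ⟪u, h w⟫ = 0) {δ : ℝ} (hδ : 0 < δ)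
    (hn : ∀ w ∈ Q, ‖h w‖ ≤ δ) (hδp : 8 * j * δ ≤ g1.real (Set.Icc 1 2) ^ j) :
    g1.real (Set.Icc 1 2) ^ j / 2 / 2 ^ j ≤
      (Measure.pi fun _ : Fin j => stdGaussian E).real (Good j k u h Q) := by
  classical
  set μ := Measure.pi fun _ : Fin j => stdGaussian E with hμ
  choose R hR1 hR2 using fun β : Bool => exists_flip hu true β
  let Φ : (Fin j → Bool) → (Fin j → E) → (Fin j → E) := fun β z l => R (β l) (z l)
  have hΦ : ∀ β, μ.real (Φ β ⁻¹' Good j k u h Q) = μ.real (Good j k u h Q) := fun β =>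
    (mp_iso j fun l => R (β l)).measureReal_preimage
      (measurableSet_good j k u h Q).nullMeasurableSet
  have hU : μ.real (⋃ β, Φ β ⁻¹' Good j k u h Q) ≤ 2 ^ j * μ.real (Good j k u h Q) := by
    refine (measureReal_iUnion_fintype_le _).trans (le_of_eq ?_)
    simp [hΦ]
  have hbad := half_bad μ Q hQ (fun w => {z | ∃ l, 1 / 2 < |⟪h w, z l⟫|})
    (fun w _ => by
      have : {z : Fin j → E | ∃ l, 1 / 2 < |⟪h w, z l⟫|} =
          ⋃ l, {z : Fin j → E | 1 / 2 < |⟪h w, z l⟫|} := by ext z; simp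
      rw [this]
      exact MeasurableSet.iUnion fun l => measurableSet_lt (by fun_prop) (by fun_prop))
    (j * (2 * δ)) (fun w hw => bad_prob j (h w) hδ (hn w hw))
  have hsub : ∀ᵐ z ∂μ, z ∈ {z : Fin j → E | ∀ l, ⟪u, z l⟫ ∈ Set.Icc (1 : ℝ) 2} →
      z ∈ (⋃ β, Φ β ⁻¹' Good j k u h Q) ∪ {z | ¬ ∃ S ⊆ Q, Q.card ≤ 2 * S.card ∧
        ∀ w ∈ S, z ∉ {z : Fin j → E | ∃ l, 1 / 2 < |⟪h w, z l⟫|}} := by
    filter_upwards [ae_generic j hu h Q hLI hh] with z hz hslab
    by_cases hS : ∃ S ⊆ Q, Q.card ≤ 2 * S.card ∧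
        ∀ w ∈ S, z ∉ {z : Fin j → E | ∃ l, 1 / 2 < |⟪h w, z l⟫|}
    swap
    · exact Or.inr hS
    left
    obtain ⟨S, hSQ, hSc, hSg⟩ := hS
    obtain ⟨β, Y, hYS, hYk, hY⟩ := local_sel hj hES
      (fun w => (WithLp.toLp 2 fun l => ⟪h w, z l⟫ : EuclideanSpace ℝ (Fin j))) S (by omega)
      (fun T hT hc c hc0 hc1 => hz T (Finset.mem_powerset.2 (hT.trans hSQ)) hc c hc0 fun l => by
        have := congrArg (fun x : EuclideanSpace ℝ (Fin j) => x l) hc1
        simpa using this)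
    refine Set.mem_iUnion.2 ⟨β, fun l => ?_, Y, hYS.trans hSQ, hYk, fun w hw l => ?_,
      fun v hv => ?_⟩
    · simpa [Φ, hR1] using hslab l
    · have h1 := hSg w (hYS hw)
      simp only [Set.mem_ofPred_eq, not_exists, not_lt] at h1
      have h2 := h1 l
      simp only [Φ]
      rw [hR2 _ _ _ (hh w (hSQ (hYS hw)))]
      split_ifs <;> simpa using h2
    · obtain ⟨a, ha0, ha1, ha⟩ := hY v hv
      refine ⟨a, ha0, ha1, fun w hw hne => ?_⟩
      have := ha w hw hne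
      simp only [Φ]
      simp only [hR2 _ _ _ (hh w (hSQ (hYS hw))), hR2 _ _ _ (hh v (hSQ (hYS hv)))]
      simpa [sg] using this
  have h1 : μ.real {z : Fin j → E | ∀ l, ⟪u, z l⟫ ∈ Set.Icc (1 : ℝ) 2} ≤
      μ.real ((⋃ β, Φ β ⁻¹' Good j k u h Q) ∪ {z | ¬ ∃ S ⊆ Q, Q.card ≤ 2 * S.card ∧
        ∀ w ∈ S, z ∉ {z : Fin j → E | ∃ l, 1 / 2 < |⟪h w, z l⟫|}}) :=
    ENNReal.toReal_mono (measure_ne_top _ _) (measure_mono_ae hsub)
  rw [slab_prob j hu] at h1
  have h2 := h1.trans (measureReal_union_le _ _)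
  rw [div_le_iff₀ (by positivity)]
  nlinarith

end Pool.Agent.MP_d7dd47_co.H17

end

-- part MP_d7dd47_co.H17.Core
section

namespace Pool.Agent.MP_d7dd47_co.H17

open Module MeasureTheory ProbabilityTheory
open Pool.Agent.MP_026d7f_an.H77
open scoped RealInnerProductSpace

variable {ι : Type*}

lemma exists_net (X : Finset ι) (R : ι → ι → Prop) (hs : ∀ a b, R a b → R b a)
    (hr : ∀ a ∈ X, R a a) :
    ∃ T ⊆ X, (∀ a ∈ T, ∀ b ∈ T, a ≠ b → ¬ R a b) ∧ ∀ i ∈ X, ∃ t ∈ T, R t i := by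
  classical
  let P : Finset ι → Prop := fun T => ∀ a ∈ T, ∀ b ∈ T, a ≠ b → ¬ R a b
  obtain ⟨T, hT, hmax⟩ := Finset.exists_max_image
    (X.powerset.filter P) Finset.card ⟨∅, by simp [P]⟩
  obtain ⟨hTX, hTR⟩ := Finset.mem_filter.1 hT
  have hTX := Finset.mem_powerset.1 hTX
  refine ⟨T, hTX, hTR, fun i hi => ?_⟩
  by_contra hcon
  push Not at hcon
  have hiT : i ∉ T := fun h => hcon i h (hr i hi)
  have := hmax (insert i T) (Finset.mem_filter.2 ⟨Finset.mem_powerset.2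
    (Finset.insert_subset hi hTX), fun a ha b hb hab => by
      rcases Finset.mem_insert.1 ha with rfl | ha'
      · rcases Finset.mem_insert.1 hb with rfl | hb'
        · exact absurd rfl hab
        · exact fun h => hcon b hb' (hs _ _ h)
      · rcases Finset.mem_insert.1 hb with rfl | hb'
        · exact hcon a ha'
        · exact hTR a ha' b hb' hab⟩)
  rw [Finset.card_insert_of_notMem hiT] at this
  omega

variable {E : Type*} [NormedAddCommGroup E] [InnerProductSpace ℝ E]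

lemma offset {u x : E} (hu : ‖u‖ = 1) (hx : ‖x‖ = 1) {δ : ℝ} (hδ : 0 < δ) (hδ1 : δ ≤ 1 / 50)
    (h : 1 - δ ^ 2 / 4 < ⟪u, x⟫) :
    3 / 4 ≤ ⟪u, x⟫ ∧ ⟪u, (⟪u, x⟫)⁻¹ • x - u⟫ = 0 ∧ ‖(⟪u, x⟫)⁻¹ • x - u‖ ≤ δ := by
  have h34 : 3 / 4 ≤ ⟪u, x⟫ := by nlinarith
  have hp : 0 < ⟪u, x⟫ := by linarith
  refine ⟨h34, ?_, ?_⟩
  · rw [inner_sub_right, real_inner_smul_right, inv_mul_cancel₀ hp.ne', real_inner_self_eq_norm_sq,
      hu]; norm_num
  · apply le_of_sq_le_sq' hδ.le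
    rw [norm_sub_sq_real, norm_smul, hx, hu, real_inner_smul_left, real_inner_comm u x,
      inv_mul_cancel₀ hp.ne', mul_one, Real.norm_eq_abs, sq_abs, inv_pow]
    have h1 : (⟪u, x⟫ ^ 2)⁻¹ ≤ 1 + δ ^ 2 := by
      rw [inv_le_iff_one_le_mul₀ (by positivity)]
      have h2 : (1 - δ ^ 2 / 4) ^ 2 ≤ ⟪u, x⟫ ^ 2 := pow_le_pow_left₀ (by nlinarith) h.le 2
      have h3 : δ ^ 2 ≤ 1 / 2500 := by nlinarith
      have h4 : 0 ≤ δ ^ 2 := sq_nonneg δ
      have h5 : 1 ≤ (1 + δ ^ 2) * (1 - δ ^ 2 / 4) ^ 2 := by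
        have h6 : 1 - δ ^ 2 / 2 ≤ (1 - δ ^ 2 / 4) ^ 2 := by nlinarith [sq_nonneg (δ ^ 2)]
        have h7 : 1 ≤ (1 + δ ^ 2) * (1 - δ ^ 2 / 2) := by nlinarith
        nlinarith
      nlinarith
    linarith
where
  le_of_sq_le_sq' {a b : ℝ} (hb : 0 ≤ b) (h : a ^ 2 ≤ b ^ 2) : a ≤ b := by
    exact le_trans (le_abs_self a) (abs_le_of_sq_le_sq' h hb |> fun h => abs_le.2 h)

lemma avg_bounds {j : ℕ} (a g : Fin j → ℝ) (ha0 : ∀ l, 0 ≤ a l) (ha1 : ∑ l, a l = 1) {x y : ℝ}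
    (hg : ∀ l, x ≤ g l ∧ g l ≤ y) : x ≤ ∑ l, a l * g l ∧ ∑ l, a l * g l ≤ y := by
  constructor
  · calc x = ∑ l, a l * x := by rw [← Finset.sum_mul, ha1, one_mul]
      _ ≤ _ := Finset.sum_le_sum fun l _ => mul_le_mul_of_nonneg_left (hg l).1 (ha0 l)
  · calc _ ≤ ∑ l, a l * y := Finset.sum_le_sum fun l _ => mul_le_mul_of_nonneg_left (hg l).2 (ha0 l)
      _ = y := by rw [← Finset.sum_mul, ha1, one_mul]

/-- gluing the good clusters -/
lemma glue {j k : ℕ} (u : ι → E) (h : ι → E) (c : ι → ι) (X T : Finset ι) [DecidableEq ι]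
    (hu : ∀ t ∈ T, ‖u t‖ = 1) (hT : ∀ a ∈ T, ∀ b ∈ T, a ≠ b → ⟪u a, u b⟫ ≤ 1 / 10)
    (hh : ∀ w ∈ X, ⟪u (c w), h w⟫ = 0) (hn : ∀ w ∈ X, ‖h w‖ ≤ 1 / 50) (z : Fin j → E)
    (hz : ∀ t ∈ T, z ∈ Good j k (u t) h (X.filter fun w => c w = t)) :
    ∃ S ⊆ X, k * T.card ≤ S.card ∧ Cvx (fun w => u (c w) + h w) S := by
  choose! Y hYQ hYk hYb hY using fun t ht => (hz t ht).2
  have hYc : ∀ t ∈ T, ∀ w ∈ Y t, c w = t := fun t ht w hw => (Finset.mem_filter.1 (hYQ t ht hw)).2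
  have hYX : ∀ t ∈ T, ∀ w ∈ Y t, w ∈ X := fun t ht w hw => (Finset.mem_filter.1 (hYQ t ht hw)).1
  refine ⟨T.biUnion Y, Finset.biUnion_subset.2 fun t ht w hw => hYX t ht w hw, ?_, ?_⟩
  · rw [Finset.card_biUnion]
    · have := Finset.card_nsmul_le_sum T (fun t => (Y t).card) k hYk
      rwa [smul_eq_mul, mul_comm] at this
    · intro a ha b hb hab
      refine Finset.disjoint_left.2 fun w hwa hwb => hab ?_
      rw [← hYc a ha w hwa, hYc b hb w hwb]
  · intro v hv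
    obtain ⟨t, ht, hv⟩ := Finset.mem_biUnion.1 hv
    obtain ⟨a, ha0, ha1, ha⟩ := hY t ht v hv
    let ζ : E := ∑ l, a l • z l
    have hζ : ∀ x, ⟪ζ, x⟫ = ∑ l, a l * ⟪x, z l⟫ := by
      intro x
      simp only [ζ, sum_inner, real_inner_smul_left]
      exact Finset.sum_congr rfl fun l _ => by rw [real_inner_comm]
    have hζu : ∀ t ∈ T, 1 ≤ ⟪ζ, u t⟫ ∧ ⟪ζ, u t⟫ ≤ 2 := fun t ht => by
      rw [hζ]; exact avg_bounds a _ ha0 ha1 fun l => (hz t ht).1 l
    have hζh : ∀ t ∈ T, ∀ w ∈ Y t, -(1 / 2) ≤ ⟪ζ, h w⟫ ∧ ⟪ζ, h w⟫ ≤ 1 / 2 := fun t ht w hw => by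
      rw [hζ]; exact avg_bounds a _ ha0 ha1 fun l => abs_le.1 (hYb t ht w hw l)
    have hut : ⟪u t, u t⟫ = (1 : ℝ) := by rw [real_inner_self_eq_norm_sq, hu t ht]; norm_num
    have hf : ∀ w ∈ Y t, innerₗ E (ζ - (⟪ζ, u t⟫ + ⟪ζ, h v⟫) • u t) (u (c w) + h w) =
        ⟪ζ, h w⟫ - ⟪ζ, h v⟫ := by
      intro w hw
      have h1 := hh w (hYX t ht w hw)
      rw [hYc t ht w hw] at h1 ⊢
      simp only [innerₗ_apply_apply, inner_sub_left, inner_add_right, real_inner_smul_left, hut, h1]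
      ring
    refine ⟨innerₗ E (ζ - (⟪ζ, u t⟫ + ⟪ζ, h v⟫) • u t), ?_, fun w hw hne => ?_⟩
    · rw [hf v hv]; simp
    · obtain ⟨t', ht', hw⟩ := Finset.mem_biUnion.1 hw
      by_cases htt : t' = t
      · subst htt
        rw [hf w hw, hζ, hζ]
        exact sub_pos.2 (ha w hw hne)
      · simp only [hYc t' ht' w hw]
        simp only [innerₗ_apply_apply, inner_sub_left, inner_add_right, real_inner_smul_left]
        have h1 := hT t ht t' ht' (Ne.symm htt)
        have h2 : ⟪u t, h w⟫ ≤ 1 / 50 := by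
          have := real_inner_le_norm (u t) (h w)
          rw [hu t ht, one_mul] at this
          exact this.trans (hn w (hYX t' ht' w hw))
        obtain ⟨h3, h4⟩ := hζu t ht
        obtain ⟨h5, h6⟩ := hζu t' ht'
        obtain ⟨h7, h8⟩ := hζh t ht v hv
        obtain ⟨h9, h10⟩ := hζh t' ht' w hw
        nlinarith

variable [FiniteDimensional ℝ E] [MeasurableSpace E] [BorelSpace E]

theorem core {j s k m L D : ℕ} (hj : 1 ≤ j) (hjD : j + 1 ≤ D) (hk : 1 ≤ k) (hs : 1 ≤ s)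
    (hES : Forces j s (2 ^ j * (m * k))) {δ : ℝ} (hδ : 0 < δ) (hδ1 : δ ≤ 1 / 50)
    (hδp : 8 * j * δ ≤ g1.real (Set.Icc 1 2) ^ j)
    (hL : 1 ≤ L * g1.real (Set.Icc 1 (1 + δ ^ 2 / 4)))
    (hm : 3200 ≤ m * (g1.real (Set.Icc 1 2) ^ j / 2 / 2 ^ j))
    (u : ι → E) (X : Finset ι) (hX : X.card = 4 * L * k * s * D) (hu : ∀ i ∈ X, ‖u i‖ = 1)
    (hLI : LI u X D)
    (hcap : ∀ e : E, ‖e‖ = 1 → ∀ Z ⊆ X, (∀ i ∈ Z, 1 / 20 ≤ ⟪e, u i⟫) →
      Z.card ≤ 1600 * (4 * L * k * s)) :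
    ∃ S ⊆ X, k * D ≤ S.card ∧ Cvx u S := by
  classical
  have hδ2 : 0 < δ ^ 2 / 4 := by positivity
  have hL1 : 1 ≤ L := by
    rcases Nat.eq_zero_or_pos L with rfl | h
    · norm_num at hL
    · exact h
  obtain ⟨T, hTX, hT, hnet⟩ := exists_net X (fun a b => 1 - δ ^ 2 / 4 < ⟪u a, u b⟫)
    (fun a b h => by rwa [real_inner_comm])
    (fun a ha => by rw [real_inner_self_eq_norm_sq, hu a ha]; linarith)
  by_cases hTc : L * k * D ≤ T.card
  · obtain ⟨S, hST, hSc, hS⟩ := spread u T (δ ^ 2 / 4) hδ2 (by nlinarith)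
      (fun i hi => hu i (hTX hi)) (fun a ha b hb hab => not_lt.1 (hT a ha b hb hab))
    refine ⟨S, hST.trans hTX, ?_, hS⟩
    have h1 : (L : ℝ) * k * D ≤ T.card := by exact_mod_cast hTc
    have h2 : 0 ≤ g1.real (Set.Icc 1 (1 + δ ^ 2 / 4)) := measureReal_nonneg
    have h3 : (k : ℝ) * D ≤ S.card := by
      have h4 : (0 : ℝ) ≤ (k : ℝ) * D := by positivity
      nlinarith
    exact_mod_cast h3
  push Not at hTc
  choose! c hcT hc using hnet
  have hoff := fun w (hw : w ∈ X) => offset (hu _ (hTX (hcT w hw))) (hu w hw) hδ hδ1 (hc w hw)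
  set h : ι → E := fun w => (⟪u (c w), u w⟫)⁻¹ • u w - u (c w) with hhdef
  have hx : ∀ w, u (c w) + h w = (⟪u (c w), u w⟫)⁻¹ • u w := fun w => by simp [h]
  let Q : ι → Finset ι := fun t => X.filter fun w => c w = t
  let B := T.filter fun t => 2 * s ≤ (Q t).card
  have hBT : B ⊆ T := Finset.filter_subset _ _
  obtain ⟨T', hT'B, hT', hnet'⟩ := exists_net B (fun a b => 1 / 10 < ⟪u a, u b⟫)
    (fun a b h => by rwa [real_inner_comm])
    (fun a ha => by rw [real_inner_self_eq_norm_sq, hu a (hTX (hBT ha))]; norm_num)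
  have hT'X : T' ⊆ X := (hT'B.trans hBT).trans hTX
  -- many nearly orthogonal big clusters
  have hcount : D ≤ 3200 * T'.card := by
    let XB := X.filter fun w => c w ∈ B
    let XS := X.filter fun w => c w ∉ B
    have h1 : XB.card + XS.card = X.card := Finset.card_filter_add_card_filter_not _
    have h2 : XS.card ≤ (2 * s) * T.card := by
      refine Finset.card_le_mul_card_image_of_maps_to (f := c) (t := T)
        (fun w hw => hcT w (Finset.mem_filter.1 hw).1) (2 * s) fun t ht => ?_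
      by_cases htB : t ∈ B
      · rw [Finset.card_eq_zero.2]
        · exact Nat.zero_le _
        · rw [Finset.filter_eq_empty_iff]
          intro w hw hwt
          exact (Finset.mem_filter.1 hw).2 (hwt ▸ htB)
      · have : ¬ 2 * s ≤ (Q t).card := fun h => htB (Finset.mem_filter.2 ⟨ht, h⟩)
        refine le_trans (Finset.card_le_card ?_) (not_le.1 this).le
        exact Finset.filter_subset_filter _ (Finset.filter_subset _ _)
    have h3 : XB ⊆ T'.biUnion fun t => X.filter fun w => 1 / 20 ≤ ⟪u t, u w⟫ := by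
      intro w hw
      obtain ⟨hwX, hwB⟩ := Finset.mem_filter.1 hw
      obtain ⟨t, ht, htc⟩ := hnet' _ hwB
      refine Finset.mem_biUnion.2 ⟨t, ht, Finset.mem_filter.2 ⟨hwX, ?_⟩⟩
      obtain ⟨o1, -, o3⟩ := hoff w hwX
      have e1 : ⟪u t, u (c w) + h w⟫ = (⟪u (c w), u w⟫)⁻¹ * ⟪u t, u w⟫ := by
        rw [hx, real_inner_smul_right]
      have e2 : ⟪u t, u w⟫ = ⟪u (c w), u w⟫ * (⟪u t, u (c w)⟫ + ⟪u t, h w⟫) := by
        rw [← inner_add_right, e1, ← mul_assoc, mul_inv_cancel₀ (by linarith), one_mul]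
      have e3 : -(1 / 50) ≤ ⟪u t, h w⟫ := by
        have := abs_real_inner_le_norm (u t) (h w)
        rw [hu t (hT'X ht), one_mul] at this
        have := (abs_le.1 (this.trans (o3.trans hδ1))).1
        exact this
      rw [e2]
      nlinarith
    have h4 : XB.card ≤ T'.card * (1600 * (4 * L * k * s)) :=
      (Finset.card_le_card h3).trans (Finset.card_biUnion_le_card_mul _ _ _ fun t ht =>
        hcap _ (hu t (hT'X ht)) _ (Finset.filter_subset _ _) fun i hi => (Finset.mem_filter.1 hi).2)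
    have h5 : 2 * s * T.card ≤ 2 * s * (L * k * D) := Nat.mul_le_mul_left _ hTc.le
    have h6 : (2 * L * k * s) * D ≤ (2 * L * k * s) * (3200 * T'.card) := by nlinarith
    exact Nat.le_of_mul_le_mul_left h6 (by positivity)
  obtain ⟨z, T'', hT'', hc'', hz⟩ := exists_many (Measure.pi fun _ : Fin j => stdGaussian E) T'
    (fun t => Good j (m * k) (u t) h (Q t)) (fun t _ => measurableSet_good _ _ _ _ _)
    (g1.real (Set.Icc 1 2) ^ j / 2 / 2 ^ j) (fun t ht => by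
      have hb : 2 * s ≤ (Q t).card := (Finset.mem_filter.1 (hT'B ht)).2
      have hQX : Q t ⊆ X := Finset.filter_subset _ _
      have hQc : ∀ w ∈ Q t, c w = t := fun w hw => (Finset.mem_filter.1 hw).2
      refine good_prob hj hES (hu t (hT'X ht)) h (Q t) (Finset.card_pos.1 (by omega)) hb ?_
        (fun w hw => ?_) hδ (fun w hw => (hoff w (hQX hw)).2.2) hδp
      · have h1 := (hLI.mono hQX hjD).scale LinearMap.id Function.injective_id
          (fun w => (⟪u (c w), u w⟫)⁻¹) (fun w hw => inv_ne_zero (by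
            have := (hoff w (hQX hw)).1; linarith))
        intro T₁ hT₁ hc₁ d hd
        refine h1 T₁ hT₁ hc₁ d ?_
        rw [← hd]
        refine Finset.sum_congr rfl fun w hw => ?_
        simp only [LinearMap.id_apply]
        rw [← hQc w (hT₁ hw), hx]
      · have := (hoff w (hQX hw)).2.1
        rw [← hQc w hw]
        exact this)
  obtain ⟨S, hSX, hSc, hS⟩ := glue u h c X T'' (fun t ht => hu t (hT'X (hT'' ht)))
    (fun a ha b hb hab => not_lt.1 (hT' a (hT'' ha) b (hT'' hb) hab))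
    (fun w hw => (hoff w hw).2.1) (fun w hw => (hoff w hw).2.2.trans hδ1) z hz
  refine ⟨S, hSX, le_trans ?_ hSc, ?_⟩
  · have h1 : (D : ℝ) ≤ 3200 * T'.card := by exact_mod_cast hcount
    have h2 : (D : ℝ) ≤ m * T''.card := by
      have h3 : (0 : ℝ) ≤ T'.card := by positivity
      have h4 : (0 : ℝ) ≤ m := by positivity
      nlinarith
    have h3 : D ≤ m * T''.card := by exact_mod_cast h2
    nlinarith
  · refine Cvx.of_scale LinearMap.id (fun w => (⟪u (c w), u w⟫)⁻¹) (fun w hw => inv_pos.2 (by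
      have := (hoff w (hSX hw)).1; linarith)) ?_
    simpa only [hx, LinearMap.id_apply] using hS

end Pool.Agent.MP_d7dd47_co.H17

end

-- part MP_d7dd47_co.H17.Transfer
section

namespace Pool.Agent.MP_d7dd47_co.H17

open Module MeasureTheory ProbabilityTheory
open Pool.Agent.MP_026d7f_an.H77
open scoped RealInnerProductSpace

variable {ι : Type*}

theorem core' {E : Type*} [NormedAddCommGroup E] [InnerProductSpace ℝ E] [FiniteDimensional ℝ E]
    {j s k m L : ℕ} (hj : 1 ≤ j) (hjD : j + 1 ≤ finrank ℝ E) (hk : 1 ≤ k) (hs : 1 ≤ s)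
    (hES : Forces j s (2 ^ j * (m * k))) {δ : ℝ} (hδ : 0 < δ) (hδ1 : δ ≤ 1 / 50)
    (hδp : 8 * j * δ ≤ g1.real (Set.Icc 1 2) ^ j)
    (hL : 1 ≤ L * g1.real (Set.Icc 1 (1 + δ ^ 2 / 4)))
    (hm : 3200 ≤ m * (g1.real (Set.Icc 1 2) ^ j / 2 / 2 ^ j))
    (v : ι → E) (X : Finset ι) (hX : X.card = 4 * L * k * s * finrank ℝ E)
    (hLI : LI v X (finrank ℝ E)) :
    ∃ S ⊆ X, k * finrank ℝ E ≤ S.card ∧ Cvx v S := by
  borelize E
  have hL1 : 1 ≤ L := by
    rcases Nat.eq_zero_or_pos L with rfl | h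
    · norm_num at hL
    · exact h
  have hM : 1 ≤ 4 * L * k * s := Nat.succ_le_of_lt (by positivity)
  obtain ⟨A, hA, hcap⟩ := forster v _ hM (by omega) X hX hLI
  have hpos : ∀ i ∈ X, 0 < ‖A (v i)‖ := fun i hi =>
    norm_pos_iff.2 fun h0 => hLI.ne_zero (by omega) hi (hA (by rw [h0, map_zero]))
  obtain ⟨S, hSX, hSc, hS⟩ := core hj hjD hk hs hES hδ hδ1 hδp hL hm
    (fun i => ‖A (v i)‖⁻¹ • A (v i)) X hX
    (fun i hi => by rw [norm_smul, norm_inv, norm_norm, inv_mul_cancel₀ (hpos i hi).ne'])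
    (hLI.scale A hA _ fun i hi => inv_ne_zero (hpos i hi).ne')
    (fun e he Z hZ hZe => by
      have h := hcap e he (1 / 20) (by norm_num) Z hZ fun i hi => by
        have h1 := hZe i hi
        have h2 := hpos i (hZ hi)
        rw [real_inner_smul_right, inv_mul_eq_div, le_div_iff₀ h2] at h1
        exact h1
      have h' : (Z.card : ℝ) ≤ 1600 * ((4 * L * k * s : ℕ) : ℝ) := by linarith
      exact_mod_cast h')
  exact ⟨S, hSX, hSc, Cvx.of_scale A _ (fun i hi => inv_pos.2 (hpos i (hSX hi))) hS⟩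

/-- homogenisation -/
noncomputable def hom {n : ℕ} (x : EuclideanSpace ℝ (Fin n)) : EuclideanSpace ℝ (Fin (n + 1)) :=
  WithLp.toLp 2 (Fin.cons 1 fun i => x i)

lemma li_hom {n : ℕ} {X : Finset (EuclideanSpace ℝ (Fin n))} (h : GP X) : LI hom X (n + 1) := by
  intro T hT hc c h0
  refine weights_of_aff (h T hT hc) c ?_ ?_
  · have := congrArg (fun x : EuclideanSpace ℝ (Fin (n + 1)) => x 0) h0
    simpa [hom] using this
  · ext i
    have := congrArg (fun x : EuclideanSpace ℝ (Fin (n + 1)) => x i.succ) h0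
    simpa [hom] using this

lemma convIndep_of_cvx {n : ℕ} {S : Finset (EuclideanSpace ℝ (Fin n))} (h : Cvx hom S) :
    ConvIndep (S : Set (EuclideanSpace ℝ (Fin n))) := by
  intro a ha hmem
  obtain ⟨f, h1, h2⟩ := h a ha
  have hc : Convex ℝ {x : EuclideanSpace ℝ (Fin n) | 0 < f (hom x)} := by
    intro x hx y hy α β hα hβ hαβ
    have e : hom (α • x + β • y) = α • hom x + β • hom y := by
      ext i
      refine Fin.cases ?_ (fun i => ?_) i
      · simp [hom, hαβ]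
      · simp [hom]
    simp only [Set.mem_ofPred_eq, e, map_add, map_smul, smul_eq_mul] at hx hy ⊢
    rcases hα.eq_or_lt with rfl | hα'
    · have : β = 1 := by linarith
      simpa [this] using hy
    · have := mul_pos hα' hx
      have := mul_nonneg hβ hy.le
      linarith
  have := convexHull_min (fun b hb => h2 b hb.1 hb.2) hc hmem
  exact absurd this (not_lt.2 h1)

lemma slab_lower {κ : ℝ} (h0 : 0 < κ) (h1 : κ ≤ 1) : κ / 36 ≤ g1.real (Set.Icc 1 (1 + κ)) := by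
  have h := box_lower (1 + κ / 2) (ρ := κ / 2) (by linarith)
  have e1 : 1 + κ / 2 - κ / 2 = 1 := by ring
  have e2 : 1 + κ / 2 + κ / 2 = 1 + κ := by ring
  rw [e1, e2, abs_of_pos (by linarith), e2] at h
  refine le_trans ?_ h
  have h2 : Real.exp (-2) ≤ Real.exp (-(1 + κ) ^ 2 / 2) := Real.exp_le_exp.2 (by nlinarith)
  have h3 : 1 / 9 ≤ Real.exp (-2) := by
    rw [Real.exp_neg, one_div]
    refine inv_anti₀ (Real.exp_pos _) ?_
    have h4 := Real.exp_one_lt_d9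
    have h5 : Real.exp 2 = Real.exp 1 * Real.exp 1 := by rw [← Real.exp_add]; norm_num
    have h6 := Real.exp_pos 1
    nlinarith
  nlinarith

theorem transfer : ∃ B : ℕ, 1 ≤ B ∧ ∀ j n s k : ℕ, 1 ≤ j → j ≤ n → Forces j s (B ^ j * k) →
    Forces n (B ^ j * k * s * n) (k * n) := by
  set p := g1.real (Set.Icc 1 2) with hp
  have hp0 : 0 < p := g1_pos (by norm_num)
  have hp1 : p ≤ 1 := measureReal_le_one
  obtain ⟨P, hP⟩ := exists_nat_ge (1 / p)
  have hPp : 1 ≤ P * p := by rwa [div_le_iff₀ hp0] at hP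
  have hP1 : 1 ≤ P := by
    rcases Nat.eq_zero_or_pos P with rfl | h
    · norm_num at hPp
    · exact h
  refine ⟨11520000 * P ^ 2, Nat.succ_le_of_lt (by positivity), fun j n s k hj hjn hES X hX hc => ?_⟩
  rcases Nat.eq_zero_or_pos k with rfl | hk
  · exact ⟨∅, by simp, by simp, by simp [ConvIndep]⟩
  have hs : 1 ≤ s := by
    rcases Nat.eq_zero_or_pos s with rfl | h
    · obtain ⟨Y, hY, hYc, -⟩ := hES ∅ (by intro j _ _ A _; simp) (by simp)
      rw [Set.subset_empty_iff.1 hY, Set.encard_empty] at hYc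
      have : (11520000 * P ^ 2) ^ j * k = 0 := by exact_mod_cast hYc.symm
      have h2 : 0 < (11520000 * P ^ 2) ^ j * k := by positivity
      omega
    · exact h
  have hjR : (1 : ℝ) ≤ j := by exact_mod_cast hj
  have hpj : 0 < p ^ j := by positivity
  have hpj1 : p ^ j ≤ 1 := pow_le_one₀ hp0.le hp1
  have hPj : 1 ≤ (P : ℝ) ^ j * p ^ j := by rw [← mul_pow]; exact one_le_pow₀ hPp
  set δ : ℝ := p ^ j / (50 * j) with hδ
  have hδ0 : 0 < δ := by positivity
  have hδ1 : δ ≤ 1 / 50 := by rw [hδ, div_le_div_iff₀ (by positivity) (by norm_num)]; nlinarith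
  have hδj : δ * (50 * j) = p ^ j := div_mul_cancel₀ _ (by positivity)
  set L : ℕ := 360000 * j ^ 2 * (P ^ j) ^ 2 with hL
  set m : ℕ := 6400 * (2 ^ j * P ^ j) with hm
  have hj4 : j ^ 2 ≤ 4 ^ j := by
    have : j ≤ 2 ^ j := Nat.lt_two_pow_self.le
    calc j ^ 2 ≤ (2 ^ j) ^ 2 := Nat.pow_le_pow_left this 2
      _ = 4 ^ j := by rw [← pow_mul, mul_comm, pow_mul]; norm_num
  have hB1 : 8 * L ≤ (11520000 * P ^ 2) ^ j := by
    have e : (11520000 * P ^ 2) ^ j = 2880000 ^ j * 4 ^ j * (P ^ j) ^ 2 := by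
      rw [mul_pow, ← mul_pow 2880000 4, ← pow_mul, ← pow_mul, mul_comm j 2]; norm_num
    have h1 : 2880000 ≤ 2880000 ^ j := Nat.le_self_pow (by omega) _
    rw [e, hL]
    calc 8 * (360000 * j ^ 2 * (P ^ j) ^ 2) = 2880000 * j ^ 2 * (P ^ j) ^ 2 := by ring
      _ ≤ _ := Nat.mul_le_mul_right _ (Nat.mul_le_mul h1 hj4)
  have hB2 : 2 ^ j * m ≤ (11520000 * P ^ 2) ^ j := by
    have e : (11520000 * P ^ 2) ^ j = 2880000 ^ j * (2 ^ j * 2 ^ j) * (P ^ j * P ^ j) := by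
      rw [mul_pow, ← mul_pow 2 2, ← mul_pow 2880000, ← mul_pow P P, sq]; norm_num
    have h1 : 2880000 ≤ 2880000 ^ j := Nat.le_self_pow (by omega) _
    have h2 : P ^ j ≤ P ^ j * P ^ j := Nat.le_mul_self _
    rw [e, hm]
    calc 2 ^ j * (6400 * (2 ^ j * P ^ j)) = 6400 * (2 ^ j * 2 ^ j) * P ^ j := by ring
      _ ≤ _ := Nat.mul_le_mul (Nat.mul_le_mul_right _ (by omega)) h2
  have hn : 1 ≤ n := hj.trans hjn
  have hN : 4 * L * k * s * (n + 1) ≤ (11520000 * P ^ 2) ^ j * k * s * n := by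
    calc 4 * L * k * s * (n + 1) ≤ 4 * L * k * s * (2 * n) := Nat.mul_le_mul_left _ (by omega)
      _ = 8 * L * k * s * n := by ring
      _ ≤ _ := by gcongr
  obtain ⟨S, hS, hSc⟩ := Set.exists_subset_encard_eq
    (le_trans (show ((4 * L * k * s * (n + 1) : ℕ) : ℕ∞) ≤ _ by exact_mod_cast hN) hc)
  have hfin : S.Finite := Set.finite_of_encard_eq_coe hSc
  lift S to Finset (EuclideanSpace ℝ (Fin n)) using hfin
  rw [Set.encard_coe_eq_coe_finsetCard] at hSc
  have hSc' := ENat.natCast_inj.1 hSc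
  have hfr : finrank ℝ (EuclideanSpace ℝ (Fin (n + 1))) = n + 1 := by simp
  obtain ⟨Y, hYS, hYc, hY⟩ := core' (E := EuclideanSpace ℝ (Fin (n + 1))) (m := m) (L := L) hj
    (by rw [hfr]; omega) hk hs
    (hES.mono le_rfl (by rw [← mul_assoc]; exact Nat.mul_le_mul_right _ hB2)) hδ0 hδ1
    (by nlinarith)
    (by
      have h1 := slab_lower (κ := δ ^ 2 / 4) (by positivity) (by nlinarith)
      have h2 : (L : ℝ) * (δ ^ 2 / 4 / 36) = ((P : ℝ) ^ j * p ^ j) ^ 2 := by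
        rw [← hδj, hL]; push_cast; ring
      have h3 : (1 : ℝ) ≤ ((P : ℝ) ^ j * p ^ j) ^ 2 := one_le_pow₀ hPj
      have h4 : (0 : ℝ) ≤ L := by positivity
      nlinarith)
    (by
      have h2 : (m : ℝ) * (p ^ j / 2 / 2 ^ j) = 3200 * ((P : ℝ) ^ j * p ^ j) := by
        rw [hm]; push_cast; field_simp; ring
      rw [h2]; linarith)
    hom S (by rw [hfr, hSc']) (by rw [hfr]; exact li_hom (gp_of_genPos hX hS))
  rw [hfr] at hYc
  obtain ⟨Y', hY', hY'c⟩ := Finset.exists_subset_card_eq (s := Y) (n := k * n)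
    (le_trans (Nat.mul_le_mul_left _ (Nat.le_succ n)) hYc)
  refine ⟨Y', (Finset.coe_subset.2 (hY'.trans hYS)).trans hS, ?_,
    convIndep_of_cvx (hY.mono hY')⟩
  rw [Set.encard_coe_eq_coe_finsetCard, hY'c]

end Pool.Agent.MP_d7dd47_co.H17

end

-- part MP_d7dd47_co.H62.Main
section

namespace Pool.Agent.MP_d7dd47_co.H62

open Finset Module

lemma pow_le_two_pow (f : ℕ) : ∃ c : ℕ, ∀ L, c ≤ L → L ^ f ≤ 2 ^ L := by
  have h := (tendsto_pow_const_div_const_pow_of_one_lt f (r := 2) (by norm_num)).eventually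
    (gt_mem_nhds zero_lt_one)
  obtain ⟨c, hc⟩ := Filter.eventually_atTop.1 h
  refine ⟨c, fun L hL => ?_⟩
  have := hc L hL
  rw [div_lt_one (by positivity)] at this
  exact_mod_cast this.le

lemma forces_of_finset {n N r : ℕ} (h : ∀ S : Finset (E n), GP S → N ≤ S.card →
    ¬ ∀ Y ⊆ S, ConvIndep (Y : Set (E n)) → Y.card < r) : H17.Forces n N r := by
  intro X hX hc
  obtain ⟨T, hT, hTc⟩ := Set.exists_subset_encard_eq hc
  have hfin : T.Finite := Set.finite_of_encard_eq_coe hTc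
  lift T to Finset (E n) using hfin
  rw [Set.encard_coe_eq_coe_finsetCard] at hTc
  have := h T (gp_of_genPos hX hT) (by exact_mod_cast hTc.ge)
  push Not at this
  obtain ⟨Y, h1, h2, h3⟩ := this
  obtain ⟨Y', h4, h5⟩ := exists_subset_card_eq h3
  refine ⟨Y', (coe_subset.2 (h4.trans h1)).trans hT, ?_, H17.ConvIndep.subset h2 (coe_subset.2 h4)⟩
  rw [Set.encard_coe_eq_coe_finsetCard, h5]

theorem main_nat (j : ℕ) : ∃ A e : ℕ, ∀ k L1 : ℕ, 1 ≤ k → 1 ≤ L1 → k ≤ 2 ^ L1 →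
    H17.Forces (j + 2) (2 ^ (A * k * L1 ^ e)) (k ^ (j + 1)) := by
  obtain ⟨e, he⟩ := core (M := E (j + 2)) (j := j) (by simp)
  obtain ⟨C, hC⟩ := geom (d := j + 2) (by omega)
  obtain ⟨c0, hc0⟩ := pow_le_two_pow (2 * e + 4)
  obtain ⟨c, hc⟩ : ∃ c, c = c0 + 2 * j + 32 + 4 * (j + 1).factorial := ⟨_, rfl⟩
  refine ⟨C * c ^ (e + 3), e + 3, fun k L1 hk hL1 hkL => forces_of_finset fun S hS hcard hY => ?_⟩
  obtain ⟨L, hL⟩ : ∃ L, L = c * L1 := ⟨_, rfl⟩
  have hcL : c ≤ L := hL ▸ Nat.le_mul_of_pos_right _ hL1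
  have hLe : 1 ≤ L ^ e := Nat.one_le_pow _ _ (by omega)
  have hLe1 : L ≤ L ^ (e + 1) := Nat.le_self_pow (by omega) _
  have hkL1 : L ^ (e + 1) ≤ k * L ^ (e + 1) := Nat.le_mul_of_pos_left _ hk
  have hD1 : k * L ^ (e + 1) + (j + 1) ≤ k * L ^ (e + 2) := by
    have : k * L ^ (e + 1) * 2 ≤ k * L ^ (e + 1) * L := Nat.mul_le_mul_left _ (by omega)
    rw [pow_succ L (e + 1), ← mul_assoc]
    omega
  have hD2 : k * L ^ (e + 2) ≤ 2 ^ L := by
    rw [← Nat.pow_le_pow_iff_left (n := 2) (by norm_num), mul_pow, ← pow_mul, ← pow_mul,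
      show (e + 2) * 2 = 2 * e + 4 by ring, mul_two, pow_add 2 L L]
    refine Nat.mul_le_mul ((Nat.pow_le_pow_left hkL 2).trans ?_) (hc0 L (by omega))
    rw [← pow_mul, hL, mul_comm]
    exact Nat.pow_le_pow_right (by norm_num) (Nat.mul_le_mul_right _ (by omega))
  have hn : k ^ (j + 1) ≤ 2 ^ L := by
    refine (Nat.pow_le_pow_left hkL _).trans ?_
    rw [← pow_mul, hL, mul_comm]
    exact Nat.pow_le_pow_right (by norm_num) (Nat.mul_le_mul_right _ (by omega))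
  obtain ⟨a, G, g1, g2, g3, g4⟩ := hC L (k * L ^ (e + 1) + (j + 1)) (k ^ (j + 1)) S (by omega)
    (by omega) (hD1.trans hD2) hn hS (le_trans (Nat.pow_le_pow_right (by norm_num) (by
      refine (Nat.mul_le_mul_left _ hD1).trans (le_of_eq ?_)
      rw [hL]; ring)) hcard) hY
  have h1 := he _ L _ a G (by omega) (hD1.trans hD2) hn g1 g2 g3 g4 (by
    have : 2 * (j + 1) * L ^ e ≤ L * L ^ e := Nat.mul_le_mul_right _ (by omega)
    rw [← pow_succ'] at this
    omega)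
  have h2 := Nat.pow_sub_le_descFactorial (k * L ^ (e + 1) + (j + 1) - 1) (j + 1)
  rw [Nat.descFactorial_eq_factorial_mul_choose,
    show k * L ^ (e + 1) + (j + 1) - 1 + 1 - (j + 1) = k * L ^ (e + 1) by omega, mul_pow] at h2
  have h3 := h2.trans (Nat.mul_le_mul_left _ h1)
  have h4 : L ^ (e + 1) ≤ (L ^ (e + 1)) ^ (j + 1) := Nat.le_self_pow (by omega) _
  have h5 : k ^ (j + 1) * L ^ e * L ≤ k ^ (j + 1) * L ^ e * (4 * (j + 1).factorial) := by
    calc k ^ (j + 1) * L ^ e * L = k ^ (j + 1) * L ^ (e + 1) := by ring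
      _ ≤ _ := Nat.mul_le_mul_left _ h4
      _ ≤ _ := h3
      _ = _ := by ring
  have h6 := Nat.le_of_mul_le_mul_left h5 (by positivity)
  omega

theorem main_nat2 (j : ℕ) : ∃ A e : ℕ, ∀ n k L1 : ℕ, j + 2 ≤ n → 1 ≤ k → 1 ≤ L1 → k ≤ 2 ^ L1 →
    H17.Forces n (n * 2 ^ (A * k * L1 ^ e)) (k ^ (j + 1) * n) := by
  obtain ⟨A, e, h⟩ := main_nat j
  obtain ⟨B, hB, hT⟩ := H17.transfer
  refine ⟨A * B ^ 2 * (2 * B + 1) ^ e + (2 * B + 1) * (j + 1), e + 1,
    fun n k L1 hn hk hL1 hkL => ?_⟩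
  have h1 : B ^ (j + 2) * k ^ (j + 1) ≤ (B ^ 2 * k) ^ (j + 1) := by
    rw [mul_pow, ← pow_mul]
    exact Nat.mul_le_mul_right _ (Nat.pow_le_pow_right hB (by omega))
  have h2 : B ^ 2 * k ≤ 2 ^ ((2 * B + 1) * L1) := by
    have a1 : B ^ 2 ≤ (2 ^ B) ^ 2 := Nat.pow_le_pow_left Nat.lt_two_pow_self.le 2
    refine (Nat.mul_le_mul a1 hkL).trans ?_
    rw [← pow_mul, ← pow_add]
    exact Nat.pow_le_pow_right (by norm_num) (by nlinarith)
  have h3 := h (B ^ 2 * k) ((2 * B + 1) * L1) (Nat.mul_pos (by positivity) hk)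
    (Nat.mul_pos (by omega) hL1) h2
  refine (hT (j + 2) n _ _ (by omega) hn (h3.mono le_rfl h1)).mono ?_ le_rfl
  rw [mul_comm n]
  apply Nat.mul_le_mul_right
  refine (Nat.mul_le_mul_right _ (h1.trans (Nat.pow_le_pow_left h2 _))).trans ?_
  rw [← pow_mul, ← pow_add]
  apply Nat.pow_le_pow_right (by norm_num)
  have a1 : L1 ≤ k * L1 ^ (e + 1) :=
    (Nat.le_self_pow (by omega) _).trans (Nat.le_mul_of_pos_left _ hk)
  have a2 : L1 ^ e ≤ L1 ^ (e + 1) := Nat.pow_le_pow_right hL1 (by omega)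
  have a3 := Nat.mul_le_mul_left ((2 * B + 1) * (j + 1)) a1
  have a4 := Nat.mul_le_mul_left (A * B ^ 2 * (2 * B + 1) ^ e * k) a2
  rw [mul_pow]
  nlinarith

theorem main_all (j : ℕ) (hj : 2 ≤ j) : ∃ (A : ℝ) (B : ℕ), ∀ n k : ℕ, j ≤ n →
    H17.Forces n ⌈(n : ℝ) * (2 : ℝ) ^ (A * (k : ℝ) ^ (1 / ((j : ℝ) - 1)) *
      Real.log ((k : ℝ) + 2) ^ B)⌉₊ (k * n) := by
  obtain ⟨j, rfl⟩ : ∃ i, j = i + 2 := ⟨j - 2, by omega⟩
  obtain ⟨A, e, h⟩ := main_nat2 j
  refine ⟨A * 2 * 3 ^ e, e, fun n k hn => ?_⟩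
  rcases Nat.eq_zero_or_pos k with rfl | hk
  · intro X _ _
    exact ⟨∅, by simp, by simp, by simp [ConvIndep]⟩
  have hk1 : (1 : ℝ) ≤ k := by exact_mod_cast hk
  have hj0 : (0 : ℝ) < (j : ℝ) + 1 := by positivity
  rw [show ((j + 2 : ℕ) : ℝ) - 1 = (j : ℝ) + 1 by push_cast; ring]
  obtain ⟨x, hx⟩ : ∃ x : ℝ, x = (k : ℝ) ^ (1 / ((j : ℝ) + 1)) := ⟨_, rfl⟩
  rw [← hx]
  have hx1 : 1 ≤ x := hx ▸ Real.one_le_rpow hk1 (by positivity)
  have hxp : x ^ (j + 1) = k := by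
    rw [hx, ← Real.rpow_natCast, ← Real.rpow_mul (by linarith)]
    push_cast
    rw [one_div_mul_cancel hj0.ne', Real.rpow_one]
  have hxk : x ≤ k := by rw [← hxp]; exact le_self_pow₀ hx1 (by omega)
  obtain ⟨κ, hκ⟩ : ∃ κ, κ = ⌈x⌉₊ := ⟨_, rfl⟩
  have k1 : x ≤ κ := hκ ▸ Nat.le_ceil x
  have k2 : (κ : ℝ) ≤ 2 * x := by
    rw [hκ]; linarith [Nat.ceil_lt_add_one (by linarith : 0 ≤ x)]
  have k3 : κ ≤ k := hκ ▸ Nat.ceil_le.2 hxk
  have k4 : 1 ≤ κ := by exact_mod_cast hx1.trans k1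
  obtain ⟨s, hs⟩ : ∃ s, κ.size = s + 1 := ⟨κ.size - 1, by have := Nat.size_pos.2 k4; omega⟩
  have s1 : 2 ^ s ≤ κ := Nat.lt_size.1 (by omega)
  have s2 : ((s + 1 : ℕ) : ℝ) ≤ 3 * Real.log ((k : ℝ) + 2) := by
    have a1 : (2 : ℝ) ^ s ≤ (k : ℝ) + 2 := by
      have : (2 : ℝ) ^ s ≤ k := by exact_mod_cast s1.trans k3
      linarith
    have a2 := Real.log_le_log (by positivity) a1
    rw [Real.log_pow] at a2
    have a3 : 1 ≤ Real.log ((k : ℝ) + 2) := by
      rw [Real.le_log_iff_exp_le (by linarith)]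
      linarith [Real.exp_one_lt_three]
    have a4 : (s : ℝ) * (1 / 2) ≤ s * Real.log 2 :=
      mul_le_mul_of_nonneg_left (by linarith [Real.log_two_gt_d9]) (Nat.cast_nonneg s)
    push_cast
    linarith
  refine (h n κ (s + 1) hn k4 (by omega) (hs ▸ (Nat.lt_size_self κ).le)).mono ?_ ?_
  · have a1 : ((n * 2 ^ (A * κ * (s + 1) ^ e) : ℕ) : ℝ) ≤
        (n : ℝ) * (2 : ℝ) ^ ((A : ℝ) * 2 * 3 ^ e * x * Real.log ((k : ℝ) + 2) ^ e) := by
      rw [Nat.cast_mul, Nat.cast_pow, ← Real.rpow_natCast]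
      refine mul_le_mul_of_nonneg_left (Real.rpow_le_rpow_of_exponent_le (by norm_num) ?_)
        (Nat.cast_nonneg n)
      rw [Nat.cast_mul, Nat.cast_mul, Nat.cast_pow]
      calc (A : ℝ) * κ * ((s + 1 : ℕ) : ℝ) ^ e
          ≤ A * (2 * x) * (3 * Real.log ((k : ℝ) + 2)) ^ e := by gcongr
        _ = _ := by ring
    exact_mod_cast a1.trans (Nat.le_ceil _)
  · apply Nat.mul_le_mul_right
    have : (k : ℝ) ≤ ((κ ^ (j + 1) : ℕ) : ℝ) := by
      rw [← hxp, Nat.cast_pow]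
      exact pow_le_pow_left₀ (by linarith) k1 _
    exact_mod_cast this

end Pool.Agent.MP_d7dd47_co.H62

end
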