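import Pool.Agent.MP_d7dd47_co.Mg.H40_KVb
import Pool.Agent.MP_d7dd47_co.H40.Defs
import Pool.Agent.MP_d7dd47_co.Mg.H62_Main

namespace Pool.Agent.MP_d7dd47_co.H40

lemma es_bounds (n : ℕ) (hn : 2 ≤ n) : ∃ (K : ℝ) (B : ℕ), 0 < K ∧ ∀ r : ℕ, 3 ≤ r →
    (r : ℝ) ^ (1 / ((n : ℝ) - 1)) * (Real.log 2 / 6) ≤ Real.log (ESNumber r n) ∧
    Real.log (ESNumber r n) ≤ (r : ℝ) ^ (1 / ((n : ℝ) - 1)) * (K * (2 * Real.log r) ^ B) := by
  obtain ⟨A, B, h⟩ := H62.main_all n hn
  have hn1 : (1 : ℝ) < n := by exact_mod_cast (by omega : 1 < n)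
  have hlog : 0 < Real.log ((n : ℝ) + 1) := Real.log_pos (by linarith)
  refine ⟨Real.log ((n : ℝ) + 1) + |A|, B, by positivity, fun r hr => ?_⟩
  have hF := (h n r le_rfl).mono le_rfl (Nat.le_mul_of_pos_right r (by omega : 0 < n))
  have hr3 : (3 : ℝ) ≤ r := by exact_mod_cast hr
  have hlow : (2 : ℝ) ^ ((r : ℝ) ^ (1 / ((n : ℝ) - 1)) / 6) ≤ ESNumber r n := by
    obtain ⟨X, h1, h2, h3⟩ := kv_real n r hn hr
    have hm : ∀ X : Set (EuclideanSpace ℝ (Fin n)), GenPos X →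
        ((ESNumber r n : ℕ) : ℕ∞) ≤ X.encard → ∃ Y ⊆ X, Y.encard = r ∧ ConvIndep Y :=
      Nat.sInf_mem (s := {N : ℕ | ∀ X : Set (EuclideanSpace ℝ (Fin n)), GenPos X →
        (N : ℕ∞) ≤ X.encard → ∃ Y ⊆ X, Y.encard = r ∧ ConvIndep Y}) ⟨_, hF⟩
    refine h2.trans ?_
    by_contra hc
    refine h3 (hm X h1 ?_)
    rw [Set.encard_coe_eq_coe_finsetCard]
    exact_mod_cast (not_le.1 hc).le
  have hup := Nat.sInf_le (s := {N : ℕ | ∀ X : Set (EuclideanSpace ℝ (Fin n)), GenPos X →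
        (N : ℕ∞) ≤ X.encard → ∃ Y ⊆ X, Y.encard = r ∧ ConvIndep Y}) hF
  set ρ : ℝ := (r : ℝ) ^ (1 / ((n : ℝ) - 1)) with hρ
  have hρ1 : 1 ≤ ρ := Real.one_le_rpow (by linarith) (by apply div_nonneg <;> linarith)
  have hpos : (0 : ℝ) < ESNumber r n := lt_of_lt_of_le (by positivity) hlow
  constructor
  · have := Real.log_le_log (by positivity) hlow
    rw [Real.log_rpow two_pos] at this
    linarith
  · have l1 : 1 ≤ Real.log ((r : ℝ) + 2) := by
      rw [Real.le_log_iff_exp_le (by positivity)]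
      have := Real.exp_one_lt_d9
      linarith
    have l2 : Real.log ((r : ℝ) + 2) ≤ 2 * Real.log r := by
      have := Real.log_le_log (by positivity) (show (r : ℝ) + 2 ≤ (r : ℝ) ^ 2 by nlinarith)
      rwa [Real.log_pow] at this
    set P : ℝ := (2 * Real.log r) ^ B with hP
    have p1 : Real.log ((r : ℝ) + 2) ^ B ≤ P := pow_le_pow_left₀ (by linarith) l2 B
    have p0 : 1 ≤ Real.log ((r : ℝ) + 2) ^ B := one_le_pow₀ l1
    have e1 : A * ρ * Real.log ((r : ℝ) + 2) ^ B ≤ |A| * (ρ * P) := by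
      rw [mul_assoc]
      exact (mul_le_mul_of_nonneg_right (le_abs_self A) (by positivity)).trans
        (mul_le_mul_of_nonneg_left (mul_le_mul_of_nonneg_left p1 (by linarith)) (abs_nonneg A))
    have hρP : 1 ≤ ρ * P := by nlinarith
    have e0 : 0 ≤ |A| * (ρ * P) := by positivity
    have e2 : (2 : ℝ) ^ (A * ρ * Real.log ((r : ℝ) + 2) ^ B) ≤ 2 ^ (|A| * (ρ * P)) :=
      Real.rpow_le_rpow_of_exponent_le one_le_two e1
    have e3 : (1 : ℝ) ≤ 2 ^ (|A| * (ρ * P)) := Real.one_le_rpow one_le_two e0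
    have e4 : (ESNumber r n : ℝ) ≤ ((n : ℝ) + 1) * 2 ^ (|A| * (ρ * P)) := by
      have a1 : (ESNumber r n : ℝ) ≤
          (⌈(n : ℝ) * (2 : ℝ) ^ (A * ρ * Real.log ((r : ℝ) + 2) ^ B)⌉₊ : ℕ) := by
        exact_mod_cast hup
      have a2 := Nat.ceil_lt_add_one
        (show 0 ≤ (n : ℝ) * (2 : ℝ) ^ (A * ρ * Real.log ((r : ℝ) + 2) ^ B) by positivity)
      have a3 := mul_le_mul_of_nonneg_left e2 (show (0 : ℝ) ≤ n by positivity)
      linarith
    have e5 := Real.log_le_log hpos e4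
    rw [Real.log_mul (by positivity) (by positivity), Real.log_rpow two_pos] at e5
    have e6 : Real.log 2 ≤ 1 := by have := Real.log_two_lt_d9; linarith
    have e7 := mul_le_mul_of_nonneg_left e6 e0
    have e8 := mul_le_mul_of_nonneg_left hρP hlog.le
    nlinarith

theorem es_order (n : ℕ) (hn : 2 ≤ n) : ∃ B : ℝ, ∀ r : ℕ, 3 ≤ r →
    |Real.log (Real.log (ESNumber r n)) - Real.log r / ((n : ℝ) - 1)| ≤
      B * Real.log (Real.log r) := by
  obtain ⟨K, B, hK, h⟩ := es_bounds n hn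
  have h3 : 1 < Real.log 3 := by
    rw [Real.lt_log_iff_exp_lt (by norm_num)]
    have := Real.exp_one_lt_d9
    linarith
  set l : ℝ := Real.log (Real.log 3) with hl
  have hl0 : 0 < l := Real.log_pos h3
  have h2 : 0 < Real.log 2 := Real.log_pos one_lt_two
  set c : ℝ := |Real.log (Real.log 2 / 6)| + |Real.log K| + B * Real.log 2 with hc
  have hc0 : 0 ≤ c := by positivity
  refine ⟨B + c / l, fun r hr => ?_⟩
  obtain ⟨a1, a2⟩ := h r hr
  have hr3 : (3 : ℝ) ≤ r := by exact_mod_cast hr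
  have b1 : Real.log 3 ≤ Real.log r := Real.log_le_log (by norm_num) hr3
  have b2 : l ≤ Real.log (Real.log r) := Real.log_le_log (by linarith) b1
  have b3 : c ≤ c / l * Real.log (Real.log r) := by
    have := mul_le_mul_of_nonneg_left b2 (div_nonneg hc0 hl0.le)
    rwa [div_mul_cancel₀ _ hl0.ne'] at this
  have hρ : 0 < (r : ℝ) ^ (1 / ((n : ℝ) - 1)) := Real.rpow_pos_of_pos (by linarith) _
  have e : Real.log ((r : ℝ) ^ (1 / ((n : ℝ) - 1))) = Real.log r / ((n : ℝ) - 1) := by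
    rw [Real.log_rpow (by linarith)]; ring
  have hr0 : 0 < Real.log r := by linarith
  have c1 := Real.log_le_log (by positivity) a1
  have c2 := Real.log_le_log (lt_of_lt_of_le (by positivity) a1) a2
  rw [Real.log_mul hρ.ne' (by positivity), e] at c1
  rw [Real.log_mul hρ.ne' (by positivity), e, Real.log_mul hK.ne' (by positivity), Real.log_pow,
    Real.log_mul two_ne_zero hr0.ne'] at c2
  have d1 := neg_abs_le (Real.log (Real.log 2 / 6))
  have d2 := le_abs_self (Real.log K)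
  have d3 := abs_nonneg (Real.log (Real.log 2 / 6))
  have d4 := abs_nonneg (Real.log K)
  have d5 : 0 ≤ (B : ℝ) * Real.log 2 := by positivity
  have d6 : 0 ≤ (B : ℝ) * Real.log (Real.log r) := mul_nonneg (by positivity) (by linarith)
  rw [abs_le]
  constructor <;> nlinarith

end Pool.Agent.MP_d7dd47_co.H40
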