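import Pool.Agent.MP_d7dd47_co.Basic

-- part MP_d7dd47_co.H62.Cells
section

namespace Pool.Agent.MP_d7dd47_co.H62

open Finset Module Classical

abbrev E (d : ℕ) := EuclideanSpace ℝ (Fin d)

abbrev Aff (d : ℕ) := E d →ᵃ[ℝ] ℝ

variable {d : ℕ}

/-- `g` has a constant strict sign on `Q`. -/
def SD (g : E d → ℝ) (Q : Finset (E d)) : Prop := (∀ y ∈ Q, 0 < g y) ∨ (∀ y ∈ Q, g y < 0)

lemma SD.mono {g : E d → ℝ} {Q Q' : Finset (E d)} (h : SD g Q) (hQ : Q' ⊆ Q) : SD g Q' :=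
  h.imp (fun h y hy => h y (hQ hy)) (fun h y hy => h y (hQ hy))

theorem centerpoint (P : Finset (E d)) :
    ∃ c : E d, ∀ f : Aff d, 0 ≤ f c → P.card ≤ (d + 1) * (P.filter fun x => 0 ≤ f x).card := by
  have hH := Convex.helly_theorem' (𝕜 := ℝ) (E := E d)
    (F := fun S : Finset (E d) => convexHull ℝ (S : Set (E d)))
    (s := P.powerset.filter fun S => (d + 1) * (P \ S).card < P.card)
    (fun S _ => convex_convexHull ℝ _) (by
      intro I hI hc
      rcases I.eq_empty_or_nonempty with rfl | hne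
      · simp
      have hc4 : I.card ≤ d + 1 := by simpa using hc
      have h1 : ∀ S ∈ I, (d + 1) * (P \ S).card < P.card := fun S hS => (mem_filter.1 (hI hS)).2
      have h2 : ∑ S ∈ I, (d + 1) * (P \ S).card < ∑ _S ∈ I, P.card :=
        sum_lt_sum_of_nonempty hne h1
      rw [← mul_sum, sum_const, smul_eq_mul] at h2
      have h3 : (I.biUnion fun S => P \ S).card ≤ ∑ S ∈ I, (P \ S).card := card_biUnion_le
      have h4 : (I.biUnion fun S => P \ S).card < P.card :=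
        h3.trans_lt (Nat.lt_of_mul_lt_mul_left (h2.trans_le (Nat.mul_le_mul_right _ hc4)))
      obtain ⟨x, hx, hx'⟩ := exists_mem_notMem_of_card_lt_card h4
      refine ⟨x, Set.mem_iInter₂.2 fun S hS => subset_convexHull ℝ _ ?_⟩
      by_contra hxS
      exact hx' (mem_biUnion.2 ⟨S, hS, mem_sdiff.2 ⟨hx, hxS⟩⟩))
  obtain ⟨c, hc⟩ := hH
  refine ⟨c, fun f hf => ?_⟩
  by_contra hlt
  have h1 : P \ (P.filter fun x => ¬ 0 ≤ f x) = P.filter fun x => 0 ≤ f x := by
    ext x; simp only [mem_sdiff, mem_filter]; tauto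
  have h2 := Set.mem_iInter₂.1 hc (P.filter fun x => ¬ 0 ≤ f x)
    (mem_filter.2 ⟨mem_powerset.2 (filter_subset _ _), by rw [h1]; omega⟩)
  have h3 : convexHull ℝ ((P.filter fun x => ¬ 0 ≤ f x : Finset (E d)) : Set (E d)) ⊆
      f ⁻¹' Set.Iio 0 := by
    apply convexHull_min
    · intro x hx
      exact not_le.1 (mem_filter.1 hx).2
    · exact (convex_Iio (0 : ℝ)).affine_preimage f
  exact absurd (h3 h2) (not_lt.2 hf)

theorem center_plane (hd : 1 ≤ d) (c : Fin d → E d) :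
    ∃ f : Aff d, (∃ p, f p ≠ 0) ∧ ∀ i, f (c i) = 0 := by
  obtain ⟨j, rfl⟩ : ∃ j, d = j + 1 := ⟨d - 1, by omega⟩
  have hlt : vectorSpan ℝ (Set.range c) < (⊤ : Submodule ℝ (E (j + 1))) := by
    apply Submodule.lt_top_of_finrank_lt_finrank
    have h1 := finrank_vectorSpan_range_le ℝ c (n := j) (by simp)
    have h4 : finrank ℝ (E (j + 1)) = j + 1 := by simp
    omega
  obtain ⟨φ, hφ, hk⟩ := Submodule.exists_le_ker_of_lt_top _ hlt
  obtain ⟨p, hp⟩ : ∃ p, φ p ≠ 0 := by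
    by_contra h
    push Not at h
    exact hφ (LinearMap.ext h)
  refine ⟨φ.toAffineMap - AffineMap.const ℝ _ (φ (c 0)), ⟨p + c 0, by simpa using hp⟩, fun i => ?_⟩
  have h2 : φ (c i - c 0) = 0 := hk (vsub_mem_vectorSpan ℝ ⟨i, rfl⟩ ⟨0, rfl⟩)
  rw [map_sub] at h2
  simpa using h2

theorem center_side {P : Finset (E d)} (hP : GP P) {m : ℕ} (hm : 1 ≤ m)
    (hL : (d + 1) ^ 2 * m ≤ P.card) {c : E d}
    (hc : ∀ f : Aff d, 0 ≤ f c → P.card ≤ (d + 1) * (P.filter fun x => 0 ≤ f x).card) (f : Aff d)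
    (hf : ∃ p, f p ≠ 0) (b : Bool) (h0 : if b then 0 ≤ f c else f c ≤ 0) :
    m ≤ (P.filter fun x => (0 < f x ↔ b = true)).card := by
  obtain ⟨p, hp⟩ := hf
  have hz : (P.filter fun x => f x = 0).card ≤ d := by
    simpa only [filter_congr_decidable] using card_zero_le hP f hp
  have hdm : d ≤ d * m := Nat.le_mul_of_pos_right _ hm
  have key : ∀ N, P.card ≤ (d + 1) * N → d * m + m ≤ N := fun N h =>
    Nat.le_of_mul_le_mul_left (le_trans (le_of_eq (by ring)) (hL.trans h)) (Nat.succ_pos d)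
  cases b with
  | true =>
    have h1 := key _ (hc f (by simpa using h0))
    have h2 : (P.filter fun x => 0 ≤ f x) ⊆
        (P.filter fun x => (0 < f x ↔ true = true)) ∪ P.filter fun x => f x = 0 := by
      intro x hx
      rw [mem_filter] at hx
      rw [mem_union, mem_filter, mem_filter]
      rcases hx.2.lt_or_eq with h | h
      · exact Or.inl ⟨hx.1, by simpa using h⟩
      · exact Or.inr ⟨hx.1, h.symm⟩
    have h3 := (card_le_card h2).trans (card_union_le _ _)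
    omega
  | false =>
    have h1 := key _ (hc (-f) (by simpa using h0))
    have h2 : (P.filter fun x => 0 ≤ (-f) x) ⊆ P.filter fun x => (0 < f x ↔ false = true) := by
      intro x hx
      rw [mem_filter] at hx ⊢
      exact ⟨hx.1, by simpa using hx.2⟩
    have h3 := card_le_card h2
    omega

theorem cut (hd : 1 ≤ d) (P : Fin (d + 1) → Finset (E d)) (hP : ∀ a, GP (P a)) {m : ℕ}
    (hm : 1 ≤ m) (hL : ∀ a, (d + 1) ^ 2 * m ≤ (P a).card) (ε : Fin (d + 1) → Bool) :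
    ∃ f : Aff d, ∀ a, m ≤ ((P a).filter fun x => (0 < f x ↔ ε a = true)).card := by
  choose c hc using fun a => centerpoint (P a)
  obtain ⟨f, ⟨p, hp⟩, h1⟩ := center_plane hd (fun i => c i.succ)
  have key : ∀ g : Aff d, g p ≠ 0 → (∀ i : Fin d, g (c i.succ) = 0) →
      (if ε 0 then 0 ≤ g (c 0) else g (c 0) ≤ 0) →
      ∀ a, m ≤ ((P a).filter fun x => (0 < g x ↔ ε a = true)).card := by
    intro g g0 g1 g2 a
    apply center_side (hP a) hm (hL a) (hc a) g ⟨p, g0⟩
    refine Fin.cases g2 (fun i => ?_) a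
    rw [g1 i]; simp
  by_cases h : if ε 0 then 0 ≤ f (c 0) else f (c 0) ≤ 0
  · exact ⟨f, key f hp h1 h⟩
  · refine ⟨-f, key (-f) (by simpa using hp) (by simpa using h1) ?_⟩
    revert h
    cases ε 0 <;> simp <;> exact fun h => h.le

theorem subbox (hd : 1 ≤ d) (s : Finset (Fin (d + 1) → Bool)) :
    ∀ (m : ℕ) (P : Fin (d + 1) → Finset (E d)), 1 ≤ m → (∀ a, GP (P a)) →
      (∀ a, ((d + 1) ^ 2) ^ s.card * m ≤ (P a).card) →
      ∃ P' : Fin (d + 1) → Finset (E d), (∀ a, P' a ⊆ P a ∧ m ≤ (P' a).card) ∧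
        ∀ ε ∈ s, ∃ f : Aff d, ∀ a, ∀ x ∈ P' a, (0 < f x ↔ ε a = true) := by
  induction s using Finset.induction_on with
  | empty => exact fun m P _ _ h => ⟨P, fun a => ⟨le_rfl, by simpa using h a⟩, by simp⟩
  | insert e s he ih =>
    intro m P hm hP hL
    obtain ⟨P', h1, h2⟩ := ih ((d + 1) ^ 2 * m) P (Nat.mul_pos (by positivity) hm) hP (fun a => by
      have := hL a
      rwa [card_insert_of_notMem he, pow_succ, mul_assoc] at this)
    obtain ⟨f, hf⟩ := cut hd P' (fun a => (hP a).mono (h1 a).1) hm (fun a => (h1 a).2) e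
    refine ⟨fun a => (P' a).filter fun x => (0 < f x ↔ e a = true),
      fun a => ⟨(filter_subset _ _).trans (h1 a).1, hf a⟩, fun ε hε => ?_⟩
    rcases mem_insert.1 hε with rfl | hε
    · exact ⟨f, fun a x hx => (mem_filter.1 hx).2⟩
    · obtain ⟨g, hg⟩ := h2 ε hε
      exact ⟨g, fun a x hx => hg a x (mem_filter.1 hx).1⟩

lemma aff_eq (f : Aff d) (y : E d) : f y = f.linear y + f 0 := by
  have := f.map_vadd 0 y
  simpa using this

theorem unsplit {P : Fin (d + 1) → Finset (E d)}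
    (h : ∀ ε : Fin (d + 1) → Bool, ∃ f : Aff d, ∀ a, ∀ x ∈ P a, (0 < f x ↔ ε a = true))
    (g : Aff d) (hg : ∃ p, g p ≠ 0) : ∃ a, SD g (P a) := by
  by_contra hne
  push Not at hne
  have hex : ∀ a, ∃ z ∈ convexHull ℝ (P a : Set (E d)), g z = 0 := fun a => by
    have := hne a
    simp only [SD, not_or, not_forall, not_lt] at this
    obtain ⟨⟨v, hv, hv'⟩, ⟨u, hu, hu'⟩⟩ := this
    have hc := ((convex_convexHull ℝ (P a : Set (E d))).affine_image g).ordConnected
    exact hc.out ⟨v, subset_convexHull ℝ _ hv, rfl⟩ ⟨u, subset_convexHull ℝ _ hu, rfl⟩ ⟨hv', hu'⟩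
  choose x hx hz using hex
  have hind : AffineIndependent ℝ x := by
    rw [affineIndependent_iff]
    intro s w hw hs
    obtain ⟨f, hf⟩ := h fun a => decide (0 < w a)
    have hpos : ∀ a, 0 < w a → 0 < f (x a) := fun a ha =>
      convexHull_min (t := f ⁻¹' Set.Ioi 0) (fun y hy => (hf a y hy).2 (by simpa using ha))
        ((convex_Ioi (0 : ℝ)).affine_preimage f) (hx a)
    have hneg : ∀ a, ¬ 0 < w a → f (x a) ≤ 0 := fun a ha =>
      convexHull_min (t := f ⁻¹' Set.Iic 0)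
        (fun y hy => not_lt.1 fun h' => ha (by simpa using (hf a y hy).1 h'))
        ((convex_Iic (0 : ℝ)).affine_preimage f) (hx a)
    have hsum : ∑ a ∈ s, w a * f (x a) = 0 := by
      have h1 : f.linear (∑ a ∈ s, w a • x a) = 0 := by rw [hs, map_zero]
      rw [map_sum] at h1
      simp only [map_smul, smul_eq_mul] at h1
      have h2 : ∀ a ∈ s, w a * f (x a) = w a * f.linear (x a) + w a * f 0 := fun a _ => by
        rw [aff_eq f (x a)]; ring
      rw [sum_congr rfl h2, sum_add_distrib, h1, ← sum_mul, hw]; ring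
    have hnn : ∀ a ∈ s, 0 ≤ w a * f (x a) := fun a _ => by
      by_cases ha : 0 < w a
      · exact (mul_pos ha (hpos a ha)).le
      · exact mul_nonneg_of_nonpos_of_nonpos (not_lt.1 ha) (hneg a ha)
    have hz := (sum_eq_zero_iff_of_nonneg hnn).1 hsum
    have hle : ∀ a ∈ s, w a ≤ 0 := fun a ha => not_lt.1 fun h' =>
      (mul_pos h' (hpos a h')).ne' (hz a ha)
    exact (sum_eq_zero_iff_of_nonpos hle).1 hw
  have htop := hind.affineSpan_eq_top_iff_card_eq_finrank_add_one.2 (by simp)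
  have hg0 : g = AffineMap.const ℝ (E d) (0 : ℝ) :=
    AffineMap.ext_on htop (by rintro _ ⟨a, rfl⟩; simpa using hz a)
  obtain ⟨p, hp⟩ := hg
  simp [hg0] at hp

theorem ws_split (hd : 1 ≤ d) : ∃ c : ℕ, 1 ≤ c ∧ ∀ (A : Finset (E d)) (m : ℕ), GP A → 1 ≤ m →
    c * m ≤ A.card → ∃ P : Fin (d + 1) → Finset (E d), (∀ a, P a ⊆ A ∧ m ≤ (P a).card) ∧
      (∀ a b, a ≠ b → Disjoint (P a) (P b)) ∧ ∀ g : Aff d, (∃ p, g p ≠ 0) → ∃ a, SD g (P a) := by
  set K := ((d + 1) ^ 2) ^ (univ : Finset (Fin (d + 1) → Bool)).card with hK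
  refine ⟨(d + 1) * K, Nat.mul_pos (Nat.succ_pos d) (by positivity), fun A m hA hm hc => ?_⟩
  obtain ⟨f, hf⟩ := Function.Embedding.exists_of_card_le_finset
    (α := Fin (d + 1) × Fin (K * m)) (s := A) (by simpa [mul_assoc] using hc)
  have hsub : ∀ a, univ.image (fun i => f (a, i)) ⊆ A := fun a x hx => by
    obtain ⟨i, -, rfl⟩ := mem_image.1 hx
    exact hf ⟨_, rfl⟩
  obtain ⟨P, h1, h2⟩ := subbox hd univ m (fun a => univ.image (fun i => f (a, i))) hm
    (fun a => hA.mono (hsub a)) (fun a => by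
      rw [card_image_of_injective _ (fun i j h => by simpa using f.injective h)]
      simp [hK])
  refine ⟨P, fun a => ⟨(h1 a).1.trans (hsub a), (h1 a).2⟩, fun a b hab => ?_,
    unsplit fun ε => h2 ε (mem_univ _)⟩
  apply Disjoint.mono (h1 a).1 (h1 b).1
  rw [disjoint_left]
  intro x hx hx'
  obtain ⟨i, -, rfl⟩ := mem_image.1 hx
  obtain ⟨j, -, h⟩ := mem_image.1 hx'
  exact hab (congrArg Prod.fst (f.injective h)).symm

/-- Partition into cells with few crossings. -/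
theorem cells (hd : 1 ≤ d) : ∃ c : ℕ, 1 ≤ c ∧ ∀ (j : ℕ) (A : Finset (E d)) (m : ℕ), GP A → 1 ≤ m →
    c ^ j * m ≤ A.card → ∃ P : Fin ((d + 1) ^ j) → Finset (E d),
      (∀ a, P a ⊆ A ∧ m ≤ (P a).card) ∧ (∀ a b, a ≠ b → Disjoint (P a) (P b)) ∧
      ∀ g : Aff d, (∃ p, g p ≠ 0) → (univ.filter fun a => ¬ SD g (P a)).card ≤ d ^ j := by
  obtain ⟨c, hc, hws⟩ := ws_split hd
  refine ⟨c, hc, fun j => ?_⟩
  induction j with
  | zero =>
    intro A m _ _ h
    refine ⟨fun _ => A, fun _ => ⟨le_rfl, by simpa using h⟩, fun a b hab => ?_, fun g _ => ?_⟩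
    · exact absurd (Subsingleton.elim (α := Fin 1) a b) hab
    · exact (card_le_univ _).trans (by simp)
  | succ j ih =>
    intro A m hA hm h
    obtain ⟨P, p1, p2, p3⟩ := hws A (c ^ j * m) hA (Nat.mul_pos (by positivity) hm)
      (by rwa [pow_succ', mul_assoc] at h)
    choose Q q1 q2 q3 using fun a => ih (P a) m (hA.mono (p1 a).1) hm (p1 a).2
    let e : Fin ((d + 1) ^ (j + 1)) ≃ Fin ((d + 1) ^ j) × Fin (d + 1) := finProdFinEquiv.symm
    refine ⟨fun κ => Q (e κ).2 (e κ).1, fun κ => ⟨(q1 _ _).1.trans (p1 _).1, (q1 _ _).2⟩,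
      fun κ κ' hne => ?_, fun g hg => ?_⟩
    · by_cases h2 : (e κ).2 = (e κ').2
      · have h1 : (e κ).1 ≠ (e κ').1 := fun h1 => hne (e.injective (Prod.ext h1 h2))
        simp only [h2]
        exact q2 _ _ _ h1
      · exact Disjoint.mono (q1 _ _).1 (q1 _ _).1 (p2 _ _ h2)
    · obtain ⟨a0, ha0⟩ := p3 g hg
      have hsub : (univ.filter fun κ => ¬ SD g (Q (e κ).2 (e κ).1)) ⊆
          (univ.erase a0).biUnion fun a =>
            (univ.filter fun b => ¬ SD g (Q a b)).image fun b => e.symm (b, a) := by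
        intro κ hκ
        have hκ' := (mem_filter.1 hκ).2
        refine mem_biUnion.2 ⟨(e κ).2, mem_erase.2 ⟨fun h' => hκ' ?_, mem_univ _⟩,
          mem_image.2 ⟨(e κ).1, mem_filter.2 ⟨mem_univ _, hκ'⟩, by simp⟩⟩
        rw [← h'] at ha0
        exact ha0.mono (q1 _ _).1
      refine (card_le_card hsub).trans ((card_biUnion_le_card_mul _ _ (d ^ j)
        fun a _ => card_image_le.trans (q3 a g hg)).trans ?_)
      rw [card_erase_of_mem (mem_univ _), pow_succ']
      simp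

end Pool.Agent.MP_d7dd47_co.H62

end

-- part MP_d7dd47_co.H62.Realize
section

namespace Pool.Agent.MP_d7dd47_co.H62

open Finset Module Classical Function

variable {d : ℕ}

/-- The determinant. -/
noncomputable def om (d : ℕ) : E d [⋀^Fin d]→ₗ[ℝ] ℝ :=
  (EuclideanSpace.basisFun (Fin d) ℝ).toBasis.det

lemma om_update_sum (v : Fin d → E d) (c : Fin d → ℝ) (i : Fin d) :
    om d (update v i (∑ j, c j • v j)) = c i * om d v := by
  rw [AlternatingMap.map_update_sum, sum_eq_single i]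
  · rw [AlternatingMap.map_update_smul, update_eq_self, smul_eq_mul]
  · intro j _ hj
    rw [AlternatingMap.map_update_smul, AlternatingMap.map_update_self _ _ hj.symm, smul_zero]
  · simp

lemma om_ne_zero {v : Fin d → E d} (h : LinearIndependent ℝ v) : om d v ≠ 0 :=
  ((Basis.is_basis_iff_det _).1 ⟨h, h.span_eq_top_of_card_eq_finrank' (by simp)⟩).ne_zero

lemma om_span {v : Fin d → E d} (h : om d v ≠ 0) (u : E d) :
    ∃ c : Fin d → ℝ, u = ∑ j, c j • v j := by
  have h1 := ((Basis.is_basis_iff_det _).2 (isUnit_iff_ne_zero.2 h)).2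
  have h2 : u ∈ Submodule.span ℝ (Set.range v) := by rw [h1]; trivial
  obtain ⟨c, hc⟩ := (Submodule.mem_span_range_iff_exists_fun ℝ).1 h2
  exact ⟨c, hc.symm⟩

lemma transfer_dep {D : ℕ} (hD : d + 1 ≤ D) (w o : ℕ → E d)
    (H : ∀ s : Fin d → ℕ, Injective s → (∀ j, s j < D) →
      0 < om d (fun j => w (s j)) * om d (fun j => o (s j)))
    {S0 : Finset ℕ} (hS : S0 ⊆ range D) (hc : S0.card ≤ d + 1) (μ : ℕ → ℝ)
    (h0 : ∀ t ∈ S0, 0 ≤ μ t) (h1 : ∑ t ∈ S0, μ t = 1) (h2 : ∑ t ∈ S0, μ t • w t = 0)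
    (φ : E d →ₗ[ℝ] ℝ) (hφ : ∀ t ∈ S0, φ (o t) < 0) : False := by
  obtain ⟨S, hS1, hS2, hS3⟩ := exists_subsuperset_card_eq hS hc (by simpa using hD)
  obtain ⟨t0, ht0, hp⟩ : ∃ t0 ∈ S0, 0 < μ t0 := by
    by_contra h
    push Not at h
    linarith [sum_nonpos h]
  have hce : (S.erase t0).card = d := by rw [card_erase_of_mem (hS1 ht0), hS3]; rfl
  let s : Fin d → ℕ := (S.erase t0).orderEmbOfFin hce
  have hs : Injective s := ((S.erase t0).orderEmbOfFin hce).injective
  have hsm : ∀ j, s j ∈ S.erase t0 := fun j => orderEmbOfFin_mem _ hce j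
  have hsD : ∀ j, s j < D := fun j => mem_range.1 (hS2 (mem_of_mem_erase (hsm j)))
  let μ' : ℕ → ℝ := fun t => if t ∈ S0 then μ t else 0
  have e1 : ∑ j, μ' (s j) • w (s j) = ∑ t ∈ S.erase t0, μ' t • w t := by
    refine sum_bij (fun j _ => s j) (fun j _ => hsm j) (fun _ _ _ _ h => hs h) ?_ (fun _ _ => rfl)
    intro t ht
    have : t ∈ Set.range s := by
      simp only [s]; rw [range_orderEmbOfFin]; exact ht
    obtain ⟨j, hj⟩ := this
    exact ⟨j, mem_univ _, hj⟩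
  have e2 : ∑ t ∈ S, μ' t • w t = 0 := by
    rw [← h2, ← sum_subset hS1 (fun t _ ht => by simp [μ', ht])]
    exact sum_congr rfl fun t ht => by simp [μ', ht]
  have e3 : w t0 = ∑ j, (-μ' (s j) / μ t0) • w (s j) := by
    rw [← add_sum_erase S _ (hS1 ht0), ← e1] at e2
    simp only [μ', if_pos ht0] at e2
    have : w t0 = (μ t0)⁻¹ • -(∑ j, μ' (s j) • w (s j)) := by
      rw [← eq_neg_of_add_eq_zero_left e2, smul_smul, inv_mul_cancel₀ hp.ne', one_smul]
    rw [this, ← sum_neg_distrib, smul_sum]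
    exact sum_congr rfl fun j _ => by
      rw [← neg_smul, smul_smul, div_eq_inv_mul]
  have p0 := H s hs hsD
  obtain ⟨c, hc⟩ := om_span (v := fun j => o (s j)) (right_ne_zero_of_mul p0.ne') (o t0)
  have key : ∀ i, 0 ≤ c i * φ (o (s i)) := by
    intro i
    have p1 := H (update s i t0) (by
      intro a b hab
      by_cases ha : a = i <;> by_cases hb : b = i
      · rw [ha, hb]
      · rw [ha, update_self, update_of_ne hb] at hab
        exact absurd hab.symm (ne_of_mem_erase (hsm b))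
      · rw [hb, update_self, update_of_ne ha] at hab
        exact absurd hab (ne_of_mem_erase (hsm a))
      · rw [update_of_ne ha, update_of_ne hb] at hab
        exact hs hab) (by
      intro j
      by_cases hj : j = i
      · rw [hj, update_self]; exact mem_range.1 (hS ht0)
      · rw [update_of_ne hj]; exact hsD j)
    have r1 : (fun j => w (update s i t0 j)) = update (fun j => w (s j)) i (w t0) :=
      comp_update w s i t0
    have r2 : (fun j => o (update s i t0 j)) = update (fun j => o (s j)) i (o t0) :=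
      comp_update o s i t0
    rw [r1, r2, e3, hc, om_update_sum, om_update_sum] at p1
    have p2 : 0 < -μ' (s i) / μ t0 * c i := by
      by_contra hn
      nlinarith [mul_nonpos_of_nonpos_of_nonneg (not_lt.1 hn) p0.le]
    have hi : s i ∈ S0 := by
      by_contra hn
      simp [μ', hn] at p2
    have p3 : -μ' (s i) / μ t0 ≤ 0 :=
      div_nonpos_of_nonpos_of_nonneg (by simpa [μ', hi] using h0 _ hi) hp.le
    have p4 : c i ≤ 0 := by
      by_contra hn
      nlinarith [mul_nonpos_of_nonpos_of_nonneg p3 (not_le.1 hn).le]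
    exact mul_nonneg_of_nonpos_of_nonpos p4 (hφ _ hi).le
  have := hφ t0 ht0
  rw [hc, map_sum] at this
  simp only [map_smul, smul_eq_mul] at this
  exact absurd (sum_nonneg fun i _ => key i) (not_le.2 this)

theorem realize {D : ℕ} (hD : d + 1 ≤ D) (x : E d) (Q : ℕ → Finset (E d)) (o : ℕ → E d)
    (ho : ∀ t < D, o t ∈ Q t)
    (H : ∀ s : Fin d → ℕ, Injective s → (∀ j, s j < D) → ∀ w : Fin d → E d,
      (∀ j, w j ∈ convexHull ℝ (Q (s j) : Set (E d))) →
      0 < om d (fun j => w j - x) * om d (fun j => o (s j) - x))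
    (S : Set (E d)) (φ : E d →ₗ[ℝ] ℝ) (hS : ∀ y ∈ S, ∃ t < D, y ∈ Q t ∧ φ (o t - x) < 0) :
    x ∉ convexHull ℝ S := by
  intro hx
  rw [convexHull_eq_union] at hx
  simp only [Set.mem_iUnion, exists_prop] at hx
  obtain ⟨T, hT, hind, hxT⟩ := hx
  have hTc : T.card ≤ d + 1 := by
    have h1 := hind.card_le_finrank_succ
    have h2 := Submodule.finrank_le (vectorSpan ℝ (Set.range ((↑) : T → E d)))
    simp only [Fintype.card_coe, finrank_euclideanSpace, Fintype.card_fin] at h1 h2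
    omega
  obtain ⟨l, l0, l1, l2⟩ := mem_convexHull'.1 hxT
  choose! τ τ1 τ2 τ3 using hS
  let μ : ℕ → ℝ := fun t => ∑ y ∈ T.filter (fun y => τ y = t), l y
  have hw : ∀ t, ∃ w : E d, (t < D → w ∈ convexHull ℝ (Q t : Set (E d))) ∧
      μ t • w = ∑ y ∈ T.filter (fun y => τ y = t), l y • y := by
    intro t
    have hl : ∀ y ∈ T.filter (fun y => τ y = t), 0 ≤ l y := fun y hy => l0 y (mem_filter.1 hy).1
    rcases (sum_nonneg hl).eq_or_lt with h | h
    · refine ⟨o t, fun ht => subset_convexHull ℝ _ (ho t ht), ?_⟩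
      have hz := (sum_eq_zero_iff_of_nonneg hl).1 h.symm
      simp only [μ]
      rw [← h, zero_smul, sum_eq_zero fun y hy => by rw [hz y hy, zero_smul]]
    · refine ⟨(T.filter (fun y => τ y = t)).centerMass l id, fun _ =>
        centerMass_mem_convexHull _ hl h fun y hy => ?_, ?_⟩
      · rw [mem_filter] at hy
        rw [← hy.2]
        exact τ2 y (hT hy.1)
      · simp only [μ, centerMass, id]
        rw [smul_smul, mul_inv_cancel₀ h.ne', one_smul]
  choose w w1 w2 using hw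
  have hmap : ∀ y ∈ T, τ y ∈ T.image τ := fun y hy => mem_image_of_mem _ hy
  have s1 : ∑ t ∈ T.image τ, μ t = 1 := by rw [← l1]; exact sum_fiberwise_of_maps_to hmap _
  refine transfer_dep hD (fun t => w t - x) (fun t => o t - x)
    (fun s h1 h2 => H s h1 h2 (fun j => w (s j)) fun j => w1 _ (h2 j)) (S0 := T.image τ) ?_
    (card_image_le.trans hTc) μ (fun t _ => sum_nonneg fun y hy => l0 y (mem_filter.1 hy).1) s1
    ?_ φ ?_
  · intro t ht
    obtain ⟨y, hy, rfl⟩ := mem_image.1 ht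
    exact mem_range.2 (τ1 y (hT hy))
  · simp only [smul_sub, sum_sub_distrib, w2]
    rw [← sum_smul, s1, one_smul, sum_fiberwise_of_maps_to hmap, l2, sub_self]
  · intro t ht
    obtain ⟨y, hy, rfl⟩ := mem_image.1 ht
    exact τ3 y (hT hy)

/-- The determinant as an affine function of one point. -/
noncomputable def gA (x : E d) (v : Fin d → E d) (i : Fin d) : Aff d :=
  ((om d).toMultilinearMap.toLinearMap (fun j => v j - x) i).toAffineMap -
    AffineMap.const ℝ _ ((om d).toMultilinearMap.toLinearMap (fun j => v j - x) i x)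

lemma gA_apply (x : E d) (v : Fin d → E d) (i : Fin d) (y : E d) :
    gA x v i y = om d (fun j => update v i y j - x) := by
  have : (fun j => update v i y j - x) = update (fun j => v j - x) i (y - x) :=
    comp_update (fun z => z - x) v i y
  rw [this, AlternatingMap.map_update_sub]
  simp [gA]

lemma chain (x : E d) (Q U : Fin d → Finset (E d)) (o : Fin d → E d) (ho : ∀ j, o j ∈ Q j)
    (hU : ∀ j, U j ⊆ Q j) (hQ : ∀ j, (Q j : Set (E d)) ⊆ convexHull ℝ (U j : Set (E d)))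
    (h0 : om d (fun j => o j - x) ≠ 0)
    (H : ∀ (i : Fin d) (v : Fin d → E d), (∀ j, j < i → v j ∈ U j) → v i = 0 →
      (∀ j, i < j → v j = o j) → (∃ p, gA x v i p ≠ 0) → SD (gA x v i) (Q i))
    (w : Fin d → E d) (hw : ∀ j, w j ∈ convexHull ℝ (Q j : Set (E d))) :
    0 < om d (fun j => w j - x) * om d (fun j => o j - x) := by
  have step1 : ∀ i : ℕ, ∀ v : Fin d → E d, (∀ j : Fin d, (j : ℕ) < i → v j ∈ U j) →
      (∀ j : Fin d, i ≤ (j : ℕ) → v j = o j) →
      0 < om d (fun j => v j - x) * om d (fun j => o j - x) := by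
    intro i
    induction i with
    | zero =>
      intro v _ h2
      rw [show v = o from funext fun j => h2 j (Nat.zero_le _)]
      exact mul_self_pos.2 h0
    | succ i ih =>
      intro v h1 h2
      by_cases hi : i < d
      · set a : Fin d := ⟨i, hi⟩ with ha
        have ne : ∀ j : Fin d, (j : ℕ) ≠ i → j ≠ a := fun j h h' => h (by rw [h'])
        have p1 := ih (update v a (o a))
          (fun j hj => by rw [update_of_ne (ne j hj.ne)]; exact h1 j (by omega))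
          (fun j hj => by
            by_cases h : j = a
            · rw [h, update_self]
            · rw [update_of_ne h]
              exact h2 j (lt_of_le_of_ne hj fun h' => h (Fin.ext h'.symm)))
        have e1 : gA x (update v a 0) a (o a) = om d (fun j => update v a (o a) j - x) := by
          rw [gA_apply, update_idem]
        have e2 : gA x (update v a 0) a (v a) = om d (fun j => v j - x) := by
          rw [gA_apply, update_idem, update_eq_self]
        rw [← e1] at p1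
        rw [← e2]
        have p2 := H a (update v a 0)
          (fun j hj => by rw [update_of_ne hj.ne]; exact h1 j (Nat.lt_succ_of_lt hj))
          (update_self _ _ _) (fun j hj => by rw [update_of_ne hj.ne']; exact h2 j hj)
          ⟨o a, left_ne_zero_of_mul p1.ne'⟩
        have hv : v a ∈ Q a := hU a (h1 a (Nat.lt_succ_self i))
        rcases p2 with p2 | p2
        · have := p2 _ (ho a)
          exact mul_pos (p2 _ hv) (by
            by_contra hn
            nlinarith)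
        · have := p2 _ (ho a)
          exact mul_pos_of_neg_of_neg (p2 _ hv) (by
            by_contra hn
            nlinarith)
      · exact ih v (fun j _ => h1 j (by omega)) (fun j hj => by omega)
  have step2 : ∀ i : ℕ, ∀ v : Fin d → E d,
      (∀ j : Fin d, (j : ℕ) < i → v j ∈ convexHull ℝ (U j : Set (E d))) →
      (∀ j : Fin d, i ≤ (j : ℕ) → v j ∈ U j) →
      0 < om d (fun j => v j - x) * om d (fun j => o j - x) := by
    intro i
    induction i with
    | zero => exact fun v _ h2 => step1 d v (fun j _ => h2 j (Nat.zero_le _)) (fun j hj => by omega)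
    | succ i ih =>
      intro v h1 h2
      by_cases hi : i < d
      · set a : Fin d := ⟨i, hi⟩ with ha
        have ne : ∀ j : Fin d, (j : ℕ) ≠ i → j ≠ a := fun j h h' => h (by rw [h'])
        have e2 : (om d (fun j => o j - x) • gA x v a) (v a) =
            om d (fun j => v j - x) * om d (fun j => o j - x) := by
          rw [AffineMap.coe_smul, Pi.smul_apply, gA_apply, update_eq_self, smul_eq_mul, mul_comm]
        rw [← e2]
        refine convexHull_min (t := (om d (fun j => o j - x) • gA x v a) ⁻¹' Set.Ioi 0)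
          (fun y hy => ?_) ((convex_Ioi (0 : ℝ)).affine_preimage _) (h1 a (Nat.lt_succ_self i))
        have := ih (update v a y)
          (fun j hj => by rw [update_of_ne (ne j hj.ne)]; exact h1 j (by omega))
          (fun j hj => by
            by_cases h : j = a
            · rw [h, update_self]; exact hy
            · rw [update_of_ne h]
              exact h2 j (lt_of_le_of_ne hj fun h' => h (Fin.ext h'.symm)))
        simp only [Set.mem_preimage, AffineMap.coe_smul, Pi.smul_apply, gA_apply, smul_eq_mul,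
          Set.mem_Ioi]
        rwa [mul_comm]
      · exact ih v (fun j _ => h1 j (by omega)) (fun j hj => by omega)
  exact step2 d w (fun j _ => convexHull_min (hQ j) (convex_convexHull ℝ _) (hw j))
    (fun j hj => by omega)

/-- A convexly independent generating subset. -/
lemma exists_vertices (Q : Finset (E d)) : ∃ U ⊆ Q,
    (Q : Set (E d)) ⊆ convexHull ℝ (U : Set (E d)) ∧ ConvIndep (U : Set (E d)) := by
  obtain ⟨U, hU, hmin⟩ := exists_min_image
    (Q.powerset.filter fun U : Finset (E d) => (Q : Set (E d)) ⊆ convexHull ℝ (U : Set (E d)))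
    Finset.card ⟨Q, mem_filter.2 ⟨mem_powerset_self _, subset_convexHull ℝ _⟩⟩
  rw [mem_filter, mem_powerset] at hU
  refine ⟨U, hU.1, hU.2, fun y hy hy' => ?_⟩
  have h1 : (U : Set (E d)) ⊆ convexHull ℝ (U.erase y : Set (E d)) := by
    intro z hz
    by_cases h : z = y
    · rw [h, coe_erase]; exact hy'
    · exact subset_convexHull ℝ _ (mem_erase.2 ⟨h, hz⟩)
  have h2 := hmin (U.erase y) (mem_filter.2 ⟨mem_powerset.2 ((erase_subset _ _).trans hU.1),
    hU.2.trans (convexHull_min h1 (convex_convexHull ℝ _))⟩)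
  exact absurd (card_erase_lt_of_mem hy) (not_lt.2 h2)

end Pool.Agent.MP_d7dd47_co.H62

end

-- part MP_d7dd47_co.H62.Defs
section

namespace Pool.Agent.MP_d7dd47_co.H62

open Finset Module

/-- The leaves (subsets of `range D`) below the node of level `ℓ` on the path of `z`. -/
def node (D ℓ : ℕ) (z : Finset ℕ) : Finset (Finset ℕ) :=
  (range D).powerset.filter (fun x => ∀ t < ℓ, (t ∈ x ↔ t ∈ z))

/-- Average over the leaves below a node. -/
noncomputable def avg (D ℓ : ℕ) (z : Finset ℕ) (f : Finset ℕ → ℝ) : ℝ :=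
  (∑ x ∈ node D ℓ z, f x) / 2 ^ (D - ℓ)

/-- The paths of `x` and `y` separate at level `t`. -/
def IsLca (x y : Finset ℕ) (t : ℕ) : Prop :=
  (∀ s < t, (s ∈ x ↔ s ∈ y)) ∧ ¬ (t ∈ x ↔ t ∈ y)

open Classical in
/-- Real indicator of a proposition. -/
noncomputable def ind (P : Prop) : ℝ := if P then 1 else 0

/-- `mj t x` tells which child of the level-`t` node the leaf `x` enters, in a labelling of the
two children that may depend on the node. -/
def Side (mj : ℕ → Finset ℕ → Bool) : Prop :=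
  ∀ t x y, (∀ s < t, (s ∈ x ↔ s ∈ y)) → (mj t x = mj t y ↔ (t ∈ x ↔ t ∈ y))

variable {M : Type*} [AddCommGroup M] [Module ℝ M]

def Wit (a : ℕ → M) (B W : Finset ℕ) (φ : M →ₗ[ℝ] ℝ) : Prop :=
  (∀ s ∈ W, φ (a s) = 0) ∧ ∀ s ∈ B, φ (a s) < 0

def Meets (a : ℕ → M) (B W : Finset ℕ) : Prop := ∃ φ, Wit a B W φ

def Free (a : Finset ℕ → ℕ → M) (B : Finset ℕ) (Y : Finset (Finset ℕ)) : Prop :=
  ∀ y ∈ Y, ∃ φ : M →ₗ[ℝ] ℝ, (∀ s ∈ B, φ (a y s) < 0) ∧
    ∀ y' ∈ Y, ∀ t, IsLca y y' t → φ (a y t) < 0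

open Classical in
noncomputable def V (D : ℕ) (a : Finset ℕ → ℕ → M) (G : Finset (Finset ℕ)) (ℓ : ℕ)
    (z B : Finset ℕ) : ℕ :=
  ((node D ℓ z ∩ G).powerset.filter (Free a B)).sup Finset.card

/-- Any at most `dim M` of the vectors `a t`, `t < D`, are linearly independent. -/
def GI (D : ℕ) (a : ℕ → M) : Prop :=
  ∀ S ⊆ range D, S.card ≤ finrank ℝ M → LinearIndepOn ℝ a (S : Set ℕ)

open Classical in
noncomputable def cnt (a : ℕ → M) (B Z : Finset ℕ) (ℓ D j : ℕ) : ℝ :=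
  (((powersetCard j (Ico ℓ D)).filter (fun J => Meets a B (Z ∪ J))).card : ℝ)

noncomputable def cntp (a : ℕ → M) (B Z : Finset ℕ) (ℓ D : ℕ) : ℕ → ℝ
  | 0 => 0
  | j + 1 => cnt a B Z ℓ D j

/-- Score of one level. -/
noncomputable def sc (ε : ℝ) (f : Bool → Bool → Bool) (s p q : Bool) : ℝ :=
  if s then (if f p q then 1 - ε else 0) else (if f (!p) (!q) then -(1 + ε) else 0)

open Classical in
noncomputable def sg (φ : M →ₗ[ℝ] ℝ) (v : M) : Bool := decide (0 < φ v)

/-- A typical leaf. -/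
def Typ (a : ℕ → M) (mj : ℕ → Bool) (ε Λ : ℝ) (ℓ D : ℕ) : Prop :=
  ∀ s e, ℓ ≤ s → s ≤ e → e ≤ D → ∀ φ ψ : M →ₗ[ℝ] ℝ,
    (∀ t ∈ Ico s e, φ (a t) ≠ 0 ∧ ψ (a t) ≠ 0) → ∀ (b : Bool) (f : Bool → Bool → Bool),
      ∑ t ∈ Ico s e, sc ε f (mj t == b) (sg φ (a t)) (sg ψ (a t)) ≤ Λ

/-- The inductive statement. -/
def TT (D : ℕ) (a : Finset ℕ → ℕ → M) (G : Finset (Finset ℕ)) (k : ℕ) (c lam : ℝ) : Prop :=
  ∀ ℓ ≤ D, ∀ z B Z : Finset ℕ, B.Nonempty → B ⊆ range ℓ → Z ⊆ range ℓ →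
    Z.card + k + 1 = finrank ℝ M →
    c * (avg D ℓ z (fun y => ind (y ∈ G) * cnt (a y) B Z ℓ D k) -
      lam * avg D ℓ z (fun y => ind (y ∈ G) * cntp (a y) B Z ℓ D k)) ≤ V D a G ℓ z (B ∪ Z)

/-! ### Indicators -/

lemma ind_pos {P : Prop} (h : P) : ind P = 1 := by simp [ind, h]

lemma ind_neg {P : Prop} (h : ¬ P) : ind P = 0 := by simp [ind, h]

lemma ind_nonneg (P : Prop) : 0 ≤ ind P := by
  unfold ind; split_ifs <;> norm_num

lemma ind_le_one (P : Prop) : ind P ≤ 1 := by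
  unfold ind; split_ifs <;> norm_num

lemma ind_mono {P Q : Prop} (h : P → Q) : ind P ≤ ind Q := by
  by_cases hp : P
  · rw [ind_pos hp, ind_pos (h hp)]
  · rw [ind_neg hp]; exact ind_nonneg Q

lemma ind_congr {P Q : Prop} (h : P ↔ Q) : ind P = ind Q := by rw [propext h]

lemma ind_and (P Q : Prop) : ind (P ∧ Q) = ind P * ind Q := by
  by_cases hp : P <;> by_cases hq : Q <;> simp [ind, hp, hq]

lemma sum_ind {ι : Type*} (s : Finset ι) (P : ι → Prop) [DecidablePred P] :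
    ∑ x ∈ s, ind (P x) = ((s.filter P).card : ℝ) := by
  rw [card_filter]
  push_cast
  apply sum_congr rfl
  intro x _
  by_cases h : P x
  · rw [ind_pos h, if_pos h]
  · rw [ind_neg h, if_neg h]

/-! ### Nodes -/

lemma mem_node {D ℓ : ℕ} {z x : Finset ℕ} :
    x ∈ node D ℓ z ↔ x ⊆ range D ∧ ∀ t < ℓ, (t ∈ x ↔ t ∈ z) := by
  simp [node]

lemma node_congr {D ℓ : ℕ} {z z' : Finset ℕ} (h : ∀ t < ℓ, (t ∈ z ↔ t ∈ z')) :
    node D ℓ z = node D ℓ z' := by
  ext x
  simp only [mem_node]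
  exact and_congr_right fun _ => forall_congr' fun t => forall_congr' fun ht => by rw [h t ht]

lemma node_succ_subset {D ℓ : ℕ} {z z' : Finset ℕ} (h : ∀ t < ℓ, (t ∈ z' ↔ t ∈ z)) :
    node D (ℓ + 1) z' ⊆ node D ℓ z := by
  intro x hx
  rw [mem_node] at hx ⊢
  exact ⟨hx.1, fun t ht => (hx.2 t (by omega)).trans (h t ht)⟩

lemma agree_insert (ℓ : ℕ) (z : Finset ℕ) : ∀ t < ℓ, (t ∈ insert ℓ z ↔ t ∈ z) := by
  intro t ht
  simp [ht.ne]

lemma agree_erase (ℓ : ℕ) (z : Finset ℕ) : ∀ t < ℓ, (t ∈ z.erase ℓ ↔ t ∈ z) := by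
  intro t ht
  simp [ht.ne]

lemma mem_node_insert {D ℓ : ℕ} {z x : Finset ℕ} :
    x ∈ node D (ℓ + 1) (insert ℓ z) ↔ x ∈ node D ℓ z ∧ ℓ ∈ x := by
  simp only [mem_node]
  constructor
  · rintro ⟨h1, h2⟩
    exact ⟨⟨h1, fun t ht => (h2 t (by omega)).trans (agree_insert ℓ z t ht)⟩,
      (h2 ℓ (by omega)).2 (by simp)⟩
  · rintro ⟨⟨h1, h2⟩, h3⟩
    refine ⟨h1, fun t ht => ?_⟩
    rcases Nat.lt_succ_iff_lt_or_eq.1 ht with h | rfl
    · exact (h2 t h).trans (agree_insert ℓ z t h).symm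
    · simp [h3]

lemma mem_node_erase {D ℓ : ℕ} {z x : Finset ℕ} :
    x ∈ node D (ℓ + 1) (z.erase ℓ) ↔ x ∈ node D ℓ z ∧ ℓ ∉ x := by
  simp only [mem_node]
  constructor
  · rintro ⟨h1, h2⟩
    exact ⟨⟨h1, fun t ht => (h2 t (by omega)).trans (agree_erase ℓ z t ht)⟩,
      fun h => by simpa using (h2 ℓ (by omega)).1 h⟩
  · rintro ⟨⟨h1, h2⟩, h3⟩
    refine ⟨h1, fun t ht => ?_⟩
    rcases Nat.lt_succ_iff_lt_or_eq.1 ht with h | rfl
    · exact (h2 t h).trans (agree_erase ℓ z t h).symm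
    · simp [h3]

lemma sum_node_split (D ℓ : ℕ) (z : Finset ℕ) (f : Finset ℕ → ℝ) :
    ∑ x ∈ node D ℓ z, f x =
      ∑ x ∈ node D (ℓ + 1) (insert ℓ z), f x + ∑ x ∈ node D (ℓ + 1) (z.erase ℓ), f x := by
  rw [← sum_filter_add_sum_filter_not (node D ℓ z) (fun x => ℓ ∈ x)]
  congr 1
  · apply sum_congr _ (fun _ _ => rfl)
    ext x; rw [mem_filter, mem_node_insert]
  · apply sum_congr _ (fun _ _ => rfl)
    ext x; rw [mem_filter, mem_node_erase]

lemma avg_split {D ℓ : ℕ} (h : ℓ < D) (z : Finset ℕ) (f : Finset ℕ → ℝ) :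
    avg D ℓ z f = (avg D (ℓ + 1) (insert ℓ z) f + avg D (ℓ + 1) (z.erase ℓ) f) / 2 := by
  unfold avg
  rw [sum_node_split, show D - ℓ = (D - (ℓ + 1)) + 1 by omega, pow_succ]
  field_simp

lemma avg_congr {D ℓ : ℕ} {z : Finset ℕ} {f g : Finset ℕ → ℝ}
    (h : ∀ x ∈ node D ℓ z, f x = g x) : avg D ℓ z f = avg D ℓ z g := by
  unfold avg; rw [sum_congr rfl h]

lemma avg_mono {D ℓ : ℕ} {z : Finset ℕ} {f g : Finset ℕ → ℝ}
    (h : ∀ x ∈ node D ℓ z, f x ≤ g x) : avg D ℓ z f ≤ avg D ℓ z g := by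
  unfold avg; exact div_le_div_of_nonneg_right (sum_le_sum h) (by positivity)

lemma avg_add (D ℓ : ℕ) (z : Finset ℕ) (f g : Finset ℕ → ℝ) :
    avg D ℓ z (fun x => f x + g x) = avg D ℓ z f + avg D ℓ z g := by
  unfold avg; rw [sum_add_distrib, add_div]

lemma avg_mul (D ℓ : ℕ) (z : Finset ℕ) (c : ℝ) (f : Finset ℕ → ℝ) :
    avg D ℓ z (fun x => c * f x) = c * avg D ℓ z f := by
  unfold avg; rw [← mul_sum, mul_div_assoc]

lemma avg_zero (D ℓ : ℕ) (z : Finset ℕ) : avg D ℓ z (fun _ => 0) = 0 := by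
  simp [avg]

lemma avg_nonneg {D ℓ : ℕ} {z : Finset ℕ} {f : Finset ℕ → ℝ}
    (h : ∀ x ∈ node D ℓ z, 0 ≤ f x) : 0 ≤ avg D ℓ z f := by
  rw [← avg_zero D ℓ z]; exact avg_mono h

lemma avg_node_congr {D ℓ : ℕ} {z z' : Finset ℕ} (h : ∀ t < ℓ, (t ∈ z ↔ t ∈ z'))
    (f : Finset ℕ → ℝ) : avg D ℓ z f = avg D ℓ z' f := by
  unfold avg; rw [node_congr h]

lemma avg_one_le (D ℓ : ℕ) (z : Finset ℕ) : avg D ℓ z (fun _ => 1) ≤ 1 := by
  unfold avg
  rw [div_le_one (by positivity), sum_const, nsmul_eq_mul, mul_one]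
  have : (node D ℓ z).card ≤ (Ico ℓ D).powerset.card := by
    apply card_le_card_of_injOn (fun x => x.filter (fun t => ℓ ≤ t))
    · intro x hx
      have hx' := (mem_node.1 hx).1
      simp only [coe_powerset, Set.mem_preimage, Set.mem_powerset_iff, coe_subset]
      intro t ht
      rw [mem_filter] at ht
      exact mem_Ico.2 ⟨ht.2, mem_range.1 (hx' ht.1)⟩
    · intro x hx y hy hxy
      ext t
      rcases Nat.lt_or_ge t ℓ with h | h
      · exact ((mem_node.1 hx).2 t h).trans ((mem_node.1 hy).2 t h).symm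
      · have := congrArg (fun s => t ∈ s) hxy
        simpa [h] using this
  rw [card_powerset, Nat.card_Ico] at this
  exact_mod_cast this

/-! ### The function `V` -/

variable {D : ℕ} {a : Finset ℕ → ℕ → M} {G : Finset (Finset ℕ)}

lemma le_V {ℓ : ℕ} {z B : Finset ℕ} {Y : Finset (Finset ℕ)} (h1 : Y ⊆ node D ℓ z) (h2 : Y ⊆ G)
    (h3 : Free a B Y) : Y.card ≤ V D a G ℓ z B := by
  classical
  unfold V
  apply le_sup (f := Finset.card)
  rw [mem_filter, mem_powerset]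
  exact ⟨subset_inter h1 h2, h3⟩

lemma exists_V (ℓ : ℕ) (z B : Finset ℕ) : ∃ Y, Y ⊆ node D ℓ z ∧ Y ⊆ G ∧ Free a B Y ∧
    Y.card = V D a G ℓ z B := by
  classical
  unfold V
  obtain ⟨Y, hY, he⟩ := exists_mem_eq_sup ((node D ℓ z ∩ G).powerset.filter (Free a B))
    ⟨∅, mem_filter.2 ⟨mem_powerset.2 (empty_subset _), fun y hy => absurd hy (notMem_empty y)⟩⟩
    Finset.card
  rw [mem_filter, mem_powerset] at hY
  exact ⟨Y, hY.1.trans inter_subset_left, hY.1.trans inter_subset_right, hY.2, he.symm⟩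

lemma Free.mono {B B' : Finset ℕ} {Y : Finset (Finset ℕ)} (h : Free a B' Y) (hB : B ⊆ B') :
    Free a B Y := fun y hy => by
  obtain ⟨φ, h1, h2⟩ := h y hy
  exact ⟨φ, fun s hs => h1 s (hB hs), h2⟩

lemma V_mono {ℓ ℓ' : ℕ} {z z' B B' : Finset ℕ} (h : node D ℓ' z' ⊆ node D ℓ z) (hB : B ⊆ B') :
    V D a G ℓ' z' B' ≤ V D a G ℓ z B := by
  obtain ⟨Y, h1, h2, h3, h4⟩ := exists_V (D := D) (a := a) (G := G) ℓ' z' B'
  rw [← h4]
  exact le_V (h1.trans h) h2 (h3.mono hB)

lemma V_congr {ℓ : ℕ} {z z' : Finset ℕ} (h : ∀ t < ℓ, (t ∈ z ↔ t ∈ z')) (B : Finset ℕ) :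
    V D a G ℓ z B = V D a G ℓ z' B := by
  unfold V; rw [node_congr h]

lemma IsLca.unique {x y : Finset ℕ} {s t : ℕ} (hs : IsLca x y s) (ht : IsLca x y t) : s = t := by
  rcases lt_trichotomy s t with h | h | h
  · exact absurd (ht.1 s h) hs.2
  · exact h
  · exact absurd (hs.1 t h) ht.2

lemma IsLca.symm {x y : Finset ℕ} {t : ℕ} (h : IsLca x y t) : IsLca y x t :=
  ⟨fun s hs => (h.1 s hs).symm, fun h' => h.2 h'.symm⟩

lemma lca_children {ℓ : ℕ} {z x y : Finset ℕ} (hx : x ∈ node D (ℓ + 1) (insert ℓ z))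
    (hy : y ∈ node D (ℓ + 1) (z.erase ℓ)) : IsLca x y ℓ := by
  rw [mem_node_insert] at hx
  rw [mem_node_erase] at hy
  exact ⟨fun s hs => ((mem_node.1 hx.1).2 s hs).trans ((mem_node.1 hy.1).2 s hs).symm,
    fun h => hy.2 (h.1 hx.2)⟩

lemma V_split (ℓ : ℕ) (z B : Finset ℕ) :
    V D a G (ℓ + 1) (insert ℓ z) (insert ℓ B) + V D a G (ℓ + 1) (z.erase ℓ) (insert ℓ B) ≤
      V D a G ℓ z B := by
  classical
  obtain ⟨Y, h1, h2, h3, h4⟩ := exists_V (D := D) (a := a) (G := G) (ℓ + 1) (insert ℓ z)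
    (insert ℓ B)
  obtain ⟨Y', h1', h2', h3', h4'⟩ := exists_V (D := D) (a := a) (G := G) (ℓ + 1) (z.erase ℓ)
    (insert ℓ B)
  have hd : Disjoint Y Y' := by
    rw [disjoint_left]
    intro x hx hx'
    exact (lca_children (h1 hx) (h1' hx')).2 Iff.rfl
  rw [← h4, ← h4', ← card_union_of_disjoint hd]
  apply le_V
  · exact union_subset (h1.trans (node_succ_subset (agree_insert ℓ z)))
      (h1'.trans (node_succ_subset (agree_erase ℓ z)))
  · exact union_subset h2 h2'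
  · intro y hy
    rcases mem_union.1 hy with hy | hy
    · obtain ⟨φ, p1, p2⟩ := h3 y hy
      refine ⟨φ, fun s hs => p1 s (mem_insert_of_mem hs), fun y' hy' t ht => ?_⟩
      rcases mem_union.1 hy' with hy' | hy'
      · exact p2 y' hy' t ht
      · rw [ht.unique (lca_children (h1 hy) (h1' hy'))]
        exact p1 ℓ (mem_insert_self _ _)
    · obtain ⟨φ, p1, p2⟩ := h3' y hy
      refine ⟨φ, fun s hs => p1 s (mem_insert_of_mem hs), fun y' hy' t ht => ?_⟩
      rcases mem_union.1 hy' with hy' | hy'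
      · rw [ht.unique (lca_children (h1 hy') (h1' hy)).symm]
        exact p1 ℓ (mem_insert_self _ _)
      · exact p2 y' hy' t ht

lemma one_le_V {ℓ : ℕ} {z B y : Finset ℕ} (h1 : y ∈ node D ℓ z) (h2 : y ∈ G)
    (φ : M →ₗ[ℝ] ℝ) (h3 : ∀ s ∈ B, φ (a y s) < 0) : 1 ≤ V D a G ℓ z B := by
  have := le_V (D := D) (a := a) (G := G) (ℓ := ℓ) (z := z) (B := B) (Y := {y})
    (by simpa using h1) (by simpa using h2) (by
      intro x hx
      rw [mem_singleton] at hx
      subst hx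
      refine ⟨φ, h3, fun y' hy' t ht => ?_⟩
      rw [mem_singleton] at hy'
      subst hy'
      exact absurd Iff.rfl ht.2)
  simpa using this

lemma V_lt {n : ℕ} (hF : ∀ Y ⊆ G, Free a ∅ Y → Y.card < n) (ℓ : ℕ) (z B : Finset ℕ) :
    V D a G ℓ z B < n := by
  obtain ⟨Y, _, h2, h3, h4⟩ := exists_V (D := D) (a := a) (G := G) ℓ z B
  rw [← h4]
  exact hF Y h2 (h3.mono (empty_subset _))

/-! ### Witnesses -/

lemma Wit.mono {a : ℕ → M} {B B' W W' : Finset ℕ} {φ : M →ₗ[ℝ] ℝ} (h : Wit a B' W' φ)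
    (hB : B ⊆ B') (hW : W ⊆ W') : Wit a B W φ :=
  ⟨fun s hs => h.1 s (hW hs), fun s hs => h.2 s (hB hs)⟩

lemma Meets.mono {a : ℕ → M} {B B' W W' : Finset ℕ} (h : Meets a B' W')
    (hB : B ⊆ B') (hW : W ⊆ W') : Meets a B W := by
  obtain ⟨φ, hφ⟩ := h
  exact ⟨φ, hφ.mono hB hW⟩

lemma cnt_eq_sum (a : ℕ → M) (B Z : Finset ℕ) (ℓ D j : ℕ) :
    cnt a B Z ℓ D j = ∑ J ∈ powersetCard j (Ico ℓ D), ind (Meets a B (Z ∪ J)) := by
  classical
  unfold cnt ind
  rw [card_filter]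
  push_cast
  rfl

lemma cnt_nonneg (a : ℕ → M) (B Z : Finset ℕ) (ℓ D j : ℕ) : 0 ≤ cnt a B Z ℓ D j := by
  unfold cnt; positivity

lemma cntp_nonneg (a : ℕ → M) (B Z : Finset ℕ) (ℓ D j : ℕ) : 0 ≤ cntp a B Z ℓ D j := by
  cases j
  · exact le_rfl
  · exact cnt_nonneg _ _ _ _ _ _

lemma cnt_mono (a : ℕ → M) {B B' : Finset ℕ} (h : B ⊆ B') (Z : Finset ℕ) (ℓ D j : ℕ) :
    cnt a B' Z ℓ D j ≤ cnt a B Z ℓ D j := by
  rw [cnt_eq_sum, cnt_eq_sum]
  exact sum_le_sum fun J _ => ind_mono fun hJ => hJ.mono h le_rfl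

lemma cnt_le (a : ℕ → M) (B Z : Finset ℕ) (ℓ D j : ℕ) :
    cnt a B Z ℓ D j ≤ ((D : ℝ) + 1) ^ j := by
  classical
  unfold cnt
  have h1 := card_filter_le (powersetCard j (Ico ℓ D)) (fun J => Meets a B (Z ∪ J))
  rw [card_powersetCard, Nat.card_Ico] at h1
  have h2 := Nat.choose_le_pow (D - ℓ) j
  have h3 : (D - ℓ) ^ j ≤ (D + 1) ^ j := Nat.pow_le_pow_left (by omega) j
  exact_mod_cast h1.trans (h2.trans h3)

end Pool.Agent.MP_d7dd47_co.H62

end

-- part MP_d7dd47_co.H62.Embed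
section

namespace Pool.Agent.MP_d7dd47_co.H62

open Finset Module Classical Function

lemma card_invol {A : Type*} [Fintype A] (e : A → A) (he : Involutive e) (P : A → Prop) :
    (univ.filter fun p => P (e p)).card = (univ.filter P).card := by
  apply card_bij' (fun p _ => e p) (fun p _ => e p)
  · intro p hp; simpa using hp
  · intro p hp; simpa [he p] using hp
  · intro p _; exact he p
  · intro p _; exact he p

lemma card_filter_prod {A B : Type*} [Fintype A] [Fintype B] (P : A × B → Prop) :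
    (univ.filter P).card = ∑ a, (univ.filter fun b => P (a, b)).card := by
  simp only [card_filter]
  rw [Fintype.sum_prod_type]

lemma count_coord {α β : Type*} [Fintype α] [DecidableEq α] [Fintype β] (t : α)
    (Bad : (α → β × β) → Prop) (K : ℕ)
    (h : ∀ σ : α → β × β, (univ.filter fun κ => Bad (update σ t ((σ t).1, κ))).card ≤ K) :
    (univ.filter Bad).card * Fintype.card β ≤ K * Fintype.card (α → β × β) := by
  have h1 := card_invol (A := (α → β × β) × β) (fun p => (update p.1 t ((p.1 t).1, p.2), (p.1 t).2))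
    (fun p => by simp) (fun p => Bad p.1)
  rw [card_filter_prod, card_filter_prod] at h1
  have h2 : ∑ σ : α → β × β, (univ.filter fun _ : β => Bad σ).card =
      (univ.filter Bad).card * Fintype.card β := by
    rw [card_filter, sum_mul]
    apply sum_congr rfl
    intro σ _
    by_cases hσ : Bad σ <;> simp [hσ]
  rw [← h2, ← h1, mul_comm, ← smul_eq_mul, ← card_univ, ← sum_const]
  exact sum_le_sum fun σ _ => h σ

lemma embed {D : ℕ} {β : Type*} [Fintype β] [Nonempty β] (Good : (Fin D → β × β) → Prop)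
    (h : Fintype.card (Fin D → β × β) ≤ 2 * (univ.filter Good).card) :
    ∃ e : Finset ℕ → Fin D → β × β, (∀ y y' (t : Fin D), (∀ s < (t : ℕ), (s ∈ y ↔ s ∈ y')) →
      (((t : ℕ) ∈ y ↔ (t : ℕ) ∈ y') → e y' t = e y t) ∧
      (¬ ((t : ℕ) ∈ y ↔ (t : ℕ) ∈ y') → e y' t = (e y t).swap)) ∧
      2 ^ D ≤ 2 * ((range D).powerset.filter fun y => Good (e y)).card := by
  let code : Finset ℕ → Fin D → Finset (Fin D) := fun y t =>
    univ.filter fun s => (s : ℕ) < t ∧ (s : ℕ) ∈ y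
  let tw : Finset ℕ → Fin D → β × β → β × β := fun y t p => if (t : ℕ) ∈ y then p else p.swap
  have htw : ∀ y t p, tw y t (tw y t p) = p := by
    intro y t p
    simp only [tw]
    split_ifs <;> simp
  let e : (Fin D → Finset (Fin D) → β × β) → Finset ℕ → Fin D → β × β := fun τ y t =>
    tw y t (τ t (code y t))
  have h1 : ∀ y, Fintype.card (Fin D → Finset (Fin D) → β × β) ≤
      2 * (univ.filter fun τ => Good (e τ y)).card := by
    intro y
    have h2 := card_invol (A := (Fin D → Finset (Fin D) → β × β) × (Fin D → β × β))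
      (fun p => (fun t => update (p.1 t) (code y t) (tw y t (p.2 t)), e p.1 y))
      (fun p => by
        ext1
        · funext t; simp [e, htw]
        · funext t; simp [e, htw]) (fun p => Good p.2)
    rw [card_filter_prod, card_filter_prod] at h2
    have h3 : ∑ τ : Fin D → Finset (Fin D) → β × β,
        (univ.filter fun _ : Fin D → β × β => Good (e τ y)).card =
        (univ.filter fun τ => Good (e τ y)).card * Fintype.card (Fin D → β × β) := by
      rw [card_filter, sum_mul]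
      apply sum_congr rfl
      intro τ _
      by_cases hτ : Good (e τ y) <;> simp [hτ]
    simp only [sum_const, card_univ, smul_eq_mul] at h2
    apply Nat.le_of_mul_le_mul_right _ (Fintype.card_pos (α := Fin D → β × β))
    rw [mul_assoc, ← h3, h2, mul_left_comm]
    exact Nat.mul_le_mul_left _ h
  obtain ⟨τ, hτ⟩ : ∃ τ, 2 ^ D ≤ 2 * ((range D).powerset.filter fun y => Good (e τ y)).card := by
    by_contra hn
    push Not at hn
    have a1 := sum_lt_sum_of_nonempty (univ_nonempty (α := Fin D → Finset (Fin D) → β × β))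
      (fun τ _ => hn τ)
    have a2 := sum_le_sum (s := (range D).powerset) (fun y _ => h1 y)
    rw [sum_const, card_powerset, card_range, smul_eq_mul, ← mul_sum] at a2
    rw [sum_const, card_univ, smul_eq_mul, ← mul_sum] at a1
    simp only [card_filter] at a1 a2
    rw [sum_comm] at a1
    rw [mul_comm (2 ^ D)] at a2
    omega
  refine ⟨e τ, fun y y' t hy => ?_, hτ⟩
  have hc : code y' t = code y t := by
    ext s
    simp only [code, mem_filter, mem_univ, true_and]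
    exact and_congr_right fun hs => (hy s hs).symm
  simp only [e, hc, tw]
  constructor
  · intro h'
    simp only [h']
  · intro h'
    by_cases h1 : (t : ℕ) ∈ y
    · rw [if_pos h1, if_neg (fun h2 => h' (iff_of_true h1 h2))]
    · rw [if_neg h1, if_pos (by by_contra h2; exact h' (iff_of_false h1 h2)), Prod.swap_swap]

/-- Extension of a finite sequence. -/
def ex {D : ℕ} {β : Type*} (b : β) (σ : Fin D → β) (t : ℕ) : β :=
  if h : t < D then σ ⟨t, h⟩ else b

lemma ex_val {D : ℕ} {β : Type*} (b : β) (σ : Fin D → β) (t : Fin D) : ex b σ t = σ t := by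
  simp [ex]

lemma ex_update {D : ℕ} {β : Type*} (b : β) (σ : Fin D → β) (t0 : Fin D) (p : β) :
    ex b (update σ t0 p) = update (ex b σ) t0 p := by
  funext t
  by_cases h : t = t0
  · rw [h, ex_val, update_self, update_self]
  · rw [update_of_ne h]
    unfold ex
    split_ifs with ht
    · exact update_of_ne (fun h' => h (congrArg Fin.val h')) _ _
    · rfl

variable {d : ℕ} {ι : Type*}

/-- The cell of level `t` along a path. -/
def cell (ch : Finset (E d) → ι → Finset (E d)) (X : Finset (E d)) (ρ : ℕ → ι × ι) :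
    ℕ → Finset (E d)
  | 0 => X
  | t + 1 => ch (cell ch X ρ t) (ρ t).1

/-- The sibling cell. -/
def sib (ch : Finset (E d) → ι → Finset (E d)) (X : Finset (E d)) (ρ : ℕ → ι × ι) (t : ℕ) :
    Finset (E d) := ch (cell ch X ρ t) (ρ t).2

variable {ch : Finset (E d) → ι → Finset (E d)} {X : Finset (E d)}

lemma cell_congr {ρ ρ' : ℕ → ι × ι} {t : ℕ} (h : ∀ s < t, (ρ s).1 = (ρ' s).1) :
    cell ch X ρ t = cell ch X ρ' t := by
  induction t with
  | zero => rfl
  | succ t ih => simp only [cell]; rw [ih fun s hs => h s (by omega), h t (by omega)]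

lemma cell_anti (hch : ∀ A κ, ch A κ ⊆ A) (ρ : ℕ → ι × ι) {s t : ℕ} (h : s ≤ t) :
    cell ch X ρ t ⊆ cell ch X ρ s := by
  induction t, h using Nat.le_induction with
  | base => exact le_rfl
  | succ t _ ih => exact (hch _ _).trans ih

lemma cell_update (ρ : ℕ → ι × ι) (t0 : ℕ) (κ : ι) (t : ℕ) :
    cell ch X (update ρ t0 ((ρ t0).1, κ)) t = cell ch X ρ t := by
  apply cell_congr
  intro s _
  by_cases h : s = t0
  · rw [h, update_self]
  · rw [update_of_ne h]

lemma li_of_gp (hX : GP X) {x : E d} (hx : x ∈ X) {κ : Type} [Fintype κ] (o : κ → E d)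
    (ho : ∀ i, o i ∈ X) (hi : Injective o) (hne : ∀ i, o i ≠ x) (hc : Fintype.card κ ≤ d) :
    LinearIndependent ℝ (fun i => o i - x) := by
  have hT := hX (insert x (univ.image o)) (insert_subset hx fun y hy => by
    obtain ⟨i, -, rfl⟩ := mem_image.1 hy
    exact ho i) ((card_insert_le _ _).trans (Nat.succ_le_succ (card_image_le.trans hc)))
  have h1 := (affineIndependent_iff_linearIndependent_vsub ℝ _ ⟨x, mem_insert_self _ _⟩).1 hT
  exact h1.comp (fun i => ⟨⟨o i, mem_insert_of_mem (mem_image_of_mem _ (mem_univ i))⟩,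
    fun h => hne i (congrArg Subtype.val h)⟩)
    (fun i j h => hi (congrArg (fun z => z.1.1) h))

lemma exists_lca {D : ℕ} {y y' : Finset ℕ} (h1 : y ⊆ range D) (h2 : y' ⊆ range D) (h : y ≠ y') :
    ∃ t < D, IsLca y y' t := by
  have hex : ∃ t, ¬ (t ∈ y ↔ t ∈ y') := by
    by_contra hn
    push Not at hn
    exact h (Finset.ext hn)
  refine ⟨Nat.find hex, ?_, fun s hs => not_not.1 (Nat.find_min hex hs), Nat.find_spec hex⟩
  by_contra hn
  exact Nat.find_spec hex (iff_of_false (fun h' => hn (mem_range.1 (h1 h')))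
    (fun h' => hn (mem_range.1 (h2 h'))))

lemma num_bound {d L D n : ℕ} (hd : 1 ≤ d) (hD : D ≤ 2 ^ L) (hn : n ≤ 2 ^ L) :
    2 * (D + D ^ d * d * (n ^ d * d ^ (d * (2 * d * L + d + 2)))) ≤
      (d + 1) ^ (d * (2 * d * L + d + 2)) := by
  have h1 : 2 * d ^ d ≤ (d + 1) ^ d := by
    obtain ⟨k, rfl⟩ : ∃ k, d = k + 1 := ⟨d - 1, by omega⟩
    have := pow_add_mul_le_add_pow (a := k + 1) (b := 1) (Nat.zero_le _) (Nat.zero_le _) (k + 1)
    rw [Nat.cast_id, Nat.add_sub_cancel, mul_one, ← pow_succ'] at this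
    omega
  have h2 : (2 * d ^ d) ^ (2 * d * L + d + 2) ≤ ((d + 1) ^ d) ^ (2 * d * L + d + 2) :=
    Nat.pow_le_pow_left h1 _
  rw [← pow_mul, mul_pow, ← pow_mul] at h2
  refine le_trans ?_ h2
  have h3 : 1 ≤ d ^ (d * (2 * d * L + d + 2)) := Nat.one_le_pow _ _ hd
  generalize d ^ (d * (2 * d * L + d + 2)) = N at *
  have h4 : D ^ d * d * n ^ d ≤ 2 ^ (2 * d * L + d) := by
    calc D ^ d * d * n ^ d ≤ (2 ^ L) ^ d * 2 ^ d * (2 ^ L) ^ d := by
          gcongr
          exact Nat.lt_two_pow_self.le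
      _ = _ := by rw [← pow_mul, ← pow_add, ← pow_add]; congr 1; ring
  have h5 : D ≤ 2 ^ (2 * d * L + d) :=
    hD.trans (Nat.pow_le_pow_right (by norm_num) (by nlinarith))
  have h6 : D ≤ 2 ^ (2 * d * L + d) * N := h5.trans (Nat.le_mul_of_pos_right _ h3)
  have h7 := Nat.mul_le_mul_right N h4
  rw [pow_add _ _ 2]
  nlinarith

lemma exists_child (hd : 1 ≤ d) : ∃ c : ℕ, 1 ≤ c ∧ ∀ j : ℕ,
    ∃ ch : Finset (E d) → Fin ((d + 1) ^ j) → Finset (E d), (∀ A κ, ch A κ ⊆ A) ∧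
      (∀ A κ κ', κ ≠ κ' → Disjoint (ch A κ) (ch A κ')) ∧
      (∀ A m, GP A → c ^ j * m ≤ A.card → ∀ κ, m ≤ (ch A κ).card) ∧
      ∀ A (g : Aff d), (∃ p, g p ≠ 0) → (univ.filter fun κ => ¬ SD g (ch A κ)).card ≤ d ^ j := by
  obtain ⟨c, hc, h⟩ := cells hd
  refine ⟨c, hc, fun j => ?_⟩
  have hpos : 0 < c ^ j := by positivity
  have key : ∀ A : Finset (E d), ∃ P : Fin ((d + 1) ^ j) → Finset (E d), (∀ κ, P κ ⊆ A) ∧
      (∀ κ κ', κ ≠ κ' → Disjoint (P κ) (P κ')) ∧
      (∀ m, GP A → c ^ j * m ≤ A.card → ∀ κ, m ≤ (P κ).card) ∧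
      ∀ (g : Aff d), (∃ p, g p ≠ 0) → (univ.filter fun κ => ¬ SD g (P κ)).card ≤ d ^ j := by
    intro A
    by_cases hA : GP A ∧ 1 ≤ A.card / c ^ j
    · obtain ⟨P, p1, p2, p3⟩ := h j A _ hA.1 hA.2 (Nat.mul_div_le _ _)
      exact ⟨P, fun κ => (p1 κ).1, p2, fun m _ hm κ =>
        ((Nat.le_div_iff_mul_le hpos).2 (by rwa [mul_comm])).trans (p1 κ).2, p3⟩
    · refine ⟨fun _ => ∅, fun _ => empty_subset _, fun _ _ _ => disjoint_empty_left _,
        fun m h1 hm κ => ?_, fun g _ => by simp [SD]⟩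
      have h2 : m ≤ A.card / c ^ j := (Nat.le_div_iff_mul_le hpos).2 (by rwa [mul_comm])
      have h3 : ¬ 1 ≤ A.card / c ^ j := fun h' => hA ⟨h1, h'⟩
      omega
  choose ch h1 h2 h3 h4 using key
  exact ⟨ch, h1, h2, h3, h4⟩

/-- Good paths. -/
def GoodP (ch : Finset (E d) → ι → Finset (E d)) (X : Finset (E d)) (rep : Finset (E d) → E d)
    (U : Finset (E d) → Finset (E d)) (D : ℕ) (ρ : ℕ → ι × ι) : Prop :=
  (∀ t < D, (ρ t).1 ≠ (ρ t).2) ∧ ∀ (s : Fin d → Fin D), Injective s → ∀ (i : Fin d)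
    (v : Fin d → E d), (∀ j, j < i → v j ∈ U (sib ch X ρ (s j))) → v i = 0 →
    (∀ j, i < j → v j = rep (sib ch X ρ (s j))) → (∃ p, gA (rep (cell ch X ρ D)) v i p ≠ 0) →
    SD (gA (rep (cell ch X ρ D)) v i) (sib ch X ρ (s i))

/-- Test tuples. -/
noncomputable def tup (ch : Finset (E d) → ι → Finset (E d)) (X : Finset (E d))
    (rep : Finset (E d) → E d) (U : Finset (E d) → Finset (E d)) {D : ℕ} (s : Fin d → Fin D)
    (i : Fin d) (ρ : ℕ → ι × ι) : Finset (Fin d → E d) :=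
  Fintype.piFinset fun j => if j < i then U (sib ch X ρ (s j)) else
    if j = i then {0} else {rep (sib ch X ρ (s j))}

def BadP (ch : Finset (E d) → ι → Finset (E d)) (X : Finset (E d)) (rep : Finset (E d) → E d)
    (U : Finset (E d) → Finset (E d)) {D : ℕ} (s : Fin d → Fin D) (i : Fin d) (ρ : ℕ → ι × ι) :
    Prop :=
  Injective s ∧ ∃ v ∈ tup ch X rep U s i ρ, (∃ p, gA (rep (cell ch X ρ D)) v i p ≠ 0) ∧
    ¬ SD (gA (rep (cell ch X ρ D)) v i) (sib ch X ρ (s i))

def EqP (t : ℕ) (ρ : ℕ → ι × ι) : Prop := (ρ t).1 = (ρ t).2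

lemma count_bad {D n K : ℕ} [Fintype ι] (rep : Finset (E d) → E d)
    (U : Finset (E d) → Finset (E d)) (hn : 1 ≤ n) (hch : ∀ A κ, ch A κ ⊆ A)
    (hU : ∀ A ⊆ X, (U A).card ≤ n)
    (hK : ∀ A (g : Aff d), (∃ p, g p ≠ 0) → (univ.filter fun κ => ¬ SD g (ch A κ)).card ≤ K)
    (s : Fin d → Fin D) (i : Fin d) (ρ : ℕ → ι × ι) :
    (univ.filter fun κ => BadP ch X rep U s i (update ρ (s i) ((ρ (s i)).1, κ))).card ≤
      n ^ d * K := by
  have hT : (tup ch X rep U s i ρ).card ≤ n ^ d := by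
    rw [tup, Fintype.card_piFinset]
    refine (prod_le_pow_card _ _ n fun j _ => ?_).trans (by simp)
    split_ifs
    · exact hU _ ((hch _ _).trans (cell_anti hch _ (Nat.zero_le _)))
    · simpa using hn
    · simpa using hn
  have hsub : (univ.filter fun κ => BadP ch X rep U s i (update ρ (s i) ((ρ (s i)).1, κ))) ⊆
      ((tup ch X rep U s i ρ).filter fun v => ∃ p, gA (rep (cell ch X ρ D)) v i p ≠ 0).biUnion
      fun v => univ.filter fun κ =>
        ¬ SD (gA (rep (cell ch X ρ D)) v i) (ch (cell ch X ρ (s i)) κ) := by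
    intro κ hκ
    obtain ⟨hs, v, h1, h2, h3⟩ := (mem_filter.1 hκ).2
    rw [cell_update] at h2
    rw [sib, cell_update, cell_update, update_self] at h3
    refine mem_biUnion.2 ⟨v, mem_filter.2 ⟨?_, h2⟩, mem_filter.2 ⟨mem_univ _, h3⟩⟩
    have : tup ch X rep U s i (update ρ (s i) ((ρ (s i)).1, κ)) = tup ch X rep U s i ρ := by
      unfold tup
      congr 1
      funext j
      by_cases hj : j = i
      · simp [hj]
      · have : ((s j : Fin D) : ℕ) ≠ s i := fun h => hj (hs (Fin.ext h))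
        simp only [sib, cell_update, update_of_ne this]
    rwa [this] at h1
  refine (card_le_card hsub).trans ?_
  refine (card_biUnion_le_card_mul _ _ K fun v hv => hK _ _ (mem_filter.1 hv).2).trans ?_
  exact Nat.mul_le_mul_right _ ((card_filter_le _ _).trans hT)

/-- Most paths are good. -/
lemma count_good {D n K : ℕ} [Fintype ι] (b : ι × ι) (rep : Finset (E d) → E d)
    (U : Finset (E d) → Finset (E d)) (hn : 1 ≤ n) (hch : ∀ A κ, ch A κ ⊆ A)
    (hU : ∀ A ⊆ X, (U A).card ≤ n)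
    (hK : ∀ A (g : Aff d), (∃ p, g p ≠ 0) → (univ.filter fun κ => ¬ SD g (ch A κ)).card ≤ K)
    (hnum : 2 * (D + D ^ d * d * (n ^ d * K)) ≤ Fintype.card ι) :
    Fintype.card (Fin D → ι × ι) ≤
      2 * (univ.filter fun σ : Fin D → ι × ι => GoodP ch X rep U D (ex b σ)).card := by
  have c1 : ∀ t : Fin D, (univ.filter fun σ : Fin D → ι × ι => EqP t (ex b σ)).card *
      Fintype.card ι ≤ 1 * Fintype.card (Fin D → ι × ι) := by
    intro t
    apply count_coord t
    intro σ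
    rw [card_le_one]
    intro κ h1 κ' h2
    simp only [EqP, mem_filter, mem_univ, true_and, ex_val, update_self] at h1 h2
    rw [← h1, ← h2]
  have c2 : ∀ q : (Fin d → Fin D) × Fin d, (univ.filter fun σ : Fin D → ι × ι =>
      BadP ch X rep U q.1 q.2 (ex b σ)).card * Fintype.card ι ≤
      n ^ d * K * Fintype.card (Fin D → ι × ι) := by
    rintro ⟨s, i⟩
    apply count_coord (s i)
    intro σ
    simp only [ex_update, ← ex_val b σ (s i)]
    exact count_bad rep U hn hch hU hK s i _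
  have c3 : (univ.filter fun σ : Fin D → ι × ι => ¬ GoodP ch X rep U D (ex b σ)) ⊆
      (univ.biUnion fun t : Fin D => univ.filter fun σ => EqP t (ex b σ)) ∪
      univ.biUnion fun q : (Fin d → Fin D) × Fin d =>
        univ.filter fun σ => BadP ch X rep U q.1 q.2 (ex b σ) := by
    intro σ hσ
    have h := (mem_filter.1 hσ).2
    simp only [GoodP, not_and_or, not_forall, not_not] at h
    rcases h with ⟨t, ht, h⟩ | ⟨s, hs, i, v, h1, h2, h3, h4, h5⟩
    · exact mem_union_left _ (mem_biUnion.2 ⟨⟨t, ht⟩, mem_univ _, mem_filter.2 ⟨mem_univ _, h⟩⟩)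
    · refine mem_union_right _ (mem_biUnion.2 ⟨(s, i), mem_univ _,
        mem_filter.2 ⟨mem_univ _, hs, v, Fintype.mem_piFinset.2 fun j => ?_, h4, h5⟩⟩)
      rcases lt_trichotomy j i with h | h | h
      · rw [if_pos h]; exact h1 j h
      · rw [if_neg (by rw [h]; exact lt_irrefl _), if_pos h, h, h2]; exact mem_singleton_self _
      · rw [if_neg (not_lt.2 h.le), if_neg h.ne', h3 j h]; exact mem_singleton_self _
  have c4 := (card_le_card c3).trans ((card_union_le _ _).trans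
    (Nat.add_le_add card_biUnion_le card_biUnion_le))
  have c5 := Nat.mul_le_mul_right (Fintype.card ι) c4
  rw [add_mul, sum_mul, sum_mul] at c5
  have c6 := c5.trans (Nat.add_le_add (sum_le_sum fun t _ => c1 t) (sum_le_sum fun q _ => c2 q))
  simp only [sum_const, card_univ, smul_eq_mul, Fintype.card_prod (Fin d → Fin D) (Fin d),
    Fintype.card_fun (α := Fin d) (β := Fin D), Fintype.card_fin] at c6
  have c7 := card_filter_add_card_filter_not (s := univ)
    (fun σ : Fin D → ι × ι => GoodP ch X rep U D (ex b σ))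
  rw [card_univ] at c7
  have c8 := Nat.mul_le_mul_right (Fintype.card (Fin D → ι × ι)) hnum
  have hι : 0 < Fintype.card ι := Fintype.card_pos_iff.2 ⟨b.1⟩
  have c9 : 2 * (univ.filter fun σ : Fin D → ι × ι => ¬ GoodP ch X rep U D (ex b σ)).card ≤
      Fintype.card (Fin D → ι × ι) := by
    apply Nat.le_of_mul_le_mul_left _ hι
    nlinarith
  omega

theorem geom (hd : 1 ≤ d) : ∃ C : ℕ, ∀ (L D n : ℕ) (X : Finset (E d)), 1 ≤ L → d + 1 ≤ D →
    D ≤ 2 ^ L → n ≤ 2 ^ L → GP X → 2 ^ (C * L * D) ≤ X.card →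
    (∀ Y ⊆ X, ConvIndep (Y : Set (E d)) → Y.card < n) →
    ∃ (a : Finset ℕ → ℕ → E d) (G : Finset (Finset ℕ)), (∀ y ∈ G, GI D (a y)) ∧
      G ⊆ (range D).powerset ∧ 2 ^ D ≤ 2 * G.card ∧ ∀ Y ⊆ G, Free a ∅ Y → Y.card < n := by
  obtain ⟨c, hc, hch⟩ := exists_child hd
  refine ⟨c * (d * (3 * d + 2)), fun L D n X hL hD hD2 hn hX hcard hY => ?_⟩
  obtain ⟨j, hj⟩ : ∃ j, j = d * (2 * d * L + d + 2) := ⟨_, rfl⟩
  obtain ⟨ch, h1, h2, h3, h4⟩ := hch j
  have hcj : (c ^ j) ^ D ≤ X.card := by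
    refine le_trans ?_ hcard
    rw [pow_mul 2 _ D, mul_assoc, pow_mul 2 c]
    apply Nat.pow_le_pow_left
    refine (Nat.pow_le_pow_left Nat.lt_two_pow_self.le j).trans
      (Nat.pow_le_pow_right (by positivity) ?_)
    rw [hj, mul_assoc d]
    apply Nat.mul_le_mul_left
    nlinarith
  obtain ⟨rep, hrep⟩ : ∃ rep : Finset (E d) → E d, ∀ A : Finset (E d), A.Nonempty → rep A ∈ A := by
    refine ⟨fun A => if h : A.Nonempty then h.choose else 0, fun A h => ?_⟩
    simp only [dif_pos h]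
    exact h.choose_spec
  choose U u1 u2 u3 using exists_vertices (d := d)
  have hn1 : 1 ≤ n := hY ∅ (empty_subset _) (fun y hy => absurd hy (by simp))
  have hR : 0 < (d + 1) ^ j := by positivity
  let b : Fin ((d + 1) ^ j) × Fin ((d + 1) ^ j) := (⟨0, hR⟩, ⟨0, hR⟩)
  have : Nonempty (Fin ((d + 1) ^ j)) := ⟨b.1⟩
  obtain ⟨e, e1, e2⟩ := embed _ (count_good (X := X) (D := D) b rep U hn1 h1
    (fun A hA => (hY _ ((u1 A).trans hA) (u3 A)).le) h4
    (by rw [Fintype.card_fin, hj]; exact num_bound hd hD2 hn))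
  have size : ∀ (ρ : ℕ → _ × _) (t : ℕ), t ≤ D → (c ^ j) ^ (D - t) ≤ (cell ch X ρ t).card := by
    intro ρ t
    induction t with
    | zero => exact fun _ => hcj
    | succ t ih =>
      intro ht
      apply h3 _ _ (hX.mono (cell_anti h1 ρ (Nat.zero_le t)))
      rw [← pow_succ', show D - (t + 1) + 1 = D - t by omega]
      exact ih (by omega)
  have hx : ∀ ρ, rep (cell ch X ρ D) ∈ cell ch X ρ D := fun ρ =>
    hrep _ (card_pos.1 (lt_of_lt_of_le (by positivity) (size ρ D le_rfl)))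
  have ho : ∀ ρ, ∀ t < D, rep (sib ch X ρ t) ∈ sib ch X ρ t := fun ρ t ht =>
    hrep _ (card_pos.1 (h3 _ 1 (hX.mono (cell_anti h1 ρ (Nat.zero_le t)))
      (le_trans (by rw [mul_one]; exact Nat.le_self_pow (by omega) _) (size ρ t ht.le)) _))
  have hsub : ∀ ρ t, sib ch X ρ t ⊆ cell ch X ρ t := fun ρ t => h1 _ _
  have hdis : ∀ (σ : ℕ → _ × _), (∀ t < D, (σ t).1 ≠ (σ t).2) → ∀ t < D, ∀ t', t < t' →
      ∀ p ∈ sib ch X σ t, p ∉ cell ch X σ t' := by
    intro σ hσ t ht t' htt p hp hp'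
    have := h2 (cell ch X σ t) (σ t).1 (σ t).2 (hσ t ht)
    exact disjoint_left.1 this (cell_anti h1 _ (Nat.succ_le_of_lt htt) hp') hp
  have hli : ∀ (σ : ℕ → _ × _), (∀ t < D, (σ t).1 ≠ (σ t).2) → ∀ (κ : Type) [Fintype κ]
      (s : κ → ℕ), Injective s → (∀ i, s i < D) → Fintype.card κ ≤ d → LinearIndependent ℝ
      (fun i => rep (sib ch X σ (s i)) - rep (cell ch X σ D)) := by
    intro σ hσ κ _ s hs hsD hκ
    apply li_of_gp hX (cell_anti h1 _ (Nat.zero_le D) (hx _)) _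
      (fun i => cell_anti h1 _ (Nat.zero_le _) (hsub _ _ (ho _ _ (hsD i)))) _ _ hκ
    · intro i i' h
      apply hs
      rcases lt_trichotomy (s i) (s i') with h' | h' | h'
      · refine absurd (hsub _ _ (ho _ _ (hsD i'))) (hdis σ hσ _ (hsD i) _ h' _ ?_)
        have := ho σ _ (hsD i)
        rwa [show rep _ = rep _ from h] at this
      · exact h'
      · refine absurd (hsub _ _ (ho _ _ (hsD i))) (hdis σ hσ _ (hsD i') _ h' _ ?_)
        have := ho σ _ (hsD i')
        rwa [← show rep _ = rep _ from h] at this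
    · intro i h
      refine hdis σ hσ _ (hsD i) D (hsD i) _ (ho _ _ (hsD i)) ?_
      rw [h]; exact hx _
  have hlca : ∀ y y' t, t < D → IsLca y y' t →
      rep (cell ch X (ex b (e y')) D) ∈ sib ch X (ex b (e y)) t := by
    intro y y' t ht h
    have a1 : cell ch X (ex b (e y')) t = cell ch X (ex b (e y)) t := by
      apply cell_congr
      intro s hs
      have := (e1 y y' ⟨s, by omega⟩ (fun r hr => h.1 r (lt_trans hr hs))).1 (h.1 s hs)
      rw [← ex_val b (e y'), ← ex_val b (e y)] at this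
      exact congrArg Prod.fst this
    have a2 := (e1 y y' ⟨t, ht⟩ h.1).2 h.2
    rw [← ex_val b (e y'), ← ex_val b (e y)] at a2
    have a3 := cell_anti h1 _ (Nat.succ_le_of_lt ht) (hx (ex b (e y')))
    simp only [cell] at a3
    rw [a1, a2] at a3
    exact a3
  refine ⟨fun y t => rep (sib ch X (ex b (e y)) t) - rep (cell ch X (ex b (e y)) D), _, ?_,
    filter_subset _ _, e2, fun Y hYG hF => ?_⟩
  · intro y hy S hS hc
    exact hli _ (mem_filter.1 hy).2.1 (S : Set ℕ) Subtype.val Subtype.val_injective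
      (fun i => mem_range.1 (hS i.2)) (by simpa using hc)
  · have hYr : ∀ y ∈ Y, y ⊆ range D := fun y hy => mem_powerset.1 (mem_filter.1 (hYG hy)).1
    have hinj : Set.InjOn (fun y => rep (cell ch X (ex b (e y)) D)) Y := by
      intro y hy y' hy' h
      by_contra hne
      obtain ⟨t, ht, hl⟩ := exists_lca (hYr y hy) (hYr y' hy') hne
      refine hdis _ (mem_filter.1 (hYG hy)).2.1 t ht D ht _ (hlca y y' t ht hl) ?_
      rw [← show rep _ = rep _ from h]
      exact hx _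
    rw [← card_image_of_injOn hinj]
    apply hY
    · intro p hp
      obtain ⟨y, -, rfl⟩ := mem_image.1 hp
      exact cell_anti h1 _ (Nat.zero_le D) (hx _)
    · intro p hp
      obtain ⟨y, hy, rfl⟩ := mem_image.1 hp
      obtain ⟨φ, -, hφ⟩ := hF y hy
      obtain ⟨g1, g2⟩ := (mem_filter.1 (hYG hy)).2
      refine realize hD _ (sib ch X (ex b (e y))) (fun t => rep (sib ch X (ex b (e y)) t)) (ho _)
        (fun s hs hsD w hw => ?_) _ φ ?_
      · exact chain _ (fun i => sib ch X (ex b (e y)) (s i)) (fun i => U _) _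
          (fun i => ho _ _ (hsD i)) (fun i => u1 _) (fun i => u2 _)
          (om_ne_zero (hli _ g1 _ s hs hsD (by simp)))
          (g2 (fun i => ⟨s i, hsD i⟩) (fun i i' h => hs (congrArg Fin.val h))) w hw
      · rintro p ⟨hp, hne⟩
        obtain ⟨y', hy', rfl⟩ := mem_image.1 hp
        obtain ⟨t, ht, hl⟩ := exists_lca (hYr y hy) (hYr y' hy') (by rintro rfl; exact hne rfl)
        exact ⟨t, ht, hlca y y' t ht hl, hφ y' hy' t hl⟩

end Pool.Agent.MP_d7dd47_co.H62

end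

-- part MP_d7dd47_co.H62.LinAlg
section

namespace Pool.Agent.MP_d7dd47_co.H62

open Finset Module Filter Topology

variable {M : Type*} [AddCommGroup M] [Module ℝ M] {D : ℕ} {a : ℕ → M}

lemma GI.exists_fun (h : GI D a) {S : Finset ℕ} (hS : S ⊆ range D) (hc : S.card ≤ finrank ℝ M)
    (c : ℕ → ℝ) : ∃ ψ : M →ₗ[ℝ] ℝ, ∀ s ∈ S, ψ (a s) = c s := by
  have hli : LinearIndependent ℝ (fun s : (S : Set ℕ) => a s) := h S hS hc
  obtain ⟨g, hg⟩ := LinearMap.exists_leftInverse_of_injective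
    (Finsupp.linearCombination ℝ (fun s : (S : Set ℕ) => a s)) (LinearMap.ker_eq_bot.2 hli)
  refine ⟨Finsupp.linearCombination ℝ (fun s : (S : Set ℕ) => c s) ∘ₗ g, fun s hs => ?_⟩
  have := LinearMap.congr_fun hg (Finsupp.single ⟨s, hs⟩ 1)
  simp only [LinearMap.comp_apply, Finsupp.linearCombination_single, one_smul,
    LinearMap.id_apply] at this
  simp [this]

lemma GI.exists_coef [FiniteDimensional ℝ M] (h : GI D a) {S : Finset ℕ} (hS : S ⊆ range D)
    (hc : S.card = finrank ℝ M) (w : M) : ∃ c : ℕ → ℝ, w = ∑ s ∈ S, c s • a s := by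
  have hli : LinearIndependent ℝ (fun s : (S : Set ℕ) => a s) := h S hS hc.le
  have htop := hli.span_eq_top_of_card_eq_finrank' (by simpa using hc)
  have hw : w ∈ Submodule.span ℝ (Set.range (fun s : (S : Set ℕ) => a s)) := by
    rw [htop]; trivial
  rw [← Set.image_eq_range] at hw
  obtain ⟨c, hc⟩ := (Submodule.mem_span_image_finset_iff_exists_fun' ℝ).1 hw
  exact ⟨c, hc.symm⟩

lemma small (S : Finset ℕ) (f g : ℕ → ℝ) :
    ∃ δ : ℝ, 0 < δ ∧ ∀ s ∈ S, f s ≠ 0 → 0 < f s * (f s + δ * g s) := by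
  have h1 : ∀ᶠ δ in 𝓝 (0 : ℝ), ∀ s ∈ S, f s ≠ 0 → 0 < f s * (f s + δ * g s) := by
    rw [eventually_all_finset]
    intro s _
    by_cases h : f s = 0
    · exact Eventually.of_forall fun _ h' => absurd h h'
    · have hc : ContinuousAt (fun δ : ℝ => f s * (f s + δ * g s)) 0 := by fun_prop
      have := hc.eventually (lt_mem_nhds (a := (0 : ℝ)) (by
        simp only [zero_mul, add_zero]; exact mul_self_pos.2 h))
      exact this.mono fun δ hδ _ => hδ
  obtain ⟨δ, h2, h3⟩ := ((h1.filter_mono nhdsWithin_le_nhds).and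
    (self_mem_nhdsWithin (s := Set.Ioi (0 : ℝ)))).exists
  exact ⟨δ, h3, h2⟩

lemma neg_of_same {x y : ℝ} (hx : x < 0) (h : 0 < x * y) : y < 0 := by
  by_contra h'
  push Not at h'
  nlinarith

/-- Perturbation to a functional negative on all constraints. -/
lemma GI.perturb (h : GI D a) {B W : Finset ℕ} (hW : W ⊆ range D) (hc : W.card ≤ finrank ℝ M)
    (hm : Meets a B W) : ∃ φ : M →ₗ[ℝ] ℝ, ∀ s ∈ B ∪ W, φ (a s) < 0 := by
  obtain ⟨φ, h1, h2⟩ := hm
  obtain ⟨ψ, hψ⟩ := h.exists_fun hW hc (fun _ => -1)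
  obtain ⟨δ, hδ, h3⟩ := small B (fun s => φ (a s)) (fun s => ψ (a s))
  refine ⟨φ + δ • ψ, fun s hs => ?_⟩
  simp only [LinearMap.add_apply, LinearMap.smul_apply, smul_eq_mul]
  rcases mem_union.1 hs with hs | hs
  · exact neg_of_same (h2 s hs) (h3 s hs (h2 s hs).ne)
  · rw [h1 s hs, hψ s hs]; linarith

/-- Pushing a crossing witness to a prescribed side. -/
lemma GI.push (h : GI D a) {B W : Finset ℕ} {t : ℕ} (hW : W ⊆ range D) (ht : t < D)
    (htW : t ∉ W) (hc : W.card + 1 ≤ finrank ℝ M) (hm : Meets a B (insert t W)) {σ : ℝ}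
    (hσ : σ ≠ 0) : ∃ φ, Wit a B W φ ∧ 0 < σ * φ (a t) := by
  classical
  obtain ⟨φ, h1, h2⟩ := hm
  obtain ⟨ψ, hψ⟩ := h.exists_fun (S := insert t W) (insert_subset (mem_range.2 ht) hW)
    (by rw [card_insert_of_notMem htW]; exact hc) (fun s => if s = t then σ else 0)
  obtain ⟨δ, hδ, h3⟩ := small B (fun s => φ (a s)) (fun s => ψ (a s))
  refine ⟨φ + δ • ψ, ⟨fun s hs => ?_, fun s hs => ?_⟩, ?_⟩
  · simp only [LinearMap.add_apply, LinearMap.smul_apply, smul_eq_mul]
    rw [h1 s (mem_insert_of_mem hs), hψ s (mem_insert_of_mem hs),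
      if_neg (by rintro rfl; exact htW hs)]
    simp
  · simp only [LinearMap.add_apply, LinearMap.smul_apply, smul_eq_mul]
    exact neg_of_same (h2 s hs) (h3 s hs (h2 s hs).ne)
  · simp only [LinearMap.add_apply, LinearMap.smul_apply, smul_eq_mul]
    rw [h1 t (mem_insert_self _ _), hψ t (mem_insert_self _ _), if_pos rfl]
    have := mul_self_pos.2 hσ
    nlinarith

lemma GI.meets_of_cross (h : GI D a) {B W : Finset ℕ} {t : ℕ} (hW : W ⊆ range D) (ht : t < D)
    (htW : t ∉ W) (hc : W.card + 1 ≤ finrank ℝ M) (hm : Meets a B (insert t W)) :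
    Meets a (insert t B) W := by
  obtain ⟨φ, h1, h2⟩ := h.push hW ht htW hc hm (σ := -1) (by norm_num)
  refine ⟨φ, h1.1, fun s hs => ?_⟩
  rcases mem_insert.1 hs with rfl | hs
  · linarith
  · exact h1.2 s hs

lemma GI.refine (h : GI D a) {W : Finset ℕ} (hW : W ⊆ range D) (hc : W.card + 1 ≤ finrank ℝ M)
    (S : Finset ℕ) (φ : M →ₗ[ℝ] ℝ) (hφ : ∀ s ∈ W, φ (a s) = 0) (T : Finset ℕ) :
    (∀ t ∈ T, t < D ∧ t ∉ W) → ∃ φ' : M →ₗ[ℝ] ℝ, (∀ s ∈ W, φ' (a s) = 0) ∧
      (∀ s ∈ S, φ (a s) ≠ 0 → 0 < φ (a s) * φ' (a s)) ∧ ∀ t ∈ T, φ' (a t) ≠ 0 := by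
  classical
  induction T using Finset.induction_on with
  | empty => exact fun _ => ⟨φ, hφ, fun s _ h => mul_self_pos.2 h, by simp⟩
  | insert t T _ ih =>
    intro hT
    obtain ⟨φ', p1, p2, p3⟩ := ih (fun s hs => hT s (mem_insert_of_mem hs))
    obtain ⟨ht, htW⟩ := hT t (mem_insert_self _ _)
    by_cases h0 : φ' (a t) = 0
    · obtain ⟨ψ, hψ⟩ := h.exists_fun (S := insert t W) (insert_subset (mem_range.2 ht) hW)
        (by rw [card_insert_of_notMem htW]; exact hc) (fun s => if s = t then 1 else 0)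
      obtain ⟨δ, hδ, h3⟩ := small (S ∪ T) (fun s => φ' (a s)) (fun s => ψ (a s))
      refine ⟨φ' + δ • ψ, fun s hs => ?_, fun s hs hne => ?_, fun s hs => ?_⟩
      · simp only [LinearMap.add_apply, LinearMap.smul_apply, smul_eq_mul]
        rw [p1 s hs, hψ s (mem_insert_of_mem hs), if_neg (by rintro rfl; exact htW hs)]
        simp
      · simp only [LinearMap.add_apply, LinearMap.smul_apply, smul_eq_mul]
        have q1 := p2 s hs hne
        have q2 : φ' (a s) ≠ 0 := by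
          intro h'; rw [h'] at q1; simp at q1
        have q3 := h3 s (mem_union_left _ hs) q2
        have q4 := mul_pos q1 q3
        have q5 := mul_self_pos.2 q2
        by_contra hn
        push Not at hn
        nlinarith
      · simp only [LinearMap.add_apply, LinearMap.smul_apply, smul_eq_mul]
        rcases mem_insert.1 hs with rfl | hs
        · rw [h0, hψ s (mem_insert_self _ _), if_pos rfl]; linarith
        · have q3 := h3 s (mem_union_right _ hs) (p3 s hs)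
          intro h'
          rw [h'] at q3
          simp at q3
    · refine ⟨φ', p1, p2, fun s hs => ?_⟩
      rcases mem_insert.1 hs with rfl | hs
      · exact h0
      · exact p3 s hs

/-- Generic witnesses with a prescribed sign kept. -/
lemma GI.generic (h : GI D a) {B W : Finset ℕ} (hW : W ⊆ range D)
    (hc : W.card + 1 ≤ finrank ℝ M) {φ : M →ₗ[ℝ] ℝ} (hφ : Wit a B W φ) (t : ℕ) :
    ∃ φ', Wit a B W φ' ∧ (φ (a t) ≠ 0 → 0 < φ (a t) * φ' (a t)) ∧
      ∀ s < D, s ∉ W → φ' (a s) ≠ 0 := by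
  classical
  obtain ⟨φ', p1, p2, p3⟩ := h.refine hW hc (insert t B) φ hφ.1 (range D \ W)
    (fun s hs => by simpa using hs)
  refine ⟨φ', ⟨p1, fun s hs => ?_⟩, p2 t (mem_insert_self _ _), fun s h1 h2 => p3 s (by simp [h1, h2])⟩
  exact neg_of_same (hφ.2 s hs) (p2 s (mem_insert_of_mem hs) (hφ.2 s hs).ne)

/-- Convexity of the set of witnesses. -/
lemma Wit.cross {B W : Finset ℕ} {φ ψ : M →ₗ[ℝ] ℝ} (h1 : Wit a B W φ) (h2 : Wit a B W ψ) {t : ℕ}
    (hφ : φ (a t) < 0) (hψ : 0 ≤ ψ (a t)) : Meets a B (insert t W) := by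
  refine ⟨ψ (a t) • φ - φ (a t) • ψ, fun s hs => ?_, fun s hs => ?_⟩
  · simp only [LinearMap.sub_apply, LinearMap.smul_apply, smul_eq_mul]
    rcases mem_insert.1 hs with rfl | hs
    · ring
    · rw [h1.1 s hs, h2.1 s hs]; ring
  · simp only [LinearMap.sub_apply, LinearMap.smul_apply, smul_eq_mul]
    have p1 := h1.2 s hs
    have p2 := h2.2 s hs
    nlinarith [mul_pos_of_neg_of_neg hφ p2, mul_nonpos_of_nonneg_of_nonpos hψ p1.le]

lemma GI.not_meets_full [FiniteDimensional ℝ M] (h : GI D a) {B W : Finset ℕ} (hW : W ⊆ range D)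
    (hc : W.card = finrank ℝ M) (hB : B.Nonempty) : ¬ Meets a B W := by
  rintro ⟨φ, h1, h2⟩
  obtain ⟨b, hb⟩ := hB
  obtain ⟨c, hc⟩ := h.exists_coef hW hc (a b)
  have := h2 b hb
  rw [hc, map_sum, sum_eq_zero] at this
  · exact lt_irrefl _ this
  · intro s hs
    rw [map_smul, h1 s hs, smul_zero]

lemma three {u1 u2 u3 v1 v2 v3 : ℝ} (h1 : u1 < 0) (h2 : u2 < 0) (h3 : u3 < 0) (h12 : 0 < v1 * v2)
    (h13 : v1 * v3 < 0) :
    (∀ A C : ℝ, (A * u1 + C * v1) * (A * u2 + C * v2) < 0 → A * u3 + C * v3 ≠ 0 →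
      (A * u3 + C * v3) * (A * u2 + C * v2) < 0) ∨
    (∀ A C : ℝ, (A * u1 + C * v1) * (A * u2 + C * v2) < 0 → A * u3 + C * v3 ≠ 0 →
      (A * u1 + C * v1) * (A * u3 + C * v3) < 0) := by
  have hv : v1 ≠ 0 := by rintro rfl; simp at h12
  have hv2 := mul_self_pos.2 hv
  have hp : 0 < (u2 * v3 - u3 * v2) * v1 := by nlinarith [mul_pos_of_neg_of_neg h2 h13]
  have hq : 0 < -(u3 * v1 - u1 * v3) * v1 := by nlinarith [mul_pos_of_neg_of_neg h1 h13]
  rcases le_total ((u1 * v2 - u2 * v1) * v1) 0 with hr | hr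
  · left
    intro A C hx hne
    have id : (u2 * v3 - u3 * v2) * v1 * (A * u1 + C * v1) - -(u3 * v1 - u1 * v3) * v1 *
      (A * u2 + C * v2) + (u1 * v2 - u2 * v1) * v1 * (A * u3 + C * v3) = 0 := by ring
    generalize A * u1 + C * v1 = x1 at *
    generalize A * u2 + C * v2 = x2 at *
    generalize A * u3 + C * v3 = x3 at *
    generalize (u2 * v3 - u3 * v2) * v1 = p at *
    generalize -(u3 * v1 - u1 * v3) * v1 = q at *
    generalize (u1 * v2 - u2 * v1) * v1 = r at *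
    have hx2 : x2 ≠ 0 := by rintro rfl; simp at hx
    by_contra hn
    have h5 : 0 < x3 * x2 := lt_of_le_of_ne (not_lt.1 hn) (mul_ne_zero hne hx2).symm
    have h6 : p * (x1 * x2) - q * (x2 * x2) + r * (x3 * x2) = 0 := by
      have := congrArg (· * x2) id
      simp only [zero_mul] at this
      linarith
    nlinarith [mul_pos hq (mul_self_pos.2 hx2), mul_neg_of_pos_of_neg hp hx,
      mul_nonpos_of_nonpos_of_nonneg hr h5.le]
  · right
    intro A C hx hne
    have id : (u2 * v3 - u3 * v2) * v1 * (A * u1 + C * v1) - -(u3 * v1 - u1 * v3) * v1 *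
      (A * u2 + C * v2) + (u1 * v2 - u2 * v1) * v1 * (A * u3 + C * v3) = 0 := by ring
    generalize A * u1 + C * v1 = x1 at *
    generalize A * u2 + C * v2 = x2 at *
    generalize A * u3 + C * v3 = x3 at *
    generalize (u2 * v3 - u3 * v2) * v1 = p at *
    generalize -(u3 * v1 - u1 * v3) * v1 = q at *
    generalize (u1 * v2 - u2 * v1) * v1 = r at *
    have hx1 : x1 ≠ 0 := by rintro rfl; simp at hx
    by_contra hn
    have h5 : 0 < x1 * x3 := lt_of_le_of_ne (not_lt.1 hn) (mul_ne_zero hx1 hne).symm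
    have h6 : p * (x1 * x1) - q * (x1 * x2) + r * (x1 * x3) = 0 := by
      have := congrArg (· * x1) id
      simp only [zero_mul] at this
      linarith
    nlinarith [mul_pos hp (mul_self_pos.2 hx1), mul_neg_of_pos_of_neg hq hx,
      mul_nonneg hr h5.le]

lemma GI.two_coef [FiniteDimensional ℝ M] (h : GI D a) {W : Finset ℕ} (hW : W ⊆ range D)
    (hc : W.card + 2 = finrank ℝ M) {b t : ℕ} (hb : b < D) (ht : t < D) (hbW : b ∉ W)
    (htW : t ∉ W) (hbt : b ≠ t) (w : M) : ∃ A C : ℝ, ∀ φ : M →ₗ[ℝ] ℝ, (∀ s ∈ W, φ (a s) = 0) →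
      φ w = A * φ (a b) + C * φ (a t) := by
  classical
  have hb' : b ∉ insert t W := by simp [hbt, hbW]
  obtain ⟨c, hc⟩ := h.exists_coef (S := insert b (insert t W))
    (insert_subset (mem_range.2 hb) (insert_subset (mem_range.2 ht) hW))
    (by rw [card_insert_of_notMem hb', card_insert_of_notMem htW]; exact hc) w
  refine ⟨c b, c t, fun φ hφ => ?_⟩
  rw [hc, map_sum, sum_insert hb', sum_insert htW, sum_eq_zero]
  · simp
  · intro s hs
    rw [map_smul, hφ s hs, smul_zero]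

/-- Two generic witnesses that see all crossings of an arc. -/
lemma GI.arc [FiniteDimensional ℝ M] (h : GI D a) {B W : Finset ℕ} (hW : W ⊆ range D)
    (hc : W.card + 2 = finrank ℝ M) (hB : B.Nonempty) (hBD : B ⊆ range D) (hm : Meets a B W) :
    ∃ φ ψ, Wit a B W φ ∧ Wit a B W ψ ∧ ∀ t < D, t ∉ W →
      φ (a t) ≠ 0 ∧ ψ (a t) ≠ 0 ∧ (Meets a B (insert t W) ↔ φ (a t) * ψ (a t) < 0) := by
  classical
  let Gen : (M →ₗ[ℝ] ℝ) → Prop := fun φ => Wit a B W φ ∧ ∀ s < D, s ∉ W → φ (a s) ≠ 0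
  let N : (M →ₗ[ℝ] ℝ) → (M →ₗ[ℝ] ℝ) → Finset ℕ := fun φ ψ =>
    (range D \ W).filter (fun s => φ (a s) * ψ (a s) < 0)
  let P : ℕ → Prop := fun n => ∃ φ ψ, Gen φ ∧ Gen ψ ∧ (N φ ψ).card = n
  have hN : ∀ φ ψ, (N φ ψ).card ≤ D := fun φ ψ =>
    (card_le_card ((filter_subset _ _).trans sdiff_subset)).trans (card_range D).le
  obtain ⟨φ0, hφ0⟩ := hm
  obtain ⟨φ1, g1, -, g2⟩ := h.generic hW (by omega) hφ0 0
  have hP : P (Nat.findGreatest P D) :=
    Nat.findGreatest_spec (hN φ1 φ1) ⟨φ1, φ1, ⟨g1, g2⟩, ⟨g1, g2⟩, rfl⟩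
  obtain ⟨φ, ψ, gφ, gψ, hmax⟩ := hP
  have hle : ∀ φ' ψ', Gen φ' → Gen ψ' → (N φ' ψ').card ≤ (N φ ψ).card := fun φ' ψ' h1 h2 => by
    rw [hmax]; exact Nat.le_findGreatest (hN φ' ψ') ⟨φ', ψ', h1, h2, rfl⟩
  refine ⟨φ, ψ, gφ.1, gψ.1, fun t ht htW => ⟨gφ.2 t ht htW, gψ.2 t ht htW, ?_, ?_⟩⟩
  · intro hcr
    by_contra hn
    have h12 : 0 < φ (a t) * ψ (a t) :=
      lt_of_le_of_ne (not_lt.1 hn) (mul_ne_zero (gφ.2 t ht htW) (gψ.2 t ht htW)).symm
    obtain ⟨χ0, c1, c2⟩ := h.push hW ht htW (by omega) hcr (σ := -φ (a t))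
      (neg_ne_zero.2 (gφ.2 t ht htW))
    obtain ⟨χ, c3, c4, c5⟩ := h.generic hW (by omega) c1 t
    have hχ0 : χ0 (a t) ≠ 0 := by intro h'; rw [h'] at c2; simp at c2
    have h13 : φ (a t) * χ (a t) < 0 := by
      have q1 := mul_pos c2 (c4 hχ0)
      have q2 := mul_self_pos.2 hχ0
      by_contra hn
      push Not at hn
      nlinarith
    obtain ⟨b, hb⟩ := hB
    have hbW : b ∉ W := fun h' => (gφ.1.2 b hb).ne (gφ.1.1 b h')
    have hbt : b ≠ t := by
      rintro rfl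
      obtain ⟨ρ, r1, r2⟩ := hcr
      exact (r2 b hb).ne (r1 b (mem_insert_self _ _))
    have co := h.two_coef hW hc (mem_range.1 (hBD hb)) ht hbW htW hbt
    have htm : t ∈ range D \ W := by simp [ht, htW]
    have htN : t ∉ N φ ψ := fun h' => hn (mem_filter.1 h').2
    rcases three (gφ.1.2 b hb) (gψ.1.2 b hb) (c3.2 b hb) h12 h13 with k | k
    · have hsub : insert t (N φ ψ) ⊆ N χ ψ := by
        intro s hs
        rcases mem_insert.1 hs with rfl | hs
        · refine mem_filter.2 ⟨htm, ?_⟩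
          have q2 := mul_self_pos.2 (gφ.2 s ht htW)
          by_contra hn
          push Not at hn
          nlinarith [mul_neg_of_pos_of_neg h12 h13]
        · obtain ⟨s1, s2⟩ := mem_filter.1 hs
          obtain ⟨A, C, hAC⟩ := co (a s)
          have s3 := c5 s (mem_range.1 (mem_sdiff.1 s1).1) (mem_sdiff.1 s1).2
          refine mem_filter.2 ⟨s1, ?_⟩
          rw [hAC φ gφ.1.1, hAC ψ gψ.1.1] at s2
          rw [hAC χ c3.1] at s3
          rw [hAC χ c3.1, hAC ψ gψ.1.1]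
          exact k A C s2 s3
      have := (card_le_card hsub).trans (hle χ ψ ⟨c3, c5⟩ gψ)
      rw [card_insert_of_notMem htN] at this
      omega
    · have hsub : insert t (N φ ψ) ⊆ N φ χ := by
        intro s hs
        rcases mem_insert.1 hs with rfl | hs
        · exact mem_filter.2 ⟨htm, h13⟩
        · obtain ⟨s1, s2⟩ := mem_filter.1 hs
          obtain ⟨A, C, hAC⟩ := co (a s)
          have s3 := c5 s (mem_range.1 (mem_sdiff.1 s1).1) (mem_sdiff.1 s1).2
          refine mem_filter.2 ⟨s1, ?_⟩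
          rw [hAC φ gφ.1.1, hAC ψ gψ.1.1] at s2
          rw [hAC χ c3.1] at s3
          rw [hAC χ c3.1, hAC φ gφ.1.1]
          exact k A C s2 s3
      have := (card_le_card hsub).trans (hle φ χ gφ ⟨c3, c5⟩)
      rw [card_insert_of_notMem htN] at this
      omega
  · intro hx
    rcases mul_neg_iff.1 hx with ⟨p1, p2⟩ | ⟨p1, p2⟩
    · exact gψ.1.cross gφ.1 p2 p1.le
    · exact gφ.1.cross gψ.1 p1 p2.le

lemma GI.meets_zero (h : GI D a) {J : Finset ℕ} (hJ : J ⊆ Ico 1 D) (hD : 0 < D)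
    (hc : J.card + 1 ≤ finrank ℝ M) : Meets a {0} J := by
  classical
  have h0 : 0 ∉ J := fun h' => by simpa using hJ h'
  obtain ⟨ψ, hψ⟩ := h.exists_fun (S := insert 0 J)
    (insert_subset (mem_range.2 hD) fun s hs => mem_range.2 (mem_Ico.1 (hJ hs)).2)
    (by rw [card_insert_of_notMem h0]; exact hc) (fun s => if s = 0 then -1 else 0)
  refine ⟨ψ, fun s hs => ?_, fun s hs => ?_⟩
  · rw [hψ s (mem_insert_of_mem hs), if_neg (by rintro rfl; exact h0 hs)]
  · rw [mem_singleton.1 hs, hψ 0 (mem_insert_self _ _), if_pos rfl]; norm_num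

end Pool.Agent.MP_d7dd47_co.H62

end

-- part MP_d7dd47_co.H62.Path
section

namespace Pool.Agent.MP_d7dd47_co.H62

open Finset Module

lemma phase (F c : ℕ → ℝ) (K : ℝ) (hK : 0 ≤ K) (alive same : ℕ → Prop) (ℓ e : ℕ)
    (hc : ∀ t, 0 ≤ c t) (h0 : ∀ t, ℓ ≤ t → alive (t + 1) → alive t)
    (h1 : ∀ t, ℓ ≤ t → t < e → ¬ alive t → F t ≤ 0)
    (h2 : ∀ t, ℓ ≤ t → t < e → ¬ same t → alive (t + 1) → 1 ≤ c t)
    (h3 : ∀ s e', ℓ ≤ s → s ≤ e' → e' ≤ e → alive s → (∀ t, s ≤ t → t + 1 < e' → same t) →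
      ∑ t ∈ Ico s e', F t ≤ K) (n : ℕ) :
    ∀ s, ℓ ≤ s → s ≤ e → e - s ≤ n →
      ∑ t ∈ Ico s e, F t ≤ K * (ind (alive s) + ∑ t ∈ Ico s e, c t) := by
  classical
  induction n with
  | zero =>
    intro s _ hs hn
    have : s = e := by omega
    subst this
    simp only [Ico_self, sum_empty, add_zero]
    exact mul_nonneg hK (ind_nonneg _)
  | succ n ih =>
    intro s hℓ hs hn
    have hc0 : ∀ s e, 0 ≤ ∑ t ∈ Ico s e, c t := fun s e => sum_nonneg fun t _ => hc t
    by_cases ha : alive s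
    · rw [ind_pos ha]
      by_cases hall : ∀ t, s ≤ t → t + 1 < e → same t
      · refine (h3 s e hℓ hs le_rfl ha hall).trans ?_
        nlinarith [hc0 s e]
      · push Not at hall
        have hex : ∃ t, s ≤ t ∧ t + 1 < e ∧ ¬ same t := hall
        obtain ⟨p1, p2, p3⟩ := Nat.find_spec hex
        set t0 := Nat.find hex with ht0
        have a1 := h3 s (t0 + 1) hℓ (by omega) (by omega) ha (fun t q1 q2 => by
          by_contra q3
          exact Nat.find_min hex (show t < t0 by omega) ⟨q1, by omega, q3⟩)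
        have a2 := ih (t0 + 1) (by omega) (by omega) (by omega)
        have a3 : ind (alive (t0 + 1)) ≤ c t0 := by
          by_cases hal : alive (t0 + 1)
          · rw [ind_pos hal]; exact h2 t0 (by omega) (by omega) p3 hal
          · rw [ind_neg hal]; exact hc t0
        rw [← sum_Ico_consecutive F (show s ≤ t0 + 1 by omega) (show t0 + 1 ≤ e by omega),
          ← sum_Ico_consecutive c (show s ≤ t0 + 1 by omega) (show t0 + 1 ≤ e by omega),
          sum_Ico_succ_top p1 c]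
        nlinarith [hc0 s t0, mul_le_mul_of_nonneg_left a3 hK, mul_nonneg hK (hc0 s t0)]
    · have dead : ∀ t, s ≤ t → ¬ alive t := by
        intro t ht
        induction t, ht using Nat.le_induction with
        | base => exact ha
        | succ t ht ih' => exact fun h => ih' (h0 t (by omega) h)
      refine (sum_nonpos fun t ht => ?_).trans (mul_nonneg hK (add_nonneg (ind_nonneg _) (hc0 _ _)))
      rw [mem_Ico] at ht
      exact h1 t (by omega) ht.2 (dead t ht.1)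

/-- A sequence of constraint sets, growing by the current level at the update levels. -/
def Seq (ℓ : ℕ) (u : ℕ → Prop) (B : ℕ → Finset ℕ) : Prop :=
  ∀ t, ℓ ≤ t → (u t → B (t + 1) = insert t (B t)) ∧ (¬ u t → B (t + 1) = B t)

lemma Seq.subset_succ {ℓ : ℕ} {u : ℕ → Prop} {B : ℕ → Finset ℕ} (h : Seq ℓ u B) {t : ℕ}
    (ht : ℓ ≤ t) : B t ⊆ B (t + 1) := by
  by_cases hu : u t
  · rw [(h t ht).1 hu]; exact subset_insert _ _
  · rw [(h t ht).2 hu]

lemma Seq.subset {ℓ : ℕ} {u : ℕ → Prop} {B : ℕ → Finset ℕ} (h : Seq ℓ u B) {t : ℕ}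
    (ht : ℓ ≤ t) : B ℓ ⊆ B t := by
  induction t, ht using Nat.le_induction with
  | base => exact le_rfl
  | succ t ht ih => exact ih.trans (h.subset_succ ht)

lemma Seq.subset_range {ℓ : ℕ} {u : ℕ → Prop} {B : ℕ → Finset ℕ} (h : Seq ℓ u B)
    (hB : B ℓ ⊆ range ℓ) {t : ℕ} (ht : ℓ ≤ t) : B t ⊆ range t := by
  induction t, ht using Nat.le_induction with
  | base => exact hB
  | succ t ht ih =>
    have : B t ⊆ range (t + 1) := ih.trans (range_subset_range.2 (by omega))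
    by_cases hu : u t
    · rw [(h t ht).1 hu]; exact insert_subset (by simp) this
    · rw [(h t ht).2 hu]; exact this

variable {M : Type*} [AddCommGroup M] [Module ℝ M] {D : ℕ} {a : ℕ → M}

lemma wit_insert_left {B W : Finset ℕ} {t : ℕ} {φ : M →ₗ[ℝ] ℝ} :
    Wit a (insert t B) W φ ↔ Wit a B W φ ∧ φ (a t) < 0 := by
  simp only [Wit, forall_mem_insert]; tauto

lemma wit_insert_right {B W : Finset ℕ} {t : ℕ} {φ : M →ₗ[ℝ] ℝ} :
    Wit a B (insert t W) φ ↔ Wit a B W φ ∧ φ (a t) = 0 := by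
  simp only [Wit, forall_mem_insert]; tauto

/-- The phase lemma for witness sets. -/
lemma phase_wit {ℓ e : ℕ} {u : ℕ → Prop} {B : ℕ → Finset ℕ} (hS : Seq ℓ u B) (W : Finset ℕ)
    (F : ℕ → ℝ) {K : ℝ} (hK : 0 ≤ K) (hℓe : ℓ ≤ e)
    (h1 : ∀ t, ℓ ≤ t → t < e → ¬ Meets a (B t) W → F t ≤ 0)
    (h3 : ∀ s e', ℓ ≤ s → s ≤ e' → e' ≤ e → Meets a (B s) W →
      (∀ t ∈ Ico s e', ∀ φ, Wit a (B t) W φ ↔ Wit a (B s) W φ) → ∑ t ∈ Ico s e', F t ≤ K) :
    ∑ t ∈ Ico ℓ e, F t ≤ K * (ind (Meets a (B ℓ) W) +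
      ∑ t ∈ Ico ℓ e, ind (u t) * ind (Meets a (B t) (insert t W))) := by
  apply phase F _ K hK (fun t => Meets a (B t) W)
    (fun t => ∀ φ, Wit a (B (t + 1)) W φ ↔ Wit a (B t) W φ) ℓ e
    (fun t => mul_nonneg (ind_nonneg _) (ind_nonneg _))
    (fun t ht h => h.mono (hS.subset_succ ht) le_rfl) h1 _ _ (e - ℓ) ℓ le_rfl hℓe le_rfl
  · intro t ht _ hns hal
    by_cases hu : u t
    · rw [(hS t ht).1 hu] at hns hal
      obtain ⟨φ, hφ⟩ := hal
      rw [wit_insert_left] at hφ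
      have : Meets a (B t) (insert t W) := by
        by_contra hcr
        apply hns
        intro ψ
        rw [wit_insert_left]
        refine ⟨fun h => h.1, fun h => ⟨h, ?_⟩⟩
        by_contra hn
        exact hcr (hφ.1.cross h hφ.2 (not_lt.1 hn))
      rw [ind_pos hu, ind_pos this]; norm_num
    · exact absurd (fun φ => by rw [(hS t ht).2 hu]) hns
  · intro s e' q1 q2 q3 q4 q5
    apply h3 s e' q1 q2 q3 q4
    intro t ht φ
    rw [mem_Ico] at ht
    obtain ⟨ht1, ht2⟩ := ht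
    induction t, ht1 using Nat.le_induction with
    | base => rfl
    | succ t ht ih => exact (q5 t ht ht2 φ).trans (ih (by omega))

lemma sg_pos {φ : M →ₗ[ℝ] ℝ} {v : M} (h : 0 < φ v) : sg φ v = true := by simp [sg, h]

lemma sg_neg {φ : M →ₗ[ℝ] ℝ} {v : M} (h : φ v < 0) : sg φ v = false := by simp [sg, h.le]

variable [FiniteDimensional ℝ M] {ℓ e : ℕ} {u : ℕ → Prop} {B : ℕ → Finset ℕ} {mj : ℕ → Bool}
  {ε Λ : ℝ} {W : Finset ℕ}

lemma pw1 (hGI : GI D a) (hS : Seq ℓ u B) (hne : (B ℓ).Nonempty) (hT : Typ a mj ε Λ ℓ D)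
    (hε0 : 0 ≤ ε) (hΛ : 0 ≤ Λ) (hW : W ⊆ range D) (hc : W.card + 1 = finrank ℝ M)
    (hℓe : ℓ ≤ e) (he : e ≤ D) (hWe : ∀ t ∈ Ico ℓ e, t ∉ W) :
    ∑ t ∈ Ico ℓ e, ((1 - 2 * ε) * (ind (mj t = true) * (ind (Meets a (B t) W) -
      ind (Meets a (insert t (B t)) W))) - ind (mj t = false) * ind (Meets a (insert t (B t)) W))
      ≤ Λ * ind (Meets a (B ℓ) W) := by
  have nc : ∀ s t, ℓ ≤ s → t ∈ Ico ℓ e → ¬ Meets a (B s) (insert t W) := by
    intro s t hs ht
    exact hGI.not_meets_full (insert_subset (mem_range.2 (by have := (mem_Ico.1 ht).2; omega)) hW)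
      (by rw [card_insert_of_notMem (hWe t ht)]; exact hc) (hne.mono (hS.subset hs))
  have key := phase_wit (a := a) hS W (fun t => (1 - 2 * ε) * (ind (mj t = true) *
      (ind (Meets a (B t) W) - ind (Meets a (insert t (B t)) W))) -
      ind (mj t = false) * ind (Meets a (insert t (B t)) W)) hΛ hℓe
    (by
      intro t _ _ hn
      rw [ind_neg hn, ind_neg (fun h : Meets a (insert t (B t)) W =>
        hn (h.mono (subset_insert _ _) le_rfl))]
      simp)
    (by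
      rintro s e' q1 q2 q3 ⟨φ, hφ⟩ q5
      have sub : ∀ t ∈ Ico s e', t ∈ Ico ℓ e := fun t ht => Ico_subset_Ico q1 q3 ht
      have nz : ∀ t ∈ Ico s e', φ (a t) ≠ 0 := fun t ht h =>
        nc s t q1 (sub t ht) ⟨φ, wit_insert_right.2 ⟨hφ, h⟩⟩
      have ty := hT s e' q1 q2 (by omega) φ φ (fun t ht => ⟨nz t ht, nz t ht⟩) true (fun p _ => p)
      have hle : ∀ t ∈ Ico s e', (1 + ε) * ((1 - 2 * ε) * (ind (mj t = true) *
          (ind (Meets a (B t) W) - ind (Meets a (insert t (B t)) W))) -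
          ind (mj t = false) * ind (Meets a (insert t (B t)) W)) ≤
          sc ε (fun p _ => p) (mj t == true) (sg φ (a t)) (sg φ (a t)) := by
        intro t ht
        have w1 := (q5 t ht φ).2 hφ
        rw [ind_pos (P := Meets a (B t) W) ⟨φ, w1⟩]
        rcases lt_or_gt_of_ne (nz t ht) with h | h
        · rw [ind_pos (P := Meets a (insert t (B t)) W) ⟨φ, wit_insert_left.2 ⟨w1, h⟩⟩,
            sg_neg h]
          cases mj t <;> simp [sc, ind]
        · rw [ind_neg (P := Meets a (insert t (B t)) W), sg_pos h]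
          · cases mj t
            · simp [sc, ind]
            · simp [sc, ind]; nlinarith
          · rintro ⟨ψ, hψ⟩
            rw [wit_insert_left] at hψ
            exact nc t t (mem_Ico.1 (sub t ht)).1 (sub t ht) (hψ.1.cross w1 hψ.2 h.le)
      have := (sum_le_sum hle).trans ty
      rw [← mul_sum] at this
      by_contra hn
      push Not at hn
      nlinarith)
  rw [sum_eq_zero (s := Ico ℓ e) (f := fun t => ind (u t) * ind (Meets a (B t) (insert t W)))
    (fun t ht => by rw [ind_neg (nc t t (mem_Ico.1 ht).1 ht), mul_zero]), add_zero] at key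
  exact key

lemma arc_window (hGI : GI D a) (hS : Seq ℓ u B) (hne : (B ℓ).Nonempty) (hBr : B ℓ ⊆ range ℓ)
    (hW : W ⊆ range D) (hc : W.card + 2 = finrank ℝ M) (he : e ≤ D)
    (hWe : ∀ t ∈ Ico ℓ e, t ∉ W) {s e' : ℕ} (q1 : ℓ ≤ s) (q2 : s ≤ e') (q3 : e' ≤ e)
    (q4 : Meets a (B s) W) (q5 : ∀ t ∈ Ico s e', ∀ φ, Wit a (B t) W φ ↔ Wit a (B s) W φ) :
    ∃ φ ψ : M →ₗ[ℝ] ℝ, ∀ t ∈ Ico s e', Wit a (B t) W φ ∧ φ (a t) ≠ 0 ∧ ψ (a t) ≠ 0 ∧
      (Meets a (B t) (insert t W) ↔ φ (a t) * ψ (a t) < 0) := by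
  obtain ⟨φ, ψ, p1, _, p3⟩ := hGI.arc hW hc (hne.mono (hS.subset q1))
    ((hS.subset_range hBr q1).trans (range_subset_range.2 (by omega))) q4
  refine ⟨φ, ψ, fun t ht => ?_⟩
  obtain ⟨r1, r2, r3⟩ := p3 t (by have := (mem_Ico.1 ht).2; omega)
    (hWe t (Ico_subset_Ico q1 q3 ht))
  refine ⟨(q5 t ht φ).2 p1, r1, r2, ?_⟩
  rw [← r3]
  simp only [Meets, wit_insert_right, q5 t ht]

lemma pw2 (hGI : GI D a) (hS : Seq ℓ u B) (hne : (B ℓ).Nonempty) (hBr : B ℓ ⊆ range ℓ)
    (hT : Typ a mj ε Λ ℓ D) (hε0 : 0 ≤ ε) (hε : ε ≤ 1 / 3) (hΛ : 0 ≤ Λ) (hW : W ⊆ range D)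
    (hc : W.card + 2 = finrank ℝ M) (hℓe : ℓ ≤ e) (he : e ≤ D) (hWe : ∀ t ∈ Ico ℓ e, t ∉ W) :
    ∑ t ∈ Ico ℓ e, (ind (mj t = false) * ind (Meets a (insert t (B t)) W) -
      (1 + 3 * ε) * (ind (mj t = true) * (ind (Meets a (B t) W) -
        ind (Meets a (insert t (B t)) W))) - 3 * ind (Meets a (B t) (insert t W)) -
        2 * Λ * (ind (u t) * ind (Meets a (B t) (insert t W))))
      ≤ 2 * Λ * ind (Meets a (B ℓ) W) := by
  have key := phase_wit (a := a) hS W (fun t => ind (mj t = false) *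
      ind (Meets a (insert t (B t)) W) - (1 + 3 * ε) * (ind (mj t = true) *
      (ind (Meets a (B t) W) - ind (Meets a (insert t (B t)) W))) -
      3 * ind (Meets a (B t) (insert t W))) (K := 2 * Λ) (by linarith) hℓe
    (by
      intro t _ _ hn
      rw [ind_neg hn, ind_neg (fun h : Meets a (insert t (B t)) W =>
        hn (h.mono (subset_insert _ _) le_rfl)), ind_neg (fun h : Meets a (B t) (insert t W) =>
        hn (h.mono le_rfl (subset_insert _ _)))]
      simp)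
    (by
      intro s e' q1 q2 q3 q4 q5
      obtain ⟨φ, ψ, hφ⟩ := arc_window hGI hS hne hBr hW hc he hWe q1 q2 q3 q4 q5
      have ty := hT s e' q1 q2 (by omega) φ φ (fun t ht => ⟨(hφ t ht).2.1, (hφ t ht).2.1⟩) false
        (fun p _ => !p)
      have hle : ∀ t ∈ Ico s e', (1 - ε) * (ind (mj t = false) *
          ind (Meets a (insert t (B t)) W) - (1 + 3 * ε) * (ind (mj t = true) *
          (ind (Meets a (B t) W) - ind (Meets a (insert t (B t)) W))) -
          3 * ind (Meets a (B t) (insert t W))) ≤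
          sc ε (fun p _ => !p) (mj t == false) (sg φ (a t)) (sg φ (a t)) := by
        intro t ht
        obtain ⟨w1, nz, -, -⟩ := hφ t ht
        have ht' := Ico_subset_Ico q1 q3 ht
        rw [ind_pos (P := Meets a (B t) W) ⟨φ, w1⟩]
        by_cases hcr : Meets a (B t) (insert t W)
        · rw [ind_pos hcr, ind_pos (hGI.meets_of_cross hW
            (by have := (mem_Ico.1 ht').2; omega) (hWe t ht') (by omega) hcr)]
          cases mj t <;> cases sg φ (a t) <;> simp [sc, ind] <;> nlinarith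
        · rw [ind_neg hcr]
          rcases lt_or_gt_of_ne nz with h | h
          · rw [ind_pos (P := Meets a (insert t (B t)) W) ⟨φ, wit_insert_left.2 ⟨w1, h⟩⟩,
            sg_neg h]
            cases mj t <;> simp [sc, ind]
          · rw [ind_neg (P := Meets a (insert t (B t)) W), sg_pos h]
            · cases mj t
              · simp [sc, ind]
              · simp [sc, ind]; nlinarith
            · rintro ⟨χ, hχ⟩
              rw [wit_insert_left] at hχ
              exact hcr (hχ.1.cross w1 hχ.2 h.le)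
      have := (sum_le_sum hle).trans ty
      rw [← mul_sum] at this
      by_contra hn
      push Not at hn
      nlinarith)
  rw [sum_sub_distrib, ← mul_sum]
  linarith

lemma pw3 (hGI : GI D a) (hS : Seq ℓ u B) (hne : (B ℓ).Nonempty) (hBr : B ℓ ⊆ range ℓ)
    (hT : Typ a mj ε Λ ℓ D) (hε : ε ≤ 1 / 3) (hΛ : 0 ≤ Λ) (hW : W ⊆ range D)
    (hc : W.card + 2 = finrank ℝ M) (hℓe : ℓ ≤ e) (he : e ≤ D) (hWe : ∀ t ∈ Ico ℓ e, t ∉ W) :
    ∑ t ∈ Ico ℓ e, (1 / 4 * ind (Meets a (B t) (insert t W)) -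
      ind (mj t = false) * ind (Meets a (B t) (insert t W)) -
        Λ * (ind (u t) * ind (Meets a (B t) (insert t W))))
      ≤ Λ * ind (Meets a (B ℓ) W) := by
  have key := phase_wit (a := a) hS W (fun t => 1 / 4 * ind (Meets a (B t) (insert t W)) -
      ind (mj t = false) * ind (Meets a (B t) (insert t W))) hΛ hℓe
    (by
      intro t _ _ hn
      rw [ind_neg (fun h : Meets a (B t) (insert t W) => hn (h.mono le_rfl (subset_insert _ _)))]
      simp)
    (by
      intro s e' q1 q2 q3 q4 q5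
      obtain ⟨φ, ψ, hφ⟩ := arc_window hGI hS hne hBr hW hc he hWe q1 q2 q3 q4 q5
      have ty := hT s e' q1 q2 (by omega) φ ψ (fun t ht => ⟨(hφ t ht).2.1, (hφ t ht).2.2.1⟩) true
        (fun p q => xor p q)
      have hle : ∀ t ∈ Ico s e', 2 * (1 / 4 * ind (Meets a (B t) (insert t W)) -
          ind (mj t = false) * ind (Meets a (B t) (insert t W))) ≤
          sc ε (fun p q => xor p q) (mj t == true) (sg φ (a t)) (sg ψ (a t)) := by
        intro t ht
        obtain ⟨-, n1, n2, hcr⟩ := hφ t ht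
        rw [ind_congr hcr]
        rcases lt_or_gt_of_ne n1 with h | h <;> rcases lt_or_gt_of_ne n2 with h' | h'
        · rw [ind_neg (not_lt.2 (mul_pos_of_neg_of_neg h h').le), sg_neg h, sg_neg h']
          cases mj t <;> simp [sc]
        · rw [ind_pos (mul_neg_of_neg_of_pos h h'), sg_neg h, sg_pos h']
          cases mj t <;> simp [sc, ind] <;> linarith
        · rw [ind_pos (mul_neg_of_pos_of_neg h h'), sg_pos h, sg_neg h']
          cases mj t <;> simp [sc, ind] <;> linarith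
        · rw [ind_neg (not_lt.2 (mul_pos h h').le), sg_pos h, sg_pos h']
          cases mj t <;> simp [sc]
      have := (sum_le_sum hle).trans ty
      rw [← mul_sum] at this
      linarith)
  rw [sum_sub_distrib, ← mul_sum]
  linarith

lemma swap_le {ℓ D j : ℕ} (hℓ : ℓ ≤ D) (Gf : ℕ → Finset ℕ → ℝ) (H : Finset ℕ → ℝ)
    (h : ∀ J ∈ powersetCard j (Ico ℓ D), ∀ e, ℓ ≤ e → e ≤ D → (∀ t ∈ Ico ℓ e, t ∉ J) →
      ∑ t ∈ Ico ℓ e, Gf t J ≤ H J) :
    ∑ t ∈ Ico ℓ D, ∑ J ∈ powersetCard j (Ico (t + 1) D), Gf t J ≤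
      ∑ J ∈ powersetCard j (Ico ℓ D), H J := by
  classical
  have e1 : ∀ t ∈ Ico ℓ D, ∑ J ∈ powersetCard j (Ico (t + 1) D), Gf t J =
      ∑ J ∈ powersetCard j (Ico ℓ D), if J ⊆ Ico (t + 1) D then Gf t J else 0 := by
    intro t ht
    rw [← sum_filter]
    apply sum_congr _ (fun _ _ => rfl)
    ext J
    simp only [mem_filter, mem_powersetCard]
    constructor
    · rintro ⟨p1, p2⟩
      exact ⟨⟨p1.trans (Ico_subset_Ico (by have := (mem_Ico.1 ht).1; omega) le_rfl), p2⟩, p1⟩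
    · rintro ⟨⟨_, p2⟩, p1⟩
      exact ⟨p1, p2⟩
  rw [sum_congr rfl e1, sum_comm]
  apply sum_le_sum
  intro J hJ
  have hJ' := (mem_powersetCard.1 hJ).1
  obtain ⟨e, p1, p2, p3⟩ : ∃ e, ℓ ≤ e ∧ e ≤ D ∧ ∀ t < D, (J ⊆ Ico (t + 1) D ↔ t < e) := by
    rcases J.eq_empty_or_nonempty with rfl | hne
    · exact ⟨D, hℓ, le_rfl, fun t ht => by simp [ht]⟩
    · have hm := mem_Ico.1 (hJ' (J.min'_mem hne))
      refine ⟨J.min' hne, hm.1, hm.2.le, fun t _ => ⟨fun h => ?_, fun h s hs => ?_⟩⟩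
      · exact (mem_Ico.1 (h (J.min'_mem hne))).1
      · exact mem_Ico.2 ⟨lt_of_lt_of_le h (J.min'_le s hs), (mem_Ico.1 (hJ' hs)).2⟩
  rw [← sum_filter]
  have e2 : (Ico ℓ D).filter (fun t => J ⊆ Ico (t + 1) D) = Ico ℓ e := by
    ext t
    simp only [mem_filter, mem_Ico]
    constructor
    · rintro ⟨⟨q1, q2⟩, q3⟩
      exact ⟨q1, (p3 t q2).1 q3⟩
    · rintro ⟨q1, q2⟩
      exact ⟨⟨q1, by omega⟩, (p3 t (by omega)).2 q2⟩
  rw [e2]
  apply h J hJ e p1 p2
  intro t ht htJ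
  rw [mem_Ico] at ht
  have := (mem_Ico.1 ((p3 t (by omega)).2 ht.2 htJ)).1
  omega

lemma union_facts {ℓ D j e : ℕ} {Z J : Finset ℕ} (hℓ : ℓ ≤ D) (hZ : Z ⊆ range ℓ)
    (hJ : J ∈ powersetCard j (Ico ℓ D)) (he : ∀ t ∈ Ico ℓ e, t ∉ J) :
    Z ∪ J ⊆ range D ∧ (Z ∪ J).card = Z.card + j ∧ ∀ t ∈ Ico ℓ e, t ∉ Z ∪ J := by
  obtain ⟨h1, h2⟩ := mem_powersetCard.1 hJ
  refine ⟨union_subset (hZ.trans (range_subset_range.2 hℓ))
    (fun s hs => mem_range.2 (mem_Ico.1 (h1 hs)).2), ?_, fun t ht h => ?_⟩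
  · rw [card_union_of_disjoint, h2]
    rw [disjoint_left]
    intro s hs hs'
    have := mem_range.1 (hZ hs)
    have := (mem_Ico.1 (h1 hs')).1
    omega
  · rcases mem_union.1 h with h | h
    · have := mem_range.1 (hZ h)
      have := (mem_Ico.1 ht).1
      omega
    · exact he t ht h

/-- Counts at one level. -/
noncomputable def al (a : ℕ → M) (Z : Finset ℕ) (D j t : ℕ) (B : Finset ℕ) : ℝ :=
  cnt a B Z (t + 1) D j - cnt a (insert t B) Z (t + 1) D j

noncomputable def be (a : ℕ → M) (Z : Finset ℕ) (D j t : ℕ) (B : Finset ℕ) : ℝ :=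
  cnt a (insert t B) Z (t + 1) D j

noncomputable def ga (a : ℕ → M) (Z : Finset ℕ) (D j t : ℕ) (B : Finset ℕ) : ℝ :=
  cnt a B (insert t Z) (t + 1) D j

noncomputable def gp (a : ℕ → M) (Z : Finset ℕ) (D j t : ℕ) (B : Finset ℕ) : ℝ :=
  cntp a B (insert t Z) (t + 1) D j

variable {Z : Finset ℕ} {k : ℕ}

theorem S1 (hGI : GI D a) (hS : Seq ℓ u B) (hne : (B ℓ).Nonempty) (hT : Typ a mj ε Λ ℓ D)
    (hε0 : 0 ≤ ε) (hΛ : 0 ≤ Λ) (hℓ : ℓ ≤ D) (hZ : Z ⊆ range ℓ)
    (hc : Z.card + k + 1 = finrank ℝ M) :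
    (1 - 2 * ε) * ∑ t ∈ Ico ℓ D, ind (mj t = true) * al a Z D k t (B t) -
      Λ * cnt a (B ℓ) Z ℓ D k ≤ ∑ t ∈ Ico ℓ D, ind (mj t = false) * be a Z D k t (B t) := by
  have key := swap_le (j := k) hℓ _ _ (fun J hJ e h1 h2 h3 => by
    obtain ⟨p1, p2, p3⟩ := union_facts hℓ hZ hJ h3
    exact pw1 hGI hS hne hT hε0 hΛ p1 (by omega) h1 h2 p3)
  simp only [sum_sub_distrib, ← mul_sum, ← cnt_eq_sum] at key
  unfold al be
  linarith

theorem S2 (hGI : GI D a) (hS : Seq ℓ u B) (hne : (B ℓ).Nonempty) (hBr : B ℓ ⊆ range ℓ)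
    (hT : Typ a mj ε Λ ℓ D) (hε0 : 0 ≤ ε) (hε : ε ≤ 1 / 3) (hΛ : 0 ≤ Λ) (hℓ : ℓ ≤ D)
    (hZ : Z ⊆ range ℓ) (hc : Z.card + k + 2 = finrank ℝ M) :
    ∑ t ∈ Ico ℓ D, ind (mj t = false) * be a Z D k t (B t) ≤
      (1 + 3 * ε) * ∑ t ∈ Ico ℓ D, ind (mj t = true) * al a Z D k t (B t) +
      3 * ∑ t ∈ Ico ℓ D, ga a Z D k t (B t) +
      2 * Λ * (cnt a (B ℓ) Z ℓ D k + ∑ t ∈ Ico ℓ D, ind (u t) * ga a Z D k t (B t)) := by
  have key := swap_le (j := k) hℓ _ _ (fun J hJ e h1 h2 h3 => by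
    obtain ⟨p1, p2, p3⟩ := union_facts hℓ hZ hJ h3
    exact pw2 hGI hS hne hBr hT hε0 hε hΛ p1 (by omega) h1 h2 p3)
  simp only [sum_sub_distrib, ← mul_sum, ← insert_union, ← cnt_eq_sum] at key
  unfold al be ga
  linarith

theorem S3 (hGI : GI D a) (hS : Seq ℓ u B) (hne : (B ℓ).Nonempty) (hBr : B ℓ ⊆ range ℓ)
    (hT : Typ a mj ε Λ ℓ D) (hε : ε ≤ 1 / 3) (hΛ : 0 ≤ Λ) (hℓ : ℓ ≤ D)
    (hZ : Z ⊆ range ℓ) (hc : Z.card + k + 2 = finrank ℝ M) :
    1 / 4 * ∑ t ∈ Ico ℓ D, ga a Z D k t (B t) -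
      Λ * (cnt a (B ℓ) Z ℓ D k + ∑ t ∈ Ico ℓ D, ind (u t) * ga a Z D k t (B t)) ≤
      ∑ t ∈ Ico ℓ D, ind (mj t = false) * ga a Z D k t (B t) := by
  have key := swap_le (j := k) hℓ _ _ (fun J hJ e h1 h2 h3 => by
    obtain ⟨p1, p2, p3⟩ := union_facts hℓ hZ hJ h3
    exact pw3 hGI hS hne hBr hT hε hΛ p1 (by omega) h1 h2 p3)
  simp only [sum_sub_distrib, ← mul_sum, ← insert_union, ← cnt_eq_sum] at key
  unfold ga
  linarith

omit [FiniteDimensional ℝ M]

lemma al_nonneg (a : ℕ → M) (Z : Finset ℕ) (D j t : ℕ) (B : Finset ℕ) : 0 ≤ al a Z D j t B :=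
  sub_nonneg.2 (cnt_mono a (subset_insert _ _) _ _ _ _)

lemma al_le (a : ℕ → M) (Z : Finset ℕ) (D j t : ℕ) (B : Finset ℕ) :
    al a Z D j t B ≤ ((D : ℝ) + 1) ^ j := by
  unfold al
  linarith [cnt_le a B Z (t + 1) D j, cnt_nonneg a (insert t B) Z (t + 1) D j]

lemma cnt_succ (a : ℕ → M) (B Z : Finset ℕ) {t D : ℕ} (ht : t < D) (j : ℕ) :
    cnt a B Z t D (j + 1) = cnt a B Z (t + 1) D (j + 1) + cnt a B (insert t Z) (t + 1) D j := by
  classical
  have h0 : t ∉ Ico (t + 1) D := by simp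
  have e : Ico t D = insert t (Ico (t + 1) D) := by
    ext s; simp only [mem_insert, mem_Ico]; omega
  have nt : ∀ J ∈ powersetCard j (Ico (t + 1) D), t ∉ J := fun J hJ h =>
    h0 ((mem_powersetCard.1 hJ).1 h)
  simp only [cnt_eq_sum]
  rw [e, powersetCard_succ_insert h0, sum_union, sum_image]
  · congr 1
    apply sum_congr rfl
    intro J _
    rw [union_insert, insert_union]
  · intro J hJ J' hJ' h
    rw [← erase_insert (nt J hJ), ← erase_insert (nt J' hJ'), h]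
  · rw [disjoint_left]
    intro J hJ hJ'
    obtain ⟨J', -, rfl⟩ := mem_image.1 hJ'
    exact h0 ((mem_powersetCard.1 hJ).1 (mem_insert_self _ _))

lemma cnt_seq (hS : Seq ℓ u B) (a : ℕ → M) (Z : Finset ℕ) (D j : ℕ) {t : ℕ} (ht : ℓ ≤ t) :
    cnt a (B t) Z (t + 1) D j = cnt a (B (t + 1)) Z (t + 1) D j + ind (u t) * al a Z D j t (B t) := by
  by_cases hu : u t
  · rw [(hS t ht).1 hu, ind_pos hu, al]; ring
  · rw [(hS t ht).2 hu, ind_neg hu]; ring

theorem S0a (hS : Seq ℓ u B) (hℓ : ℓ ≤ D) (a : ℕ → M) (Z : Finset ℕ) (j : ℕ) :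
    cnt a (B ℓ) Z ℓ D (j + 1) = ∑ t ∈ Ico ℓ D, ind (u t) * al a Z D (j + 1) t (B t) +
      ∑ t ∈ Ico ℓ D, ga a Z D j t (B t) := by
  have h1 := sum_Ico_sub (fun t => cnt a (B t) Z t D (j + 1)) hℓ
  have h2 : cnt a (B D) Z D D (j + 1) = 0 := by
    rw [cnt_eq_sum, Ico_self, powersetCard_eq_empty.2 (by simp), sum_empty]
  rw [← sum_add_distrib, sum_congr rfl (g := fun t => -(cnt a (B (t + 1)) Z (t + 1) D (j + 1) -
    cnt a (B t) Z t D (j + 1))), sum_neg_distrib, h1, h2]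
  · ring
  · intro t ht
    rw [mem_Ico] at ht
    rw [cnt_succ a (B t) Z ht.2, cnt_seq hS a Z D (j + 1) ht.1, ga]
    ring

theorem S0b (hS : Seq ℓ u B) (hℓ : ℓ ≤ D) (a : ℕ → M) (Z : Finset ℕ) (j : ℕ) :
    ∑ t ∈ Ico ℓ D, ind (u t) * al a Z D j t (B t) ≤ cnt a (B ℓ) Z ℓ D j := by
  have h1 := sum_Ico_sub (fun t => cnt a (B t) Z t D j) hℓ
  have h2 := cnt_nonneg a (B D) Z D D j
  have h3 : ∑ t ∈ Ico ℓ D, ind (u t) * al a Z D j t (B t) ≤
      ∑ t ∈ Ico ℓ D, -(cnt a (B (t + 1)) Z (t + 1) D j - cnt a (B t) Z t D j) := by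
    apply sum_le_sum
    intro t ht
    have h4 : cnt a (B t) Z (t + 1) D j ≤ cnt a (B t) Z t D j := by
      simp only [cnt_eq_sum]
      exact sum_le_sum_of_subset_of_nonneg
        (powersetCard_mono (Ico_subset_Ico (Nat.le_succ t) le_rfl)) fun _ _ _ => ind_nonneg _
    linarith [cnt_seq hS a Z D j (mem_Ico.1 ht).1]
  rw [sum_neg_distrib, h1] at h3
  linarith

theorem S0c (hS : Seq ℓ u B) (hℓ : ℓ ≤ D) (a : ℕ → M) (Z : Finset ℕ) (j : ℕ) :
    ∑ t ∈ Ico ℓ D, gp a Z D j t (B t) ≤ cnt a (B ℓ) Z ℓ D j := by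
  cases j with
  | zero => simpa [gp, cntp] using cnt_nonneg a (B ℓ) Z ℓ D 0
  | succ j =>
    rw [S0a hS hℓ]
    have : 0 ≤ ∑ t ∈ Ico ℓ D, ind (u t) * al a Z D (j + 1) t (B t) :=
      sum_nonneg fun t _ => mul_nonneg (ind_nonneg _) (al_nonneg _ _ _ _ _ _)
    simp only [gp, cntp, ga]
    linarith

end Pool.Agent.MP_d7dd47_co.H62

end

-- part MP_d7dd47_co.H62.Marks
section

namespace Pool.Agent.MP_d7dd47_co.H62

open Finset Module

/-- Weight of a set of marked levels. -/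
noncomputable def wt (D : ℕ) (p : ℝ) (m : Finset ℕ) : ℝ := p ^ m.card * (1 - p) ^ (D - m.card)

lemma wt_nonneg (D : ℕ) {p : ℝ} (h0 : 0 ≤ p) (h1 : p ≤ 1) (m : Finset ℕ) : 0 ≤ wt D p m :=
  mul_nonneg (pow_nonneg h0 _) (pow_nonneg (by linarith) _)

lemma sum_wt (D : ℕ) (p : ℝ) : ∑ m ∈ (range D).powerset, wt D p m = 1 := by
  have := Finset.sum_pow_mul_eq_add_pow p (1 - p) (range D)
  simpa [wt] using this

lemma sum_wt_mark {D t : ℕ} (ht : t < D) (p : ℝ) (F : Finset ℕ → ℝ)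
    (hF : ∀ m, F (insert t m) = F m) :
    ∑ m ∈ (range D).powerset, wt D p m * (ind (t ∈ m) * F m) =
      p * ∑ m ∈ (range D).powerset, wt D p m * F m := by
  have e : range D = insert t ((range D).erase t) := (insert_erase (mem_range.2 ht)).symm
  rw [e, sum_powerset_insert (notMem_erase _ _), sum_powerset_insert (notMem_erase _ _),
    ← sum_add_distrib, ← sum_add_distrib, mul_sum]
  apply sum_congr rfl
  intro m hm
  rw [mem_powerset] at hm
  have h1 : t ∉ m := fun h => notMem_erase t _ (hm h)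
  have h2 : m.card + 1 ≤ D := by
    have := card_le_card hm
    rw [card_erase_of_mem (mem_range.2 ht), card_range] at this
    omega
  rw [ind_neg h1, ind_pos (mem_insert_self _ _), hF, wt, wt, card_insert_of_notMem h1,
    show D - m.card = (D - (m.card + 1)) + 1 by omega]
  ring

/-- Expectation over marks and good leaves below a node. -/
noncomputable def EE (D ℓ : ℕ) (z : Finset ℕ) (G : Finset (Finset ℕ)) (p : ℝ)
    (f : Finset ℕ → Finset ℕ → ℝ) : ℝ :=
  ∑ m ∈ (range D).powerset, wt D p m * avg D ℓ z (fun y => ind (y ∈ G) * f m y)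

section
variable {D ℓ : ℕ} {z : Finset ℕ} {G : Finset (Finset ℕ)} {p : ℝ}

lemma EE_add (f g : Finset ℕ → Finset ℕ → ℝ) :
    EE D ℓ z G p (fun m y => f m y + g m y) = EE D ℓ z G p f + EE D ℓ z G p g := by
  simp only [EE, mul_add, avg_add, sum_add_distrib]

lemma EE_mul (c : ℝ) (f : Finset ℕ → Finset ℕ → ℝ) :
    EE D ℓ z G p (fun m y => c * f m y) = c * EE D ℓ z G p f := by
  simp only [EE, mul_left_comm _ c, avg_mul, mul_sum]

lemma EE_sub (f g : Finset ℕ → Finset ℕ → ℝ) :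
    EE D ℓ z G p (fun m y => f m y - g m y) = EE D ℓ z G p f - EE D ℓ z G p g := by
  have := EE_add (D := D) (ℓ := ℓ) (z := z) (G := G) (p := p) (fun m y => f m y - g m y) g
  simp only [sub_add_cancel] at this
  linarith

lemma EE_const (f : Finset ℕ → ℝ) :
    EE D ℓ z G p (fun _ y => f y) = avg D ℓ z (fun y => ind (y ∈ G) * f y) := by
  rw [EE, ← sum_mul, sum_wt, one_mul]

lemma EE_mono (h0 : 0 ≤ p) (h1 : p ≤ 1) {f g : Finset ℕ → Finset ℕ → ℝ}
    (h : ∀ m, ∀ y ∈ G, f m y ≤ g m y) : EE D ℓ z G p f ≤ EE D ℓ z G p g := by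
  apply sum_le_sum
  intro m _
  apply mul_le_mul_of_nonneg_left _ (wt_nonneg D h0 h1 m)
  apply avg_mono
  intro y _
  by_cases hy : y ∈ G
  · rw [ind_pos hy, one_mul, one_mul]; exact h m y hy
  · rw [ind_neg hy, zero_mul, zero_mul]

lemma EE_le (h0 : 0 ≤ p) (h1 : p ≤ 1) {f : Finset ℕ → Finset ℕ → ℝ} {c : ℝ}
    (h : ∀ m, avg D ℓ z (fun y => ind (y ∈ G) * f m y) ≤ c) : EE D ℓ z G p f ≤ c := by
  calc EE D ℓ z G p f ≤ ∑ m ∈ (range D).powerset, wt D p m * c :=
        sum_le_sum fun m _ => mul_le_mul_of_nonneg_left (h m) (wt_nonneg D h0 h1 m)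
    _ = c := by rw [← sum_mul, sum_wt, one_mul]

lemma EE_typ (h0 : 0 ≤ p) (h1 : p ≤ 1) {f g : Finset ℕ → Finset ℕ → ℝ} {K η : ℝ} (hK : 0 ≤ K)
    (T : Finset ℕ → Finset ℕ → Prop) (hη : ∀ m, avg D ℓ z (fun y => ind (y ∈ G ∧ ¬ T m y)) ≤ η)
    (h : ∀ m, ∀ y ∈ G, T m y → f m y ≤ g m y) (h' : ∀ m, ∀ y ∈ G, f m y ≤ g m y + K) :
    EE D ℓ z G p f ≤ EE D ℓ z G p g + η * K := by
  have a1 : EE D ℓ z G p f ≤ EE D ℓ z G p (fun m y => g m y + K * ind (¬ T m y)) := by
    apply EE_mono h0 h1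
    intro m y hy
    by_cases hT : T m y
    · rw [ind_neg (not_not.2 hT), mul_zero, add_zero]; exact h m y hy hT
    · rw [ind_pos hT, mul_one]; exact h' m y hy
  rw [EE_add, EE_mul] at a1
  have a2 : EE D ℓ z G p (fun m y => ind (¬ T m y)) ≤ η := by
    apply EE_le h0 h1
    intro m
    simpa only [ind_and] using hη m
  nlinarith

lemma EE_mark (F : ℕ → Finset ℕ → Finset ℕ → ℝ) (hF : ∀ t m y, F t (insert t m) y = F t m y)
    (s : ℕ) : EE D ℓ z G p (fun m y => ∑ t ∈ Ico s D, ind (t ∈ m) * F t m y) =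
      p * EE D ℓ z G p (fun m y => ∑ t ∈ Ico s D, F t m y) := by
  have hs : ∀ (I : Finset ℕ) (H : ℕ → Finset ℕ → Finset ℕ → ℝ),
      EE D ℓ z G p (fun m y => ∑ t ∈ I, H t m y) = ∑ t ∈ I, EE D ℓ z G p (H t) := by
    intro I H
    induction I using Finset.induction_on with
    | empty => simp [EE, avg]
    | insert t I ht ih => simp only [sum_insert ht, EE_add, ih]
  rw [hs, hs, mul_sum]
  apply sum_congr rfl
  intro t ht
  have := sum_wt_mark (mem_Ico.1 ht).2 p (fun m => avg D ℓ z (fun y => ind (y ∈ G) * F t m y))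
    (fun m => by simp only [hF])
  rw [EE, EE, ← this]
  apply sum_congr rfl
  intro m _
  congr 1
  rw [← avg_mul]
  apply avg_congr
  intro y _
  ring

end

variable {M : Type*} [AddCommGroup M] [Module ℝ M] {D : ℕ} {a : Finset ℕ → ℕ → M}
  {G : Finset (Finset ℕ)}

/-- The value captured at marked minority steps. -/
lemma capture {ℓ0 : ℕ} {z0 : Finset ℕ} (m : Finset ℕ) (mj : ℕ → Finset ℕ → Bool) (hmj : Side mj)
    (S : Finset ℕ → ℕ → Finset ℕ)
    (hS1 : ∀ t x y, (∀ s < t, (s ∈ x ↔ s ∈ y)) → S x t = S y t)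
    (hS2 : ∀ y, Seq ℓ0 (fun t => t ∈ m ∧ mj t y = true) (S y)) (Φ : ℕ → Finset ℕ → ℝ)
    (hΦ : ∀ t y, (∀ s < ℓ0, (s ∈ y ↔ s ∈ z0)) → ℓ0 ≤ t → t < D → mj t y = false →
      avg D (t + 1) y (Φ t) ≤ V D a G (t + 1) y (insert t (S y t))) (n : ℕ) :
    ∀ ℓ, ℓ0 ≤ ℓ → ℓ + n = D → ∀ z, (∀ s < ℓ0, (s ∈ z ↔ s ∈ z0)) →
      avg D ℓ z (fun y => ∑ t ∈ Ico ℓ D, ind (t ∈ m) * (ind (mj t y = false) * Φ t y)) ≤
        V D a G ℓ z (S z ℓ) := by
  induction n with
  | zero =>
    intro ℓ _ h z _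
    have : ℓ = D := by omega
    subst this
    simp only [Ico_self, sum_empty, avg_zero]
    positivity
  | succ n ih =>
    intro ℓ h0 h z hz
    have hℓ : ℓ < D := by omega
    have child : ∀ c : Finset ℕ, (∀ s < ℓ, (s ∈ c ↔ s ∈ z)) →
        avg D (ℓ + 1) c (fun y => ∑ t ∈ Ico ℓ D, ind (t ∈ m) * (ind (mj t y = false) * Φ t y)) ≤
          ind (ℓ ∈ m) * V D a G (ℓ + 1) c (insert ℓ (S z ℓ)) +
            (1 - ind (ℓ ∈ m) * ind (mj ℓ c = true)) * V D a G ℓ z (S z ℓ) := by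
      intro c hc
      have hc0 : ∀ s < ℓ0, (s ∈ c ↔ s ∈ z0) := fun s hs => (hc s (by omega)).trans (hz s hs)
      have e1 : avg D (ℓ + 1) c
          (fun y => ∑ t ∈ Ico ℓ D, ind (t ∈ m) * (ind (mj t y = false) * Φ t y)) =
          ind (ℓ ∈ m) * ind (mj ℓ c = false) * avg D (ℓ + 1) c (Φ ℓ) + avg D (ℓ + 1) c
          (fun y => ∑ t ∈ Ico (ℓ + 1) D, ind (t ∈ m) * (ind (mj t y = false) * Φ t y)) := by
        rw [← avg_mul, ← avg_add]
        apply avg_congr
        intro y hy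
        have hy' := (mem_node.1 hy).2
        rw [sum_eq_sum_Ico_succ_bot hℓ,
          (hmj ℓ y c (fun s hs => hy' s (by omega))).2 (hy' ℓ (by omega))]
        ring
      have e2 := ih (ℓ + 1) (by omega) (by omega) c hc0
      have e3 : S c ℓ = S z ℓ := hS1 ℓ c z hc
      have e4 : (V D a G (ℓ + 1) c (S z ℓ) : ℝ) ≤ V D a G ℓ z (S z ℓ) := by
        exact_mod_cast V_mono (node_succ_subset hc) le_rfl
      rw [e1]
      by_cases hm : ℓ ∈ m
      · rw [ind_pos hm]
        cases hj : mj ℓ c with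
        | true =>
          rw [(hS2 c ℓ h0).1 ⟨hm, hj⟩, e3] at e2
          rw [ind_neg (P := true = false) (by simp), ind_pos (P := true = true) rfl]
          linarith
        | false =>
          rw [(hS2 c ℓ h0).2 (by simp [hj]), e3] at e2
          have e5 := hΦ ℓ c hc0 h0 hℓ hj
          rw [e3] at e5
          rw [ind_pos (P := false = false) rfl, ind_neg (P := false = true) (by simp)]
          linarith
      · rw [(hS2 c ℓ h0).2 (by simp [hm]), e3] at e2
        rw [ind_neg hm]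
        linarith
    have c1 := child _ (agree_insert ℓ z)
    have c2 := child _ (agree_erase ℓ z)
    have c3 : (V D a G (ℓ + 1) (insert ℓ z) (insert ℓ (S z ℓ)) : ℝ) +
        V D a G (ℓ + 1) (z.erase ℓ) (insert ℓ (S z ℓ)) ≤ V D a G ℓ z (S z ℓ) := by
      exact_mod_cast V_split ℓ z (S z ℓ)
    have c4 : ind (mj ℓ (insert ℓ z) = true) + ind (mj ℓ (z.erase ℓ) = true) = 1 := by
      have := hmj ℓ (insert ℓ z) (z.erase ℓ)
        (fun s hs => (agree_insert ℓ z s hs).trans (agree_erase ℓ z s hs).symm)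
      simp only [mem_insert_self, notMem_erase, iff_false, not_true] at this
      revert this
      cases mj ℓ (insert ℓ z) <;> cases mj ℓ (z.erase ℓ) <;> simp [ind]
    rw [avg_split hℓ]
    have c5 : (0 : ℝ) ≤ V D a G ℓ z (S z ℓ) := by positivity
    by_cases hm : ℓ ∈ m
    · rw [ind_pos hm] at c1 c2
      have c6 : ind (mj ℓ (insert ℓ z) = true) * (V D a G ℓ z (S z ℓ) : ℝ) +
          ind (mj ℓ (z.erase ℓ) = true) * V D a G ℓ z (S z ℓ) = V D a G ℓ z (S z ℓ) := by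
        rw [← add_mul, c4, one_mul]
      linarith
    · rw [ind_neg hm] at c1 c2
      linarith

open Classical in
/-- Whether the leaf `y` enters the child with the larger value. -/
noncomputable def mjB (D : ℕ) (a : Finset ℕ → ℕ → M) (G : Finset (Finset ℕ)) (t : ℕ)
    (y S : Finset ℕ) : Bool :=
  decide (¬ (t ∈ y ↔ V D a G (t + 1) (insert t y) (insert t S) ≤
    V D a G (t + 1) (y.erase t) (insert t S)))

/-- The constraint set along a leaf. -/
noncomputable def Bs (D : ℕ) (a : Finset ℕ → ℕ → M) (G : Finset (Finset ℕ)) (Z : Finset ℕ)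
    (ℓ0 : ℕ) (B0 m y : Finset ℕ) : ℕ → Finset ℕ
  | 0 => B0
  | t + 1 => if ℓ0 ≤ t ∧ t ∈ m ∧ mjB D a G t y (Bs D a G Z ℓ0 B0 m y t ∪ Z) = true then
      insert t (Bs D a G Z ℓ0 B0 m y t) else Bs D a G Z ℓ0 B0 m y t

lemma mjB_side (t : ℕ) (x y S : Finset ℕ) (h : ∀ s < t, (s ∈ x ↔ s ∈ y)) :
    mjB D a G t x S = mjB D a G t y S ↔ (t ∈ x ↔ t ∈ y) := by
  have e1 : V D a G (t + 1) (insert t x) (insert t S) =
      V D a G (t + 1) (insert t y) (insert t S) := V_congr (fun s hs => by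
    rcases Nat.lt_succ_iff_lt_or_eq.1 hs with h' | rfl
    · simp [h'.ne, h s h']
    · simp) _
  have e2 : V D a G (t + 1) (x.erase t) (insert t S) =
      V D a G (t + 1) (y.erase t) (insert t S) := V_congr (fun s hs => by
    rcases Nat.lt_succ_iff_lt_or_eq.1 hs with h' | rfl
    · simp [h'.ne, h s h']
    · simp) _
  unfold mjB
  rw [e1, e2, decide_eq_decide]
  generalize (V D a G (t + 1) (insert t y) (insert t S) ≤
    V D a G (t + 1) (y.erase t) (insert t S)) = P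
  tauto

lemma mjB_min (t : ℕ) (y S : Finset ℕ) (h : mjB D a G t y S = false) :
    2 * V D a G (t + 1) y (insert t S) ≤ V D a G t y S := by
  have h1 := V_split (D := D) (a := a) (G := G) t y S
  simp only [mjB, decide_eq_false_iff_not, not_not] at h
  by_cases ht : t ∈ y
  · have h2 := h.1 ht
    rw [insert_eq_of_mem ht] at h1 h2
    omega
  · have h2 := not_le.1 (fun h' => ht (h.2 h'))
    rw [erase_eq_of_notMem ht] at h1 h2
    omega

theorem exists_process (D : ℕ) (a : Finset ℕ → ℕ → M) (G : Finset (Finset ℕ)) (Z : Finset ℕ)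
    (ℓ0 : ℕ) (B0 : Finset ℕ) : ∃ (B : Finset ℕ → Finset ℕ → ℕ → Finset ℕ)
      (mj : Finset ℕ → ℕ → Finset ℕ → Bool), (∀ m y, B m y ℓ0 = B0) ∧ (∀ m, Side (mj m)) ∧
      (∀ m t x y, (∀ s < t, (s ∈ x ↔ s ∈ y)) → B m x t = B m y t) ∧
      (∀ m y, Seq ℓ0 (fun t => t ∈ m ∧ mj m t y = true) (B m y)) ∧
      (∀ m y t, B (insert t m) y t = B m y t) ∧ (∀ m y t, mj (insert t m) t y = mj m t y) ∧
      ∀ m y t, mj m t y = false →
        2 * V D a G (t + 1) y (insert t (B m y t ∪ Z)) ≤ V D a G t y (B m y t ∪ Z) := by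
  have p1 : ∀ m t x y, (∀ s < t, (s ∈ x ↔ s ∈ y)) →
      Bs D a G Z ℓ0 B0 m x t = Bs D a G Z ℓ0 B0 m y t := by
    intro m t x y
    induction t with
    | zero => intro _; rfl
    | succ t ih =>
      intro h
      have h' : ∀ s < t, (s ∈ x ↔ s ∈ y) := fun s hs => h s (by omega)
      simp only [Bs]
      rw [ih h', (mjB_side t x y _ h').2 (h t (by omega))]
  have p2 : ∀ m y s t, t ≤ s →
      Bs D a G Z ℓ0 B0 (insert s m) y t = Bs D a G Z ℓ0 B0 m y t := by
    intro m y s t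
    induction t with
    | zero => intro _; rfl
    | succ t ih =>
      intro h
      simp only [Bs]
      rw [ih (by omega)]
      simp only [mem_insert, show t ≠ s by omega, false_or]
  refine ⟨Bs D a G Z ℓ0 B0, fun m t y => mjB D a G t y (Bs D a G Z ℓ0 B0 m y t ∪ Z), ?_, ?_, p1,
    ?_, fun m y t => p2 m y t t le_rfl, fun m y t => by simp only [p2 m y t t le_rfl],
    fun m y t h => mjB_min t y _ h⟩
  · intro m y
    have : ∀ t, t ≤ ℓ0 → Bs D a G Z ℓ0 B0 m y t = B0 := by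
      intro t
      induction t with
      | zero => intro _; rfl
      | succ t ih =>
        intro h
        simp only [Bs]
        rw [if_neg (by omega), ih (by omega)]
    exact this ℓ0 le_rfl
  · intro m t x y h
    simp only [p1 m t x y h]
    exact mjB_side t x y _ h
  · intro m y t ht
    constructor
    · intro h
      simp only [Bs]
      rw [if_pos ⟨ht, h⟩]
    · intro h
      simp only [Bs]
      rw [if_neg (fun h' => h h'.2)]

end Pool.Agent.MP_d7dd47_co.H62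

end
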